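import Pool.Agent.N929.AC.Prim
import Pool.Agent.N353.AC.PRIM

/-!
# Analytic continuation: dividing the coefficients by powers of `n + 1`
-/

set_option autoImplicit false

namespace Pool.Agent.Helper99.AG

open Finset Filter Topology Pool.Agent.N929.EG Pool.Agent.N929.AC

noncomputable section

theorem ext_div {c μ : ℝ} {s : ℕ} (hc : 0 < c) (hμ : 1 ≤ μ) (hs : 1 ≤ s)
    {u : ℕ → ℝ} {f : ℂ → ℂ} (h : Ext c μ s u f) :
    ∃ G : ℂ → ℂ, Ext c μ s (fun n => u n / ((n : ℝ) + 1)) G := by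
  obtain ⟨o1, -, o3, -⟩ := s_omg c μ s hc hμ hs
  have hμ0 : 0 < μ := by linarith
  have h0 : (0 : ℂ) ∈ Om c μ s := o3 0 (by simp)
  have hball : ∀ z : ℂ, z ∈ Metric.ball (0 : ℂ) (1 / μ) ↔ μ * ‖z‖ < 1 := by
    intro z
    rw [mem_ball_zero_iff, lt_div_iff₀ hμ0, mul_comm]
  obtain ⟨F, f1, f2, f3, f4⟩ := Pool.Agent.N353.AC.prim (Om c μ s) (1 / μ)
    (fun n => (u n : ℂ)) f o1
    (fun z hz t ht0 ht1 => om_star hμ h0 z hz t ht0 ht1) (by positivity)
    (fun z hz => o3 z ((hball z).1 hz)) h.1 (fun z hz => h.2 z ((hball z).1 hz))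
  have hnhds : Om c μ s ∈ 𝓝 (0 : ℂ) := o1.mem_nhds h0
  refine ⟨dslope F 0, (Complex.differentiableOn_dslope hnhds).2 f1, fun z hz => ?_⟩
  by_cases hz0 : z = 0
  · subst hz0
    rw [dslope_same, (f2 0 h0).deriv]
    have h1 := h.2 0 (by simp)
    have h2 : f 0 = (u 0 : ℂ) := by
      refine h1.unique ?_
      have h3 := hasSum_single (f := fun n : ℕ => (u n : ℂ) * (0 : ℂ) ^ n) 0 (fun n hn => by
        simp [hn])
      simpa using h3
    have h3 := hasSum_single (f := fun n : ℕ => ((u n / ((n : ℝ) + 1) : ℝ) : ℂ) * (0 : ℂ) ^ n) 0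
      (fun n hn => by simp [hn])
    rw [h2]
    simpa using h3
  · rw [dslope_of_ne _ hz0, slope_def_field, f3, sub_zero, sub_zero]
    have h1 := (f4 z ((hball z).2 hz)).div_const z
    refine h1.congr_fun fun n => ?_
    push_cast
    rw [pow_succ]
    field_simp

theorem ext_divs {c μ : ℝ} {s : ℕ} (hc : 0 < c) (hμ : 1 ≤ μ) (hs : 1 ≤ s)
    {u : ℕ → ℝ} {f : ℂ → ℂ} (h : Ext c μ s u f) (m : ℕ) :
    ∃ G : ℂ → ℂ, Ext c μ s (fun n => u n / ((n : ℝ) + 1) ^ m) G := by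
  induction m with
  | zero => exact ⟨f, by simpa using h⟩
  | succ m ih =>
    obtain ⟨G, hG⟩ := ih
    obtain ⟨G', hG'⟩ := ext_div hc hμ hs hG
    refine ⟨G', ?_⟩
    have e : (fun n : ℕ => u n / ((n : ℝ) + 1) ^ m / ((n : ℝ) + 1)) =
        fun n : ℕ => u n / ((n : ℝ) + 1) ^ (m + 1) := by
      funext n
      rw [pow_succ, div_div]
    rwa [e] at hG'

/-- multiplication by a constant -/
theorem ext_smul {c μ : ℝ} {s : ℕ} {u : ℕ → ℝ} {f : ℂ → ℂ} (h : Ext c μ s u f) (a : ℝ) :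
    ∃ G : ℂ → ℂ, Ext c μ s (fun n => a * u n) G := by
  refine ⟨fun z => (a : ℂ) * f z, h.1.const_mul _, fun z hz => ?_⟩
  have h1 := (h.2 z hz).mul_left (a : ℂ)
  have e : (fun n : ℕ => (a : ℂ) * ((u n : ℂ) * z ^ n)) =
      fun n : ℕ => ((a * u n : ℝ) : ℂ) * z ^ n := by
    funext n
    push_cast
    ring
  rwa [e] at h1

end

end Pool.Agent.Helper99.AG
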