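import Pool.Agent.Helper99.AG.Sizes
import Pool.Agent.Helper99.AG.Div

/-!
# The generating functions of the joint moments of the sizes, planar lattices
-/

set_option autoImplicit false
set_option linter.unusedVariables false

namespace Pool.Agent.Helper99.AG

open Finset Filter Topology Pool.Agent.N929.EG Pool.Agent.N929.AC
open TH966.AK Pool.Agent.R965.HP
open scoped Classical

noncomputable section

variable {A : ℤ × ℤ → ℤ × ℤ → Prop}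

theorem AD_true (A : ℤ × ℤ → ℤ × ℤ → Prop) : AD A (fun _ => True) = A := by
  funext p q
  unfold AD
  simp

theorem winT {Z : Rule A} {hs : 1 ≤ (ruleD Z (fun _ => True)).s} (hs' : 1 ≤ Z.s)
    {Y : TS (List (ℤ × ℤ)) (List (ℤ × ℤ) × List (ℤ × ℤ))}
    (W : Win (toRul (ruleD Z (fun _ => True)) hs) Y) : Win (toRul Z hs') Y where
  s := W.s
  len := W.len
  K := by
    intro n w
    have h := W.K n w
    rw [AD_true] at h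
    exact h
  S := by
    intro w q
    refine (W.S w q).trans ?_
    show (Z.T q.1 q.2 ∧ (∀ x ∈ q.1, True) ∧ ∀ x ∈ q.2, True) ∧ Pool.Agent.N929.EG.Free q.1 q.2 w ↔
      Z.T q.1 q.2 ∧ Pool.Agent.N929.EG.Free q.1 q.2 w
    simp
  B := by
    intro w q
    refine (W.B w q).trans ?_
    show (Z.T q.1 q.2 ∧ (∀ x ∈ q.1, True) ∧ ∀ x ∈ q.2, True) ∧ Pool.Agent.N929.EG.Free q.2 q.1 w ↔
      Z.T q.1 q.2 ∧ Pool.Agent.N929.EG.Free q.2 q.1 w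
    simp
  ins := W.ins

/-- the system of moves for the full plane with the growth bounds -/
theorem sysF (Z : Rule A) (hs1 : 1 ≤ Z.s) {μ K : ℝ}
    (G : Pool.Agent.R965.HP.Gr (ruleD Z (fun _ => True)).sys μ K 2) :
    ∃ (Y : TS (List (ℤ × ℤ)) (List (ℤ × ℤ) × List (ℤ × ℤ))) (φ : ℕ → ℝ),
      Win (toRul Z hs1) Y ∧ Y.s = Z.s ∧ (∀ n, Y.K n = Kw A n) ∧
      Pool.Agent.N929.EG.Gr Y μ φ := by
  obtain ⟨Y, W, y1, y2, y3, y4, y5⟩ := sys2W (ruleD Z (fun _ => True)) G.hs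
  obtain ⟨K₁, hK₁, hG, -⟩ := grD G one_le_two y2 y3 y4
  refine ⟨Y, _, winT hs1 W, y1, fun n => ?_, hG⟩
  rw [y2, AD_true]

theorem EE_ofFn (pt : ℤ × ℤ → ℂ) (h0 : pt 0 = 0) {n : ℕ} (f : Fin (n + 1) → ℤ × ℤ) :
    EE X2 pt (List.ofFn f) = ‖pt (f (Fin.last n))‖ ^ 2 := by
  have h1 : en X2 (List.ofFn f) = f (Fin.last n) := lst_ofFn f
  have h2 : pt X2.o = 0 := h0
  unfold EE
  rw [h1, h2, sub_zero]

theorem sizes_ac (Z : Rule A) (hs1 : 1 ≤ Z.s) {μ K : ℝ}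
    (G : Pool.Agent.R965.HP.Gr (ruleD Z (fun _ => True)).sys μ K 2)
    {pt : ℤ × ℤ → ℂ} {c₁ δ : ℝ} (H : Pl A pt c₁ δ) (h0 : pt 0 = 0) :
    ∃ c : ℝ, 0 < c ∧ ∀ i j k : ℕ, ∃ f : ℂ → ℂ, Ext c μ Z.s (fun n => ∑ᶠ ω ∈ wks A n,
      ((‖pt (ω (Fin.last n))‖ ^ 2) ^ i *
      (1 / (2 * ((n : ℝ) + 1) ^ 2) * ∑ i, ∑ j, ‖pt (ω i) - pt (ω j)‖ ^ 2) ^ j *
      (1 / (2 * ((n : ℝ) + 1)) *
        ∑ i, (‖pt (ω i)‖ ^ 2 + ‖pt (ω i) - pt (ω (Fin.last n))‖ ^ 2)) ^ k)) f := by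
  obtain ⟨Y, φ, W, y1, y2, hG⟩ := sysF Z hs1 G
  obtain ⟨c, hc, h⟩ := ac_sizes lib W (H.lt _) hG
  have hμ := hG.one
  refine ⟨c, hc, fun i j k => ?_⟩
  obtain ⟨f, f1, f2⟩ := h i j k
  rw [y1] at f1
  have e0 : Ext c μ Z.s (aa Y (fun w => EE X2 pt w ^ i * TT pt w ^ j * MM X2 pt w ^ k)) f :=
    ⟨f1, f2⟩
  obtain ⟨g, hg⟩ := ext_divs hc hμ hs1 e0 (2 * j + k)
  obtain ⟨g', hg'⟩ := ext_smul hg (1 / 2 ^ (j + k))
  refine ⟨g', ?_⟩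
  have e : (fun n : ℕ => ∑ᶠ ω ∈ wks A n,
      ((‖pt (ω (Fin.last n))‖ ^ 2) ^ i *
      (1 / (2 * ((n : ℝ) + 1) ^ 2) * ∑ i, ∑ j, ‖pt (ω i) - pt (ω j)‖ ^ 2) ^ j *
      (1 / (2 * ((n : ℝ) + 1)) *
        ∑ i, (‖pt (ω i)‖ ^ 2 + ‖pt (ω i) - pt (ω (Fin.last n))‖ ^ 2)) ^ k)) =
      fun n : ℕ => 1 / 2 ^ (j + k) *
        (aa Y (fun w => EE X2 pt w ^ i * TT pt w ^ j * MM X2 pt w ^ k) n /
          ((n : ℝ) + 1) ^ (2 * j + k)) := by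
    funext n
    rw [sum_list Z n _ (fun w => EE X2 pt w ^ i *
      (1 / (2 * ((n : ℝ) + 1) ^ 2) * TT pt w) ^ j * (1 / (2 * ((n : ℝ) + 1)) * MM X2 pt w) ^ k)
      (fun f => by rw [EE_ofFn pt h0, TT_ofFn, MM_ofFn pt h0])]
    unfold aa
    rw [y2, sum_div, mul_sum]
    refine sum_congr rfl fun w _ => ?_
    have hn : ((n : ℝ) + 1) ≠ 0 := Nat.cast_add_one_ne_zero n
    rw [mul_pow, mul_pow, div_pow, div_pow, mul_pow, mul_pow, one_pow, one_pow, ← pow_mul,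
      pow_add, pow_add]
    field_simp
  rw [e]
  exact hg'

end

end Pool.Agent.Helper99.AG
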