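import Pool.Agent.Helper99.AG.AreaP
import Pool.Agent.Helper99.AG.Fin
import Pool.Agent.N929.AC.Grid2

/-!
# The generating functions of the moments of the area of polygons
-/

set_option autoImplicit false
set_option linter.unusedVariables false

namespace Pool.Agent.Helper99.AG

open Finset Filter Topology Pool.Agent.N929.EG Pool.Agent.N929.AC
open TH966.AK Pool.Agent.R965.HP
open scoped Classical

noncomputable section

/-- a closed nearest-neighbour loop -/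
def Lp (m : ℕ) (f : ZMod m → ℤ × ℤ) : Prop :=
  f 0 = 0 ∧ Function.Injective f ∧
    ∀ i : ZMod m, |(f (i + 1)).1 - (f i).1| + |(f (i + 1)).2 - (f i).2| = 1

/-- the edge is above the cell -/
def Abv (m : ℕ) (f : ZMod m → ℤ × ℤ) (a b : ℤ) (k : ZMod m) : Prop :=
  (((f k).1 = a ∧ (f (k + 1)).1 = a + 1) ∨ ((f k).1 = a + 1 ∧ (f (k + 1)).1 = a)) ∧ b < (f k).2

/-- the cell is enclosed -/
def Enc (m : ℕ) (f : ZMod m → ℤ × ℤ) (c : ℤ × ℤ) : Prop :=
  Odd (Nat.card {k : ZMod m // Abv m f c.1 c.2 k})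

/-- the area -/
def are (m : ℕ) (f : ZMod m → ℤ × ℤ) : ℕ := Nat.card {c : ℤ × ℤ // Enc m f c}

/-- the successor modulo `n + 1` -/
def nx {n : ℕ} (k : Fin (n + 1)) : Fin (n + 1) :=
  let k' : ZMod (n + 1) := k
  (k' + 1 : ZMod (n + 1))

theorem nx_cs {n : ℕ} (j : Fin n) : nx j.castSucc = j.succ := Fin.coeSucc_eq_succ

theorem nx_last {n : ℕ} : nx (Fin.last n) = 0 := Fin.last_add_one n

theorem lp_iff' {n : ℕ} (f : Fin (n + 1) → ℤ × ℤ) :
    Lp (n + 1) f ↔ f 0 = 0 ∧ Function.Injective f ∧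
      ∀ i : Fin (n + 1), |(f (nx i)).1 - (f i).1| + |(f (nx i)).2 - (f i).2| = 1 := Iff.rfl

theorem lp_iff {n : ℕ} (f : Fin (n + 1) → ℤ × ℤ) :
    Lp (n + 1) f ↔ f ∈ wks Sq.A n ∧ Sq.A (f (Fin.last n)) 0 := by
  rw [lp_iff']
  constructor
  · rintro ⟨h1, h2, h3⟩
    refine ⟨⟨h1, h2, fun i => ?_⟩, ?_⟩
    · have h := h3 i.castSucc
      rw [nx_cs] at h
      show |(f i.castSucc).1 - (f i.succ).1| + |(f i.castSucc).2 - (f i.succ).2| = 1
      rw [abs_sub_comm, abs_sub_comm (f i.castSucc).2]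
      exact h
    · have h := h3 (Fin.last n)
      rw [nx_last, h1] at h
      show |(f (Fin.last n)).1 - (0 : ℤ × ℤ).1| + |(f (Fin.last n)).2 - (0 : ℤ × ℤ).2| = 1
      rw [abs_sub_comm, abs_sub_comm (f (Fin.last n)).2]
      exact h
  · rintro ⟨⟨h1, h2, h3⟩, h4⟩
    refine ⟨h1, h2, fun i => ?_⟩
    refine Fin.lastCases ?_ (fun j => ?_) i
    · rw [nx_last, h1]
      have h : |(f (Fin.last n)).1 - (0 : ℤ × ℤ).1| + |(f (Fin.last n)).2 - (0 : ℤ × ℤ).2| = 1 :=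
        h4
      rw [abs_sub_comm, abs_sub_comm (f (Fin.last n)).2] at h
      exact h
    · rw [nx_cs]
      have h : |(f j.castSucc).1 - (f j.succ).1| + |(f j.castSucc).2 - (f j.succ).2| = 1 := h3 j
      rw [abs_sub_comm, abs_sub_comm (f j.castSucc).2] at h
      exact h

/-- the condition in `Abv` -/
def Abq {n : ℕ} (f : Fin (n + 1) → ℤ × ℤ) (c : ℤ × ℤ) (k : Fin (n + 1)) : Prop :=
  (((f k).1 = c.1 ∧ (f (nx k)).1 = c.1 + 1) ∨ ((f k).1 = c.1 + 1 ∧ (f (nx k)).1 = c.1)) ∧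
    c.2 < (f k).2

theorem card_abv {n : ℕ} (f : Fin (n + 1) → ℤ × ℤ) (c : ℤ × ℤ) :
    Nat.card {k : ZMod (n + 1) // Abv (n + 1) f c.1 c.2 k} =
      ((univ : Finset (Fin (n + 1))).filter (fun k => Abq f c k)).card := by
  have h : Nat.card {k : Fin (n + 1) // Abq f c k} =
      ((univ : Finset (Fin (n + 1))).filter (fun k => Abq f c k)).card := by
    refine Nat.subtype_card _ fun x => ?_
    rw [mem_filter]
    exact ⟨fun h => h.2, fun h => ⟨mem_univ _, h⟩⟩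
  exact h

theorem par_ofFn {n : ℕ} (f : Fin (n + 1) → ℤ × ℤ) (h0 : f 0 = 0) (c : ℤ × ℤ) :
    par c (List.ofFn f) = ((Nat.card {k : ZMod (n + 1) // Abv (n + 1) f c.1 c.2 k} : ℕ) : ZMod 2) := by
  have e0 : (List.ofFn f).getLast?.getD 0 = f (Fin.last n) := lst_ofFn f
  have e1 : par c (List.ofFn f) = ∑ k : Fin (n + 1), ab c (f k) (f (nx k)) := by
    unfold par
    rw [e0, es_ofFn, Fin.sum_univ_castSucc, nx_last, h0]
    congr 1
    refine sum_congr rfl fun j _ => ?_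
    rw [nx_cs]
  rw [e1, card_abv, card_filter]
  push_cast
  refine sum_congr rfl fun k _ => ?_
  unfold ab
  exact if_congr Iff.rfl rfl rfl

theorem are_eq {n : ℕ} (f : Fin (n + 1) → ℤ × ℤ) (h0 : f 0 = 0) :
    are (n + 1) f = arl (List.ofFn f) := by
  unfold are arl
  refine Nat.card_congr (Equiv.subtypeEquivRight fun c => ?_)
  rw [par_ofFn f h0 c, ZMod.natCast_eq_one_iff_odd]
  rfl

theorem sum_loops (n k : ℕ) :
    ∑ᶠ f ∈ {f : ZMod (n + 1) → ℤ × ℤ | Lp (n + 1) f}, (are (n + 1) f : ℝ) ^ k =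
      ∑ w ∈ Kw Sq.A n, gcl w * (gcl w * arl w) ^ k := by
  rw [← sum_list Sq.rule n (fun f => gcl (List.ofFn f) * (gcl (List.ofFn f) *
    arl (List.ofFn f)) ^ k) (fun w => gcl w * (gcl w * arl w) ^ k) (fun f => rfl)]
  rw [finsum_mem_def, finsum_mem_def]
  refine finsum_congr fun f => ?_
  have hl : lst (List.ofFn (f : Fin (n + 1) → ℤ × ℤ)) = f (Fin.last n) := lst_ofFn f
  by_cases h : Lp (n + 1) f
  · obtain ⟨h1, h2⟩ := (lp_iff f).1 h
    rw [Set.indicator_of_mem (show f ∈ {f : ZMod (n + 1) → ℤ × ℤ | Lp (n + 1) f} from h)]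
    refine Eq.trans ?_ (Set.indicator_of_mem h1 _).symm
    have hg : gcl (List.ofFn (f : Fin (n + 1) → ℤ × ℤ)) = 1 := by
      unfold gcl
      rw [hl, if_pos h2]
    rw [hg, one_mul, one_mul, are_eq f h1.1]
  · rw [Set.indicator_of_notMem (show f ∉ {f : ZMod (n + 1) → ℤ × ℤ | Lp (n + 1) f} from h)]
    by_cases h1 : (f : Fin (n + 1) → ℤ × ℤ) ∈ wks Sq.A n
    · refine Eq.trans ?_ (Set.indicator_of_mem h1 _).symm
      have h2 : ¬ Sq.A (f (Fin.last n)) 0 := fun h2 => h ((lp_iff f).2 ⟨h1, h2⟩)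
      have hg : gcl (List.ofFn (f : Fin (n + 1) → ℤ × ℤ)) = 0 := by
        unfold gcl
        rw [hl, if_neg h2]
      rw [hg, zero_mul]
    · exact (Set.indicator_of_notMem h1 _).symm

/-- **The generating functions of the moments of the area.** -/
theorem area_ac {μ K : ℝ}
    (G : Pool.Agent.R965.HP.Gr (ruleD Sq.rule (fun _ => True)).sys μ K 2)
    {pt : ℤ × ℤ → ℂ} {c₁ δ : ℝ} (H : Pl Sq.A pt c₁ δ) :
    ∃ c : ℝ, 0 < c ∧ ∀ k : ℕ, ∃ f : ℂ → ℂ, DifferentiableOn ℂ f (Om c μ 2) ∧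
      ∀ z : ℂ, μ * ‖z‖ < 1 → HasSum (fun j : ℕ =>
        (((∑ᶠ f ∈ {f : ZMod (j + 4) → ℤ × ℤ | Lp (j + 4) f}, (are (j + 4) f : ℝ) ^ k) /
          (2 * ((j + 4 : ℕ) : ℝ)) : ℝ) : ℂ) * z ^ (j + 4)) (f z) := by
  obtain ⟨Y, φ, W, y1, y2, hG⟩ := sysF Sq.rule (show 1 ≤ 2 by norm_num) G
  have W' : Win ZS Y := W
  obtain ⟨c, hc, h⟩ := ac_area lib W' (H.lt _) hG
  have hμ := hG.one
  have hs2 : Y.s = 2 := y1
  refine ⟨c, hc, fun k => ?_⟩
  obtain ⟨f, f1, f2⟩ := h k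
  rw [hs2] at f1
  obtain ⟨v, hv⟩ : ∃ v : ℕ → ℝ, v = fun m => if 4 ≤ m then
      (∑ᶠ f ∈ {f : ZMod m → ℤ × ℤ | Lp m f}, (are m f : ℝ) ^ k) / (2 * (m : ℝ)) else 0 := ⟨_, rfl⟩
  obtain ⟨F, F1, F2⟩ := ext_prim (v := v) Pool.Agent.N353.AC.prim hc hμ (by norm_num)
    (⟨f1, f2⟩ : Ext c μ 2 _ f) 3 (fun n hn => by
      rw [hv]
      simp only
      rw [if_pos (by omega), sum_loops]
      unfold aa
      rw [y2]
      push_cast
      rfl)
  refine ⟨F, F1, fun z hz => ?_⟩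
  have h1 := (hasSum_nat_add_iff' 4).2 (F2 z hz)
  have h2 : ∑ i ∈ range 4, (v i : ℂ) * z ^ i = 0 := by
    refine sum_eq_zero fun i hi => ?_
    have : v i = 0 := by
      rw [hv]
      exact if_neg (by rw [mem_range] at hi; omega)
    rw [this, Complex.ofReal_zero, zero_mul]
  rw [h2, sub_zero] at h1
  refine h1.congr_fun fun j => ?_
  rw [hv]
  simp only
  rw [if_pos (by omega)]

end

end Pool.Agent.Helper99.AG
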