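import Pool.Agent.Helper99.AG.Asm
import Pool.Agent.N929.EG.SizeP

/-!
# The sizes of walks are polynomials in the occupation numbers of the slots
-/

set_option autoImplicit false
set_option linter.unusedVariables false

namespace Pool.Agent.Helper99.AG

open Finset Filter Topology Pool.Agent.N929.EG Pool.Agent.N929.AC
open scoped Classical

noncomputable section

/-! ### functionals with bounded degree -/

section base

variable {α σ : Type} {Y : TS α σ} {f g : α → ℝ} {C D : ℝ} {p q r s : ℕ}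

/-- a functional of polynomial growth and bounded degree in the slots -/
structure Ba (Y : TS α σ) (f : α → ℝ) (C : ℝ) (p r : ℕ) : Prop where
  nonneg : 0 ≤ C
  size : ∀ n, ∀ w ∈ Y.K n, |f w| ≤ C * ((n : ℝ) + 1) ^ p
  rp : ∀ L, Fam Y L → ∀ st fl, Fill Y L st fl → ∀ w, Em Y L w →
    Rp (Sl Y L w) (fun U => f (fl w U)) (C * ((Y.len w : ℝ) + 1) ^ p)
  dg : ∀ L, Fam Y L → ∀ st fl, Fill Y L st fl → ∀ w, Em Y L w →
    Dg r (Sl Y L w) (fun U => f (fl w U))

theorem Ba.pol (h : Ba Y f C p r) : Pol Y f C p r :=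
  ⟨h.nonneg, h.size, fun L hL st fl hfl w hw => rr (h.rp L hL st fl hfl w hw)
    (h.dg L hL st fl hfl w hw)⟩

theorem Ba.mul (h : Ba Y f C p r) (h' : Ba Y g D q s) :
    Ba Y (fun w => f w * g w) (C * D) (p + q) (r + s) where
  nonneg := mul_nonneg h.nonneg h'.nonneg
  size := by
    intro n w hw
    rw [abs_mul]
    have h1 := h.size n w hw
    have h2 := h'.size n w hw
    calc |f w| * |g w| ≤ (C * ((n : ℝ) + 1) ^ p) * (D * ((n : ℝ) + 1) ^ q) :=
          mul_le_mul h1 h2 (abs_nonneg _) ((abs_nonneg _).trans h1)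
      _ = _ := by rw [pow_add]; ring
  rp := by
    intro L hL st fl hfl w hw
    refine ((h.rp L hL st fl hfl w hw).mul (h'.rp L hL st fl hfl w hw)).mono (le_of_eq ?_)
    rw [pow_add]
    ring
  dg := fun L hL st fl hfl w hw => (h.dg L hL st fl hfl w hw).mul (h'.dg L hL st fl hfl w hw)

theorem Ba.one : Ba Y (fun _ => (1 : ℝ)) 1 0 0 where
  nonneg := zero_le_one
  size := by
    intro n w hw
    simp
  rp := by
    intro L hL st fl hfl w hw
    refine (Rp.const (E := Sl Y L w) 1).mono ?_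
    simp
  dg := fun L hL st fl hfl w hw => Dg.const 1

theorem Ba.pow (h : Ba Y f C p r) (k : ℕ) : Ba Y (fun w => f w ^ k) (C ^ k) (p * k) (k * r) := by
  induction k with
  | zero => simpa using (Ba.one (Y := Y))
  | succ k ih =>
    have h1 := ih.mul h
    have e1 : (fun w => f w ^ k * f w) = fun w => f w ^ (k + 1) := by
      funext w
      rw [pow_succ]
    rw [e1, ← pow_succ] at h1
    rwa [show p * (k + 1) = p * k + p by ring, show (k + 1) * r = k * r + r by ring]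

end base

/-! ### sizes -/

variable {Ver : Type} {X : Geo Ver} {A : Ver → Ver → Prop} {Z : Rul X A}
  {Y : TS (List Ver) (List Ver × List Ver)} {pt : Ver → ℂ} {R δ : ℝ}
  {L : Finset (List Ver × List Ver)} {st : List Ver → List Ver}
  {fl : List Ver → Finset (List Ver × List Ver) → List Ver}

theorem K0 (W : Win Z Y) {w : List Ver} (hw : w ∈ Y.K 0) : w = [X.o] := by
  obtain ⟨h1, h2⟩ := (W.K 0 w).1 hw
  obtain ⟨h3, -⟩ := h2
  cases w with
  | nil => simp at h1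
  | cons x t =>
    rw [List.length_cons] at h1
    have ht : t = [] := List.length_eq_zero_iff.1 (by omega)
    subst ht
    rw [List.head?_cons, Option.some.injEq] at h3
    rw [h3]

theorem o_mem (W : Win Z Y) {n : ℕ} {w : List Ver} (hw : w ∈ Y.K n) : X.o ∈ w := by
  obtain ⟨h1, h2⟩ := (W.K n w).1 hw
  obtain ⟨h3, -⟩ := h2
  cases w with
  | nil => simp at h1
  | cons x t =>
    rw [List.head?_cons, Option.some.injEq] at h3
    rw [h3]
    exact List.mem_cons_self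

theorem en_mem (W : Win Z Y) {n : ℕ} {w : List Ver} (hw : w ∈ Y.K n) : en X w ∈ w := by
  have hne : w ≠ [] := List.ne_nil_of_mem (o_mem W hw)
  unfold en
  rw [List.getLast?_eq_getLast_of_ne_nil hne]
  exact List.getLast_mem hne

theorem dg_S2 (hfsm : S_FSM) (W : Win Z Y) (hfl : Fill Y L st fl) (c : ℂ) {w : List Ver}
    (hw : Em Y L w) : Dg 1 (Sl Y L w) (fun U => S2 pt c (fl w U)) :=
  (Dg.aff (S2 pt c w) (fun q => S2 pt c q.2 - S2 pt c q.1)).congr fun U hU =>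
    hfsm Ver X A Z Y W L st fl hfl ℝ inferInstance (fun x => ‖pt x - c‖ ^ 2) w hw U hU

theorem dg_N (hfsm : S_FSM) (W : Win Z Y) (hfl : Fill Y L st fl) {w : List Ver}
    (hw : Em Y L w) : Dg 1 (Sl Y L w) (fun U => ((fl w U).length : ℝ)) := by
  refine (Dg.aff (sm (fun _ => (1 : ℝ)) w)
    (fun q => sm (fun _ => (1 : ℝ)) q.2 - sm (fun _ => (1 : ℝ)) q.1)).congr fun U hU => ?_
  have h2 := hfsm Ver X A Z Y W L st fl hfl ℝ inferInstance (fun _ => (1 : ℝ)) w hw U hU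
  rw [← h2, sm_one]

theorem dg_S1 (hfsm : S_FSM) (W : Win Z Y) (hfl : Fill Y L st fl) (c : ℂ) {w : List Ver}
    (hw : Em Y L w) : Dg 2 (Sl Y L w) (fun U => ‖S1 pt c (fl w U)‖ ^ 2) := by
  have h1 : ∀ U ⊆ Sl Y L w, S1 pt c (fl w U) =
      S1 pt c w + ∑ q ∈ U, (S1 pt c q.2 - S1 pt c q.1) := fun U hU =>
    hfsm Ver X A Z Y W L st fl hfl ℂ inferInstance (fun x => pt x - c) w hw U hU
  have hre : Dg 1 (Sl Y L w) (fun U => (S1 pt c (fl w U)).re) := by
    refine (Dg.aff (S1 pt c w).re (fun q => (S1 pt c q.2 - S1 pt c q.1).re)).congr fun U hU => ?_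
    rw [h1 U hU, Complex.add_re, Complex.re_sum]
  have him : Dg 1 (Sl Y L w) (fun U => (S1 pt c (fl w U)).im) := by
    refine (Dg.aff (S1 pt c w).im (fun q => (S1 pt c q.2 - S1 pt c q.1).im)).congr fun U hU => ?_
    rw [h1 U hU, Complex.add_im, Complex.im_sum]
  refine ((hre.pow 2).add (him.pow 2)).congr fun U hU => ?_
  rw [Complex.sq_norm, Complex.normSq_apply]
  ring

theorem dg_TT (hfsm : S_FSM) (htti : S_TTI) (W : Win Z Y) (hfl : Fill Y L st fl) {w : List Ver}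
    (hw : Em Y L w) : Dg 2 (Sl Y L w) (fun U => TT pt (fl w U)) := by
  have h1 := dg_S2 (pt := pt) hfsm W hfl 0 hw
  have h2 := dg_N hfsm W hfl hw
  have h3 := dg_S1 (pt := pt) hfsm W hfl 0 hw
  refine (((h2.mul h1).add (h3.smul (-1))).smul 2).congr fun U hU => ?_
  rw [htti Ver pt (fl w U) 0]
  unfold S2 S1
  ring

theorem dg_MM (hfsm : S_FSM) (W : Win Z Y) (hfl : Fill Y L st fl) {w : List Ver}
    (hw : Em Y L w) : Dg 1 (Sl Y L w) (fun U => MM X pt (fl w U)) := by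
  have h1 := (dg_S2 (pt := pt) hfsm W hfl (pt X.o) hw).add
    (dg_S2 (pt := pt) hfsm W hfl (pt (en X w)) hw)
  refine h1.congr fun U hU => ?_
  unfold MM
  rw [en_fl W hfl hw U hU]

/-- the squared distance of the ends -/
def EE (X : Geo Ver) (pt : Ver → ℂ) (w : List Ver) : ℝ := ‖pt (en X w) - pt X.o‖ ^ 2

theorem TT_le (B : Lib) (W : Win Z Y) (H : Lt X A Z.ρ pt R δ) {n : ℕ} {w : List Ver}
    (hw : w ∈ Y.K n) : TT pt w ≤ ((n : ℝ) + 1) ^ 4 := by
  rcases Nat.eq_zero_or_pos n with rfl | hn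
  · rw [K0 W hw]
    simp [TT, sm]
  · exact (TT_bd B.ttl H W hn hw).2.1

theorem MM_le (B : Lib) (W : Win Z Y) (H : Lt X A Z.ρ pt R δ) {n : ℕ} {w : List Ver}
    (hw : w ∈ Y.K n) : MM X pt w ≤ 2 * ((n : ℝ) + 1) ^ 3 := by
  rcases Nat.eq_zero_or_pos n with rfl | hn
  · rw [K0 W hw]
    simp [MM, S2, sm, en]
  · exact (MM_bd B.ttl H W hn hw).2

theorem EE_le (B : Lib) (W : Win Z Y) (H : Lt X A Z.ρ pt R δ) {n : ℕ} {w : List Ver}
    (hw : w ∈ Y.K n) : EE X pt w ≤ 1 * ((n : ℝ) + 1) ^ 2 := by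
  have hn0 : (0 : ℝ) ≤ n := Nat.cast_nonneg n
  rcases Nat.eq_zero_or_pos n with rfl | hn
  · rw [K0 W hw]
    simp [EE, en]
  · obtain ⟨-, -, h3⟩ := TT_bd B.ttl H W hn hw
    have h4 := h3 _ (en_mem W hw) _ (o_mem W hw)
    unfold EE
    rw [one_mul]
    exact pow_le_pow_left₀ (norm_nonneg _) (by linarith) 2

theorem ba_EE (B : Lib) (W : Win Z Y) (H : Lt X A Z.ρ pt R δ) : Ba Y (EE X pt) 1 2 0 where
  nonneg := zero_le_one
  size := by
    intro n w hw
    rw [abs_of_nonneg (by unfold EE; positivity)]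
    exact EE_le B W H hw
  rp := by
    intro L hL st fl hfl w hw
    refine ((Rp.const (E := Sl Y L w) (EE X pt w)).mono ?_).congr fun U hU => ?_
    · rw [abs_of_nonneg (by unfold EE; positivity)]
      exact EE_le B W H hw.1
    · unfold EE
      rw [en_fl W hfl hw U hU]
  dg := by
    intro L hL st fl hfl w hw
    refine (Dg.const (EE X pt w)).congr fun U hU => ?_
    unfold EE
    rw [en_fl W hfl hw U hU]

theorem ba_TT (B : Lib) (W : Win Z Y) (H : Lt X A Z.ρ pt R δ) :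
    ∃ C : ℝ, Ba Y (TT pt) C 4 2 := by
  obtain ⟨C, M, K⟩ := cst B.mul B.nea H
  obtain ⟨C₁, hC₁, h1⟩ := rp_TT B.fsm B.tti W K
  refine ⟨2 * C₁ + 1, by positivity, ?_, ?_, ?_⟩
  · intro n w hw
    rw [abs_of_nonneg (TT_nonneg pt w)]
    have h2 := TT_le B W H hw
    have h3 : (0 : ℝ) ≤ ((n : ℝ) + 1) ^ 4 := by positivity
    nlinarith
  · intro L hL st fl hfl w hw
    refine (h1 L st fl hfl w hw).mono ?_
    have h2 := TT_le B W H hw.1
    have h4 := ((W.K _ w).1 hw.1).1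
    have h5 : ((w.length : ℕ) : ℝ) = (Y.len w : ℝ) + 1 := by
      rw [h4]
      push_cast
      ring
    rw [h5]
    have hl : (1 : ℝ) ≤ (Y.len w : ℝ) + 1 := by
      have := Nat.cast_nonneg (α := ℝ) (Y.len w)
      linarith
    have h6 : ((Y.len w : ℝ) + 1) ^ 2 ≤ ((Y.len w : ℝ) + 1) ^ 4 :=
      pow_le_pow_right₀ hl (by norm_num)
    have h3 : (0 : ℝ) ≤ ((Y.len w : ℝ) + 1) ^ 4 := by positivity
    calc C₁ * (TT pt w + ((Y.len w : ℝ) + 1) ^ 2)
        ≤ C₁ * (2 * ((Y.len w : ℝ) + 1) ^ 4) :=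
          mul_le_mul_of_nonneg_left (by linarith) hC₁
      _ ≤ _ := by nlinarith
  · intro L hL st fl hfl w hw
    exact dg_TT B.fsm B.tti W hfl hw

theorem ba_MM (B : Lib) (W : Win Z Y) (H : Lt X A Z.ρ pt R δ) :
    ∃ C : ℝ, Ba Y (MM X pt) C 3 1 := by
  obtain ⟨C, M, K⟩ := cst B.mul B.nea H
  have hCM : 0 ≤ C * M := mul_nonneg K.C0 K.M0
  refine ⟨6 * (1 + 4 * (C * M)), by positivity, ?_, ?_, ?_⟩
  · intro n w hw
    rw [abs_of_nonneg (MM_nonneg X pt w)]
    have h2 := MM_le B W H hw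
    have h3 : (0 : ℝ) ≤ ((n : ℝ) + 1) ^ 3 := by positivity
    nlinarith [mul_nonneg hCM h3]
  · intro L hL st fl hfl w hw
    refine (rp_MM B.fsm W K hfl hw).mono ?_
    have h2 := MM_le B W H hw.1
    have h4 := ((W.K _ w).1 hw.1).1
    have h5 : ((w.length : ℕ) : ℝ) = (Y.len w : ℝ) + 1 := by
      rw [h4]
      push_cast
      ring
    rw [h5]
    have hl : (1 : ℝ) ≤ (Y.len w : ℝ) + 1 := by
      have := Nat.cast_nonneg (α := ℝ) (Y.len w)
      linarith
    have h6 : ((Y.len w : ℝ) + 1) ≤ ((Y.len w : ℝ) + 1) ^ 3 := by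
      calc ((Y.len w : ℝ) + 1) = ((Y.len w : ℝ) + 1) ^ 1 := (pow_one _).symm
        _ ≤ _ := pow_le_pow_right₀ hl (by norm_num)
    calc 2 * (1 + 4 * (C * M)) * (MM X pt w + ((Y.len w : ℝ) + 1))
        ≤ 2 * (1 + 4 * (C * M)) * (3 * ((Y.len w : ℝ) + 1) ^ 3) :=
          mul_le_mul_of_nonneg_left (by linarith) (by positivity)
      _ = _ := by ring
  · intro L hL st fl hfl w hw
    exact dg_MM B.fsm W hfl hw

/-- **The generating functions of the joint moments of the sizes.** -/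
theorem ac_sizes (B : Lib) (W : Win Z Y) (H : Lt X A Z.ρ pt R δ) {μ : ℝ} {φ : ℕ → ℝ}
    (G : Gr Y μ φ) : ∃ c : ℝ, 0 < c ∧ ∀ i j k : ℕ, ∃ f : ℂ → ℂ,
      DifferentiableOn ℂ f (Om c μ Y.s) ∧ ∀ z : ℂ, μ * ‖z‖ < 1 →
        HasSum (fun n => (aa Y (fun w => EE X pt w ^ i * TT pt w ^ j * MM X pt w ^ k) n : ℂ) *
          z ^ n) (f z) := by
  obtain ⟨c, hc, h⟩ := ac_pol Y μ φ G
  obtain ⟨C1, h1⟩ := ba_TT B W H
  obtain ⟨C2, h2⟩ := ba_MM B W H
  refine ⟨c, hc, fun i j k => ?_⟩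
  exact h _ _ _ _ ((((ba_EE B W H).pow i).mul (h1.pow j)).mul (h2.pow k)).pol

end

end Pool.Agent.Helper99.AG
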