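import Pool.Agent.Helper99.AG.Cell
import Pool.Agent.Helper99.AG.Sizes

/-!
# The area of polygons is a polynomial in the occupation numbers of the slots
-/

set_option autoImplicit false
set_option linter.unusedVariables false

namespace Pool.Agent.Helper99.AG

open Finset Filter Topology Pool.Agent.N929.EG Pool.Agent.N929.AC
open Pool.Agent.R965.HP
open scoped Classical

noncomputable section

/-- the moves of the square lattice -/
abbrev ZS : Rul X2 Sq.A := toRul Sq.rule (show 1 ≤ 2 by norm_num)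

variable {Y : TS (List (ℤ × ℤ)) (List (ℤ × ℤ) × List (ℤ × ℤ))}

theorem Ba.inv {α σ : Type} {Y : TS α σ} {f : α → ℝ} {C : ℝ} {p : ℕ} (hC : 0 ≤ C)
    (hs : ∀ n, ∀ w ∈ Y.K n, |f w| ≤ C * ((n : ℝ) + 1) ^ p)
    (hi : ∀ n, ∀ w ∈ Y.K n, ∀ q ∈ Y.S w, f (Y.ins w q) = f w) : Ba Y f C p 0 where
  nonneg := hC
  size := hs
  rp := fun L hL st fl hfl w hw => ((Rp.const (E := Sl Y L w) (f w)).mono (hs _ w hw.1)).congr
    fun U hU => fl_inv hfl hi hw U hU
  dg := fun L hL st fl hfl w hw => (Dg.const (f w)).congr fun U hU => fl_inv hfl hi hw U hU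

theorem near_chain : ∀ (t : List (ℤ × ℤ)) (x : ℤ × ℤ), (x :: t).IsChain Sq.A →
    ∀ y ∈ x :: t, |y.1 - x.1| ≤ t.length ∧ |y.2 - x.2| ≤ t.length
  | [], x, _, y, hy => by
      rw [List.mem_singleton] at hy
      subst hy
      simp
  | z :: t, x, h, y, hy => by
      rw [List.isChain_cons_cons] at h
      rw [List.mem_cons] at hy
      rcases hy with rfl | hy
      · simp only [sub_self, abs_zero]
        exact ⟨Int.natCast_nonneg _, Int.natCast_nonneg _⟩
      · obtain ⟨h1, h2⟩ := near_chain t z h.2 y hy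
        obtain ⟨h3, h4⟩ := Sq.A_step h.1
        rw [List.length_cons]
        push_cast
        rw [abs_le] at h1 h2 h3 h4 ⊢
        rw [abs_le]
        omega

theorem K_form (W : Win ZS Y) {n : ℕ} {w : List (ℤ × ℤ)} (hw : w ∈ Y.K n) :
    ∃ t, w = 0 :: t ∧ t.length = n ∧ w.IsChain Sq.A := by
  obtain ⟨h1, h2, -, h4⟩ := (W.K n w).1 hw
  cases w with
  | nil => simp at h1
  | cons x t =>
    rw [List.head?_cons, Option.some.injEq] at h2
    rw [List.length_cons] at h1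
    exact ⟨t, by rw [h2]; rfl, by omega, h4⟩

theorem K_near (W : Win ZS Y) {n : ℕ} {w : List (ℤ × ℤ)} (hw : w ∈ Y.K n) {y : ℤ × ℤ}
    (hy : y ∈ w) : |y.1| ≤ n ∧ |y.2| ≤ n := by
  obtain ⟨t, rfl, h2, h3⟩ := K_form W hw
  have h := near_chain t 0 h3 y hy
  simpa [h2] using h

/-- the last vertex -/
def lst (w : List (ℤ × ℤ)) : ℤ × ℤ := w.getLast?.getD 0

theorem lst_eq (w : List (ℤ × ℤ)) : en X2 w = lst w := rfl

theorem lst_mem (W : Win ZS Y) {n : ℕ} {w : List (ℤ × ℤ)} (hw : w ∈ Y.K n) : lst w ∈ w :=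
  en_mem W hw

theorem o_mem' (W : Win ZS Y) {n : ℕ} {w : List (ℤ × ℤ)} (hw : w ∈ Y.K n) : (0 : ℤ × ℤ) ∈ w :=
  o_mem W hw

/-- outside of a box the crossing numbers are even -/
theorem par_out (W : Win ZS Y) {n : ℕ} {w : List (ℤ × ℤ)} (hw : w ∈ Y.K n)
    (hc : Sq.A (lst w) 0) {c : ℤ × ℤ} (hp : par c w ≠ 0) : |c.1| ≤ n ∧ |c.2| ≤ n := by
  by_contra hcon
  apply hp
  have hb : ∀ y ∈ w, |y.1| ≤ n ∧ |y.2| ≤ n := fun y hy => K_near W hw hy
  obtain ⟨t, ht, h2, h3⟩ := K_form W hw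
  have hl := hb _ (lst_mem W hw)
  have h0 := hb _ (o_mem' W hw)
  have hcase : (c.1 < -(n : ℤ) ∨ (n : ℤ) ≤ c.1 ∨ (n : ℤ) ≤ c.2) ∨ c.2 < -(n : ℤ) := by
    by_contra hh
    apply hcon
    rw [abs_le, abs_le]
    omega
  have hpar : par c w = es (ab c) w + ab c (lst w) 0 := rfl
  rw [hpar]
  rcases hcase with hcase | hcase
  · have hz : ∀ x y : ℤ × ℤ, (|x.1| ≤ n ∧ |x.2| ≤ n) → (|y.1| ≤ n ∧ |y.2| ≤ n) →
        ab c x y = 0 := by
      intro x y hx hy
      rw [abs_le, abs_le] at hx hy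
      unfold ab
      refine if_neg ?_
      omega
    have e1 : es (ab c) w = 0 := by
      rw [es_congr (A := Sq.A) (g' := fun _ _ => (0 : ZMod 2)) w h3
        (fun x hx y hy _ => hz x y (hb x hx) (hb y hy)), es_zero]
    rw [e1, zero_add]
    exact hz _ _ hl h0
  · obtain ⟨φ, hφ⟩ : ∃ φ : ℤ × ℤ → ZMod 2, φ = fun x => if x.1 ≤ c.1 then 1 else 0 := ⟨_, rfl⟩
    have hz : ∀ x y : ℤ × ℤ, (|x.1| ≤ n ∧ |x.2| ≤ n) → Sq.A x y → ab c x y = φ y - φ x := by
      intro x y hx ha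
      rw [abs_le, abs_le] at hx
      rw [Sq.A_iff] at ha
      unfold ab
      rw [hφ]
      simp only
      by_cases b1 : x.1 ≤ c.1 <;> by_cases b2 : y.1 ≤ c.1
      · rw [if_neg (by omega), if_pos b1, if_pos b2]
        decide
      · rw [if_pos (by omega), if_pos b1, if_neg b2]
        decide
      · rw [if_pos (by omega), if_neg b1, if_pos b2]
        decide
      · rw [if_neg (by omega), if_neg b1, if_neg b2]
        decide
    have e1 : es (ab c) w = φ (lst w) - φ 0 := by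
      rw [es_congr (A := Sq.A) (g' := fun x y => φ y - φ x) w h3
        (fun x hx y hy ha => hz x y (hb x hx) ha)]
      rw [ht, es_tel]
      unfold lst
      rw [List.getLast?_eq_getLast_of_ne_nil (List.cons_ne_nil _ _)]
      rfl
    rw [e1, hz _ _ hl hc]
    abel

theorem z2 {x : ZMod 2} : x ≠ 0 ↔ x = 1 := by
  revert x
  decide

/-- the number of enclosed cells -/
def arl (w : List (ℤ × ℤ)) : ℕ := Nat.card {c : ℤ × ℤ // par c w = 1}

theorem arl_eq {w : List (ℤ × ℤ)} (B : Finset (ℤ × ℤ)) (hB : ∀ c, par c w = 1 → c ∈ B) :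
    (arl w : ℝ) = ∑ c ∈ B, if par c w = 1 then 1 else 0 := by
  unfold arl
  rw [Nat.subtype_card (B.filter (fun c => par c w = 1)) (fun c => by
    rw [mem_filter]
    exact ⟨fun h => h.2, fun h => ⟨hB c h, h⟩⟩), ← sum_filter, sum_const, nsmul_eq_mul, mul_one]

/-- a box -/
def bxx (n : ℕ) : Finset (ℤ × ℤ) := Icc (-(n : ℤ)) n ×ˢ Icc (-(n : ℤ)) n

theorem mem_bxx {n : ℕ} {c : ℤ × ℤ} : c ∈ bxx n ↔ |c.1| ≤ n ∧ |c.2| ≤ n := by
  unfold bxx
  rw [mem_product, mem_Icc, mem_Icc, abs_le, abs_le]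

theorem card_bxx (n : ℕ) : ((bxx n).card : ℝ) = (2 * (n : ℝ) + 1) ^ 2 := by
  unfold bxx
  rw [card_product, Int.card_Icc]
  have e : ((n : ℤ) + 1 - -(n : ℤ)).toNat = 2 * n + 1 := by omega
  rw [e]
  push_cast
  ring

theorem arl_le (W : Win ZS Y) {n : ℕ} {w : List (ℤ × ℤ)} (hw : w ∈ Y.K n)
    (hc : Sq.A (lst w) 0) : (arl w : ℝ) ≤ 4 * ((n : ℝ) + 1) ^ 2 := by
  rw [arl_eq (bxx n) (fun c h => mem_bxx.2 (par_out W hw hc (z2.2 h)))]
  have h1 : ∑ c ∈ bxx n, (if par c w = 1 then (1 : ℝ) else 0) ≤ ∑ c ∈ bxx n, (1 : ℝ) :=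
    sum_le_sum fun c _ => by split_ifs <;> norm_num
  rw [sum_const, nsmul_eq_mul, mul_one, card_bxx] at h1
  have hn : (0 : ℝ) ≤ n := Nat.cast_nonneg n
  nlinarith

variable {L : Finset (List (ℤ × ℤ) × List (ℤ × ℤ))} {st : List (ℤ × ℤ) → List (ℤ × ℤ)}
  {fl : List (ℤ × ℤ) → Finset (List (ℤ × ℤ) × List (ℤ × ℤ)) → List (ℤ × ℤ)}

/-- the slots of an object without occupied slots are free moves -/
theorem Sl_S (W : Win ZS Y) {w : List (ℤ × ℤ)} (hw : Em Y L w) {q : List (ℤ × ℤ) × List (ℤ × ℤ)}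
    (hq : q ∈ Sl Y L w) : Sq.T q.1 q.2 ∧ Free q.1 q.2 w := by
  rw [mem_Sl] at hq
  rcases hq.2 with h | h
  · exact (W.S w q).1 h
  · exfalso
    have h1 : q ∈ Oc Y L w := mem_Oc.2 ⟨hq.1, h⟩
    rw [hw.2] at h1
    exact absurd h1 (notMem_empty q)

/-- the sign of a slot -/
def sgn (w : List (ℤ × ℤ)) (q : List (ℤ × ℤ) × List (ℤ × ℤ)) : ℝ :=
  1 - 2 * (if par (cell q) w = 1 then 1 else 0)

theorem sgn_abs (w : List (ℤ × ℤ)) (q : List (ℤ × ℤ) × List (ℤ × ℤ)) : |sgn w q| = 1 := by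
  unfold sgn
  split_ifs <;> norm_num

/-- **The area is additive in the slots.** -/
theorem arl_fl (W : Win ZS Y) (hfl : Fill Y L st fl) {w : List (ℤ × ℤ)} (hw : Em Y L w)
    (hc : Sq.A (lst w) 0) {U : Finset (List (ℤ × ℤ) × List (ℤ × ℤ))} (hU : U ⊆ Sl Y L w) :
    (arl (fl w U) : ℝ) = arl w + ∑ q ∈ U, sgn w q := by
  have hn := nodup_K W hw.1
  have hinj : ∀ q ∈ U, ∀ q' ∈ U, cell q = cell q' → q = q' := fun q hq q' hq' he =>
    cell_inj hn (Sl_S W hw (hU hq)).1 (Sl_S W hw (hU hq')).1 (Sl_S W hw (hU hq)).2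
      (Sl_S W hw (hU hq')).2 he
  have hlst : lst (fl w U) = lst w := en_fl W hfl hw U hU
  have hpar : ∀ c, par c (fl w U) = par c w + if c ∈ U.image cell then 1 else 0 := by
    intro c
    have h1 := es_fl W hfl (ab c) hw hU
    have e1 : par c (fl w U) = es (ab c) (fl w U) + ab c (lst (fl w U)) 0 := rfl
    have e2 : par c w = es (ab c) w + ab c (lst w) 0 := rfl
    have e3 : ∑ q ∈ U, (es (ab c) q.2 - es (ab c) q.1) = if c ∈ U.image cell then 1 else 0 := by
      rw [sum_congr rfl fun q hq => D_cell (Sl_S W hw (hU hq)).1 c]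
      by_cases hcU : c ∈ U.image cell
      · rw [if_pos hcU]
        obtain ⟨q0, hq0, rfl⟩ := mem_image.1 hcU
        rw [sum_eq_single_of_mem q0 hq0 fun q hq hne =>
          if_neg fun he => hne (hinj q hq q0 hq0 he.symm), if_pos rfl]
      · rw [if_neg hcU]
        refine sum_eq_zero fun q hq => if_neg fun he => hcU ?_
        rw [he]
        exact mem_image_of_mem _ hq
    rw [e1, e2, h1, hlst, e3]
    abel
  have hK := hfl.fl_K w U hw hU
  obtain ⟨B, hB⟩ : ∃ B : Finset (ℤ × ℤ), B = (bxx (Y.len w) ∪ bxx (Y.len w + Y.s * U.card)) ∪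
    U.image cell := ⟨_, rfl⟩
  have hc' : Sq.A (lst (fl w U)) 0 := by rw [hlst]; exact hc
  have hB1 : ∀ c, par c w = 1 → c ∈ B := fun c h => by
    rw [hB]
    exact mem_union_left _ (mem_union_left _ (mem_bxx.2 (par_out W hw.1 hc (z2.2 h))))
  have hB2 : ∀ c, par c (fl w U) = 1 → c ∈ B := fun c h => by
    rw [hB]
    exact mem_union_left _ (mem_union_right _ (mem_bxx.2 (par_out W hK hc' (z2.2 h))))
  rw [arl_eq B hB1, arl_eq B hB2]
  have h2 : ∀ c ∈ B, (if par c (fl w U) = 1 then (1 : ℝ) else 0) =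
      (if par c w = 1 then 1 else 0) +
        if c ∈ U.image cell then (1 - 2 * (if par c w = 1 then 1 else 0)) else 0 := by
    intro c _
    rw [hpar c]
    have hx : par c w = 0 ∨ par c w = 1 := by
      by_cases h : par c w = 0
      · exact Or.inl h
      · exact Or.inr (z2.1 h)
    have d1 : (0 : ZMod 2) ≠ 1 := by decide
    have d2 : (1 : ZMod 2) + 1 = 0 := by decide
    by_cases hcU : c ∈ U.image cell
    · rw [if_pos hcU, if_pos hcU]
      rcases hx with h | h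
      · rw [h, zero_add, if_pos rfl, if_neg d1]
        norm_num
      · rw [h, d2, if_neg d1, if_pos rfl]
        norm_num
    · rw [if_neg hcU, if_neg hcU, add_zero, add_zero]
  rw [sum_congr rfl h2, sum_add_distrib]
  congr 1
  rw [← sum_filter]
  have h3 : B.filter (fun c => c ∈ U.image cell) = U.image cell := by
    ext c
    rw [mem_filter]
    refine ⟨fun h => h.2, fun h => ⟨?_, h⟩⟩
    rw [hB]
    exact mem_union_right _ h
  rw [h3, sum_image fun q hq q' hq' he => hinj q hq q' hq' he]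
  rfl

/-- the indicator function of the closed walks -/
def gcl (w : List (ℤ × ℤ)) : ℝ := if Sq.A (lst w) 0 then 1 else 0

theorem ba_gcl (W : Win ZS Y) : Ba Y gcl 1 0 0 := by
  refine Ba.inv zero_le_one (fun n w hw => ?_) (fun n w hw q hq => ?_)
  · unfold gcl
    split_ifs <;> simp
  · have h : lst (Y.ins w q) = lst w := en_inv W n w hw q hq
    unfold gcl
    rw [h]

variable {pt : ℤ × ℤ → ℂ} {R δ : ℝ}

theorem ba_area (B : Lib) (W : Win ZS Y) (H : Lt X2 Sq.A ZS.ρ pt R δ) :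
    ∃ C : ℝ, Ba Y (fun w => gcl w * arl w) C 2 1 := by
  obtain ⟨C, M, K⟩ := cst B.mul B.nea H
  have hM := K.M0
  have hfl0 : ∀ L, Fam Y L → ∀ st fl, Fill Y L st fl → ∀ w, Em Y L w → ∀ U ⊆ Sl Y L w,
      gcl (fl w U) * (arl (fl w U) : ℝ) =
        if Sq.A (lst w) 0 then (arl w : ℝ) + ∑ q ∈ U, sgn w q else 0 := by
    intro L hL st fl hfl w hw U hU
    have hlst : lst (fl w U) = lst w := en_fl W hfl hw U hU
    unfold gcl
    rw [hlst]
    by_cases hc : Sq.A (lst w) 0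
    · rw [if_pos hc, if_pos hc, one_mul, arl_fl W hfl hw hc hU]
    · rw [if_neg hc, if_neg hc, zero_mul]
  refine ⟨4 + 2 * M, by positivity, ?_, ?_, ?_⟩
  · intro n w hw
    unfold gcl
    have h0 : (0 : ℝ) ≤ ((n : ℝ) + 1) ^ 2 := by positivity
    split_ifs with hc
    · rw [one_mul, abs_of_nonneg (Nat.cast_nonneg _)]
      have := arl_le W hw hc
      nlinarith
    · rw [zero_mul, abs_zero]
      positivity
  · intro L hL st fl hfl w hw
    by_cases hc : Sq.A (lst w) 0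
    · have h1 := (Rp.const (E := Sl Y L w) (arl w : ℝ)).add (Rp.lin (E := Sl Y L w) (sgn w))
      refine (h1.mono ?_).congr fun U hU => ?_
      · rw [abs_of_nonneg (Nat.cast_nonneg _), sum_congr rfl fun q _ => sgn_abs w q, sum_const,
          nsmul_eq_mul, mul_one]
        have h2 := arl_le W hw.1 hc
        have h3 := card_le K (nodup_K W hw.1) (Q := Sl Y L w) (fun q hq => hd_Sl W hq)
        have h4 := ((W.K _ w).1 hw.1).1
        have h5 : ((w.length : ℕ) : ℝ) = (Y.len w : ℝ) + 1 := by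
          rw [h4]
          push_cast
          ring
        rw [h5] at h3
        have hl : (1 : ℝ) ≤ (Y.len w : ℝ) + 1 := by
          have := Nat.cast_nonneg (α := ℝ) (Y.len w)
          linarith
        have h6 : ((Y.len w : ℝ) + 1) ≤ ((Y.len w : ℝ) + 1) ^ 2 := by nlinarith
        have h7 := mul_le_mul_of_nonneg_left h6 hM
        nlinarith
      · rw [hfl0 L hL st fl hfl w hw U hU, if_pos hc]
    · have h1 := Rp.const (E := Sl Y L w) 0
      refine (h1.mono (by rw [abs_zero]; positivity)).congr fun U hU => ?_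
      rw [hfl0 L hL st fl hfl w hw U hU, if_neg hc]
  · intro L hL st fl hfl w hw
    by_cases hc : Sq.A (lst w) 0
    · refine (Dg.aff (arl w : ℝ) (sgn w)).congr fun U hU => ?_
      rw [hfl0 L hL st fl hfl w hw U hU, if_pos hc]
    · refine (((Dg.const (0 : ℝ)).mono (Nat.zero_le 1))).congr fun U hU => ?_
      rw [hfl0 L hL st fl hfl w hw U hU, if_neg hc]

/-- **The generating functions of the moments of the area.** -/
theorem ac_area (B : Lib) (W : Win ZS Y) (H : Lt X2 Sq.A ZS.ρ pt R δ) {μ : ℝ} {φ : ℕ → ℝ}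
    (G : Gr Y μ φ) : ∃ c : ℝ, 0 < c ∧ ∀ k : ℕ, ∃ f : ℂ → ℂ,
      DifferentiableOn ℂ f (Om c μ Y.s) ∧ ∀ z : ℂ, μ * ‖z‖ < 1 →
        HasSum (fun n => (aa Y (fun w => gcl w * (gcl w * arl w) ^ k) n : ℂ) * z ^ n) (f z) := by
  obtain ⟨c, hc, h⟩ := ac_pol Y μ φ G
  obtain ⟨C, h1⟩ := ba_area B W H
  exact ⟨c, hc, fun k => h _ _ _ _ (((ba_gcl W).mul (h1.pow k))).pol⟩

end

end Pool.Agent.Helper99.AG
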