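import Pool.Agent.Helper99.AG.GenG
import Pool.Agent.Helper99.AG.Asm

/-!
# The assembly of the analytic continuation, with a bound
-/

set_option autoImplicit false
set_option linter.unusedVariables false

namespace Pool.Agent.Helper99.AG

open Finset Filter Topology Pool.Agent.N929.EG Pool.Agent.N929.AC
open Pool.Agent.N738.AC (sum_pp avg_le consts grw)
open scoped Classical

noncomputable section

variable {α σ : Type}

/-- `F` is bounded by `g` and is a polynomial of degree at most `r` in the occupation numbers of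
all families of slots without conflicts, with coefficients bounded by `g` -/
structure PolG (Y : TS α σ) (F : α → ℝ) (g : ℕ → ℝ) (r : ℕ) : Prop where
  nonneg : ∀ n, 0 ≤ g n
  mono : Monotone g
  size : ∀ n, ∀ w ∈ Y.K n, |F w| ≤ g n
  rep : ∀ L, Fam Y L → ∀ st fl, Fill Y L st fl → ∀ w, Em Y L w →
    Rr r (Sl Y L w) (fun U => F (fl w U)) (g (Y.len w))

/-- the average over the families -/
theorem ex_PG (Y : TS α σ) (μ c₀ θ C : ℝ) (g : ℕ → ℝ) (r : ℕ)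
    (hc₀ : 0 < c₀) (hθ : 0 < θ) (hμ : 1 ≤ μ) (hC : 0 < C) (θ₂ : ℝ)
    (h20 : 0 ≤ θ₂) (hsum : Summable (fun m : ℕ => C * (g m * θ₂ ^ m)))
    (F : α → ℝ) (hF : PolG Y F g r) (N : ℕ)
    (ι : Type) [Fintype ι] [Nonempty ι] (Λ : ι → Finset σ) (hFam : ∀ i, Fam Y (Λ i))
    (hfew : ∀ m ≤ N, ∑ i, (((Y.K m).filter
      (fun w => ((Sl Y (Λ i) w).card : ℝ) < c₀ * m)).card : ℝ) ≤
        C * (θ * μ) ^ m * Fintype.card ι) :
    ∃ P : ℂ → ℂ, Differentiable ℂ P ∧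
      (∀ (z : ℂ) (x : ℝ), 0 ≤ x → Summable (fun n => aa Y (WG Y g) n * x ^ n) → ‖z‖ ≤ x →
        ‖P z‖ ≤ ∑' n, aa Y (WG Y g) n * x ^ n) ∧
      (∀ (z : ℂ) (x δ : ℝ), 0 ≤ x → Summable (fun n => aa Y (WG Y g) n * x ^ n) → 0 ≤ δ →
        ‖z‖ ≤ x * Real.exp (c₀ * δ) → ‖1 + z ^ Y.s‖ ≤ (1 + x ^ Y.s) * Real.exp (-δ) →
        θ * μ * (‖z‖ * (1 + ‖z‖ ^ Y.s) ^ c₀) ≤ θ₂ →
        ‖P z‖ ≤ Real.exp (δ * r) * (∑' n, aa Y (WG Y g) n * x ^ n) +
          ∑' m : ℕ, C * (g m * θ₂ ^ m)) ∧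
      (∀ z : ℂ, Summable (fun n => aa Y (WG Y g) n * ‖z‖ ^ n) →
        ‖P z - ∑ n ∈ range (N + 1), (aa Y F n : ℂ) * z ^ n‖ ≤
          ∑' n, aa Y (WG Y g) (n + (N + 1)) * ‖z‖ ^ (n + (N + 1))) := by
  have hg := hF.nonneg
  have hcard : (0 : ℝ) < Fintype.card ι := by exact_mod_cast Fintype.card_pos
  have hcardC : (Fintype.card ι : ℂ) ≠ 0 := by exact_mod_cast hcard.ne'
  have hex : ∀ i, ∃ (st : α → α) (fl : α → Finset σ → α), Fill Y (Λ i) st fl := fun i =>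
    Pool.Agent.N607.EG.bij α σ Y (Λ i) (hFam i)
  choose st fl hfill using hex
  refine ⟨fun z => (Fintype.card ι : ℂ)⁻¹ * ∑ i, PP Y (Λ i) (fl i) F N z, ?_, ?_, ?_, ?_⟩
  · unfold PP
    fun_prop
  · intro z x hx hs hz
    refine (avg_le _ (fun _ => ∑' n, aa Y (WG Y g) n * x ^ n) fun i =>
      bnd1G (hfill i) hg hF.size N z x hx hs hz).trans (le_of_eq ?_)
    rw [Finset.sum_const, Finset.card_univ, nsmul_eq_mul, ← mul_assoc, inv_mul_cancel₀ hcard.ne',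
      one_mul]
  · intro z x δ hx hs hδ h1 h2 h3
    set y : ℝ := ‖z‖ * (1 + ‖z‖ ^ Y.s) ^ c₀ with hy
    have hy0 : 0 ≤ y := by positivity
    set T : ℝ := Real.exp (δ * r) * ∑' n, aa Y (WG Y g) n * x ^ n with hT
    refine (avg_le _ (fun i => T + ∑ m ∈ range (N + 1), ∑ w ∈ (Y.K m).filter
      (fun w => ((Sl Y (Λ i) w).card : ℝ) < c₀ * m), WG Y g w * y ^ m) fun i =>
      bnd2G (hfill i) hg hF.mono (hF.rep (Λ i) (hFam i) (st i) (fl i) (hfill i)) N z x hx hs c₀ δ hc₀ hδ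
        h1 h2).trans ?_
    rw [Finset.sum_add_distrib, Finset.sum_const, Finset.card_univ, nsmul_eq_mul, mul_add,
      ← mul_assoc, inv_mul_cancel₀ hcard.ne', one_mul]
    refine add_le_add le_rfl ?_
    rw [inv_mul_le_iff₀ hcard, Finset.sum_comm]
    have h4 : ∑ m ∈ range (N + 1), C * (g m * θ₂ ^ m)
        ≤ ∑' m : ℕ, C * (g m * θ₂ ^ m) :=
      hsum.sum_le_tsum _ fun m _ => mul_nonneg hC.le (mul_nonneg (hg m) (pow_nonneg h20 m))
    refine le_trans ?_ (mul_le_mul_of_nonneg_left h4 hcard.le)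
    rw [Finset.mul_sum]
    refine Finset.sum_le_sum fun m hm => ?_
    have hmN : m ≤ N := by
      have := Finset.mem_range.1 hm
      omega
    calc ∑ i, ∑ w ∈ (Y.K m).filter (fun w => ((Sl Y (Λ i) w).card : ℝ) < c₀ * m),
          WG Y g w * y ^ m
        ≤ ∑ i, (((Y.K m).filter (fun w => ((Sl Y (Λ i) w).card : ℝ) < c₀ * m)).card : ℝ) *
            (g m * y ^ m) := by
          refine Finset.sum_le_sum fun i _ => ?_
          have h5 := Finset.sum_le_card_nsmul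
            ((Y.K m).filter (fun w => ((Sl Y (Λ i) w).card : ℝ) < c₀ * m))
            (fun w => WG Y g w * y ^ m) (g m * y ^ m) (fun w hw => by
              unfold WG
              rw [Y.len_K m w (Finset.mem_filter.1 hw).1])
          rwa [nsmul_eq_mul] at h5
      _ = (∑ i, (((Y.K m).filter (fun w => ((Sl Y (Λ i) w).card : ℝ) < c₀ * m)).card : ℝ)) *
            (g m * y ^ m) := by rw [Finset.sum_mul]
      _ ≤ (C * (θ * μ) ^ m * Fintype.card ι) * (g m * y ^ m) :=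
          mul_le_mul_of_nonneg_right (hfew m hmN) (mul_nonneg (hg m) (by positivity))
      _ = Fintype.card ι * (C * (g m * (θ * μ * y) ^ m)) := by
          rw [mul_pow (θ * μ) y m]
          ring
      _ ≤ Fintype.card ι * (C * (g m * θ₂ ^ m)) := by
          refine mul_le_mul_of_nonneg_left (mul_le_mul_of_nonneg_left
            (mul_le_mul_of_nonneg_left (pow_le_pow_left₀ (by positivity) h3 m) (hg m))
            hC.le) hcard.le
  · intro z hs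
    have h1 : (Fintype.card ι : ℂ)⁻¹ * ∑ i, PP Y (Λ i) (fl i) F N z -
        ∑ n ∈ range (N + 1), (aa Y F n : ℂ) * z ^ n =
        (Fintype.card ι : ℂ)⁻¹ * ∑ i, (PP Y (Λ i) (fl i) F N z -
          ∑ n ∈ range (N + 1), (aa Y F n : ℂ) * z ^ n) := by
      rw [Finset.sum_sub_distrib, Finset.sum_const, Finset.card_univ, nsmul_eq_mul, mul_sub,
        ← mul_assoc _ (Fintype.card ι : ℂ), inv_mul_cancel₀ hcardC, one_mul]
    simp only []
    rw [h1]
    refine (avg_le _ (fun _ => ∑' n, aa Y (WG Y g) (n + (N + 1)) * ‖z‖ ^ (n + (N + 1)))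
      fun i => cnv1G (hfill i) hg hF.size N z hs).trans (le_of_eq ?_)
    rw [Finset.sum_const, Finset.card_univ, nsmul_eq_mul, ← mul_assoc, inv_mul_cancel₀ hcard.ne',
      one_mul]

/-- **Analytic continuation for polynomial functionals, with a bound.** -/
theorem ac_polG (Y : TS α σ) (μ : ℝ) (φ : ℕ → ℝ) (hG : Gr Y μ φ) :
    ∃ c k C θ₂ : ℝ, 0 < c ∧ c ≤ 1 / 4 ∧ 0 < C ∧ 0 ≤ θ₂ ∧ θ₂ < 1 ∧
      ∀ (F : α → ℝ) (g : ℕ → ℝ) (r : ℕ) (C₀ : ℝ) (p : ℕ), 0 ≤ C₀ →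
      (∀ n, g n ≤ C₀ * ((n : ℝ) + 1) ^ p) → PolG Y F g r →
      ∃ f : ℂ → ℂ, DifferentiableOn ℂ f (Om c μ Y.s) ∧
        (∀ z : ℂ, μ * ‖z‖ < 1 → HasSum (fun n => (aa Y F n : ℂ) * z ^ n) (f z)) ∧
        ∀ z ∈ Om c μ Y.s, cs Y.s z < 1 →
          0 < xx c μ Y.s z ∧
          Summable (fun n => aa Y (WG Y g) n * xx c μ Y.s z ^ n) ∧
          Summable (fun m : ℕ => C * (g m * θ₂ ^ m)) ∧
          ‖f z‖ ≤ Real.exp (2 * k * r) * (∑' n, aa Y (WG Y g) n * xx c μ Y.s z ^ n) +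
            ∑' m : ℕ, C * (g m * θ₂ ^ m) := by
  have hvit : S_VIT := Pool.Agent.N45.AC.vit
  have homg : S_OMG := Pool.Agent.N189.AC.omg
  have hfew : S_FEW := Pool.Agent.N700.AC.few Pool.Agent.N547.EG.Sel.sel
  have hang : S_ANG := Pool.Agent.N288.AC.ang
  have hμ := hG.one
  have hμ0 : 0 < μ := by linarith
  obtain ⟨c₀, θ, C, hc₀, hθ, hθ1, hC, hfewN⟩ := hfew α σ Y μ φ hG
  obtain ⟨c₀', c₂, θ₂, hc₀', hcc, hc₂, h20, h21, hθ₂⟩ := consts θ c₀ Y.s hθ hθ1 hc₀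
  obtain ⟨k, hk, c₁, hc₁, hangc⟩ := hang μ c₀' Y.s hμ hc₀' Y.hs
  set c : ℝ := min (min c₁ (1 / 4)) c₂ with hcdef
  have hc : 0 < c := lt_min (lt_min hc₁ (by norm_num)) hc₂
  have hcc1 : c ≤ c₁ := (min_le_left _ _).trans (min_le_left _ _)
  have hc4 : c ≤ 1 / 4 := (min_le_left _ _).trans (min_le_right _ _)
  have hcc2 : c ≤ c₂ := min_le_right _ _
  obtain ⟨hO1, hO2, hO3, hcs, hcsc⟩ := homg c μ Y.s hc hμ Y.hs
  refine ⟨c, k, C, θ₂, hc, hc4, hC, h20, h21, fun F g r C₀ p hC₀ hgp hF => ?_⟩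
  have hg := hF.nonneg
  have hsum2 : Summable (fun m : ℕ => C * (g m * θ₂ ^ m)) := by
    refine Summable.of_nonneg_of_le (fun m => mul_nonneg hC.le (mul_nonneg (hg m)
      (pow_nonneg h20 m))) (fun m => ?_) ((sum_pp p θ₂ h20 h21).mul_left (C * C₀))
    have h1 := mul_le_mul_of_nonneg_right (hgp m) (pow_nonneg h20 m)
    have h2 := mul_le_mul_of_nonneg_left h1 hC.le
    refine h2.trans (le_of_eq ?_)
    ring
  set D : ℝ := ∑' m : ℕ, C * (g m * θ₂ ^ m) with hD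
  have hD0 : 0 ≤ D := tsum_nonneg fun m => mul_nonneg hC.le (mul_nonneg (hg m) (pow_nonneg h20 m))
  obtain ⟨G, hGdef⟩ : ∃ G : α → ℝ, G = WG Y g := ⟨_, rfl⟩
  have hG0 : ∀ n, ∀ w ∈ Y.K n, 0 ≤ G w := fun n w hw => by
    rw [hGdef]
    exact WG_nonneg Y hg w
  have hGs : ∀ n, ∀ w ∈ Y.K n, 0 ≤ G w ∧ G w ≤ C₀ * ((n : ℝ) + 1) ^ p := fun n w hw => by
    refine ⟨hG0 n w hw, ?_⟩
    rw [hGdef]
    unfold WG
    rw [Y.len_K n w hw]
    exact hgp n
  have haa : ∀ n, 0 ≤ aa Y G n := fun n => Finset.sum_nonneg (hG0 n)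
  have hS : ∀ x : ℝ, 0 ≤ x → μ * x < 1 → Summable (fun n => aa Y G n * x ^ n) :=
    grw α σ Y μ φ hG G C₀ p hC₀ hGs
  set Q : ℝ := Real.exp (2 * k * r) with hQ
  have hQ1 : 1 ≤ Q := Real.one_le_exp (by positivity)
  -- the polynomials
  have hexP : ∀ N : ℕ, ∃ P : ℂ → ℂ, Differentiable ℂ P ∧
      (∀ (z : ℂ) (x : ℝ), 0 ≤ x → Summable (fun n => aa Y G n * x ^ n) → ‖z‖ ≤ x →
        ‖P z‖ ≤ ∑' n, aa Y G n * x ^ n) ∧
      (∀ (z : ℂ) (x δ : ℝ), 0 ≤ x → Summable (fun n => aa Y G n * x ^ n) → 0 ≤ δ →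
        ‖z‖ ≤ x * Real.exp (c₀' * δ) → ‖1 + z ^ Y.s‖ ≤ (1 + x ^ Y.s) * Real.exp (-δ) →
        θ * μ * (‖z‖ * (1 + ‖z‖ ^ Y.s) ^ c₀') ≤ θ₂ →
        ‖P z‖ ≤ Real.exp (δ * r) * (∑' n, aa Y G n * x ^ n) + D) ∧
      (∀ z : ℂ, Summable (fun n => aa Y G n * ‖z‖ ^ n) →
        ‖P z - ∑ n ∈ range (N + 1), (aa Y F n : ℂ) * z ^ n‖ ≤
          ∑' n, aa Y G (n + (N + 1)) * ‖z‖ ^ (n + (N + 1))) := by
    intro N
    obtain ⟨ι, i1, i2, Λ, hFam, hL⟩ := hfewN N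
    rw [hGdef]
    refine ex_PG Y μ c₀' θ C g r hc₀' hθ hμ hC θ₂ h20 hsum2 F hF N ι Λ hFam
      fun m hm => ?_
    refine le_trans (Finset.sum_le_sum fun i _ => ?_) (hL m hm)
    have h1 : (Y.K m).filter (fun w => ((Sl Y (Λ i) w).card : ℝ) < c₀' * m) ⊆
        (Y.K m).filter (fun w => ((Sl Y (Λ i) w).card : ℝ) < c₀ * m) := by
      intro w hw
      rw [Finset.mem_filter] at hw ⊢
      refine ⟨hw.1, hw.2.trans_le ?_⟩
      exact mul_le_mul_of_nonneg_right hcc (Nat.cast_nonneg m)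
    exact_mod_cast Finset.card_le_card h1
  choose P hP1 hP2 hP3 hP4 using hexP
  -- the size of the points of the domain
  have hsize : ∀ z ∈ Om c μ Y.s, θ * μ * (‖z‖ * (1 + ‖z‖ ^ Y.s) ^ c₀') ≤ θ₂ := by
    intro z hz
    have h1 : μ * ‖z‖ < 1 + c * (1 - cs Y.s z) := hz
    have h2 := abs_le.1 (hcs z)
    have h3 : μ * ‖z‖ ≤ 1 + 2 * c := by nlinarith [h2.1]
    have h4 : ‖z‖ ≤ 2 := by
      have h5 : ‖z‖ ≤ μ * ‖z‖ := by nlinarith [norm_nonneg z]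
      linarith
    have h5 : (1 + ‖z‖ ^ Y.s) ^ c₀' ≤ (1 + 2 ^ Y.s : ℝ) ^ c₀' := by
      refine Real.rpow_le_rpow (by positivity) ?_ hc₀'.le
      have := pow_le_pow_left₀ (norm_nonneg z) h4 Y.s
      linarith
    calc θ * μ * (‖z‖ * (1 + ‖z‖ ^ Y.s) ^ c₀') = θ * ((μ * ‖z‖) * (1 + ‖z‖ ^ Y.s) ^ c₀') := by
          ring
      _ ≤ θ * ((1 + 2 * c) * (1 + 2 ^ Y.s) ^ c₀') := by
          refine mul_le_mul_of_nonneg_left (mul_le_mul h3 h5 (by positivity) (by positivity)) hθ.le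
      _ ≤ θ₂ := hθ₂ c hc hcc2
  have hxx : ∀ z : ℂ, μ * xx c μ Y.s z = 1 - c * (1 - cs Y.s z) := by
    intro z
    unfold xx
    field_simp
  have hxs : ∀ z ∈ Om c μ Y.s, cs Y.s z < 1 → Summable (fun n => aa Y G n * xx c μ Y.s z ^ n) := by
    intro z hz hz1
    refine hS _ (hangc c hc hcc1 z hz).1.le ?_
    rw [hxx]
    nlinarith
  -- the bound
  have hB : ∀ N, ∀ z ∈ Om c μ Y.s, cs Y.s z < 1 →
      ‖P N z‖ ≤ Q * (∑' n, aa Y G n * xx c μ Y.s z ^ n) + D := by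
    intro N z hz hz1
    obtain ⟨hx0, hx1⟩ := hangc c hc hcc1 z hz
    have hs := hxs z hz hz1
    have hT : 0 ≤ ∑' n, aa Y G n * xx c μ Y.s z ^ n :=
      tsum_nonneg fun n => mul_nonneg (haa n) (pow_nonneg hx0.le n)
    rcases le_or_gt ‖z‖ (xx c μ Y.s z) with h | h
    · have := hP2 N z _ hx0.le hs h
      nlinarith
    · obtain ⟨h1, h2⟩ := hx1 h
      have h3 := hP3 N z _ (k * (1 - cs Y.s z)) hx0.le hs
        (mul_nonneg hk.le (by linarith)) h1 h2 (hsize z hz)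
      refine h3.trans (add_le_add ?_ le_rfl)
      refine mul_le_mul_of_nonneg_right (Real.exp_le_exp.2 ?_) hT
      have h4 := (abs_le.1 (hcs z)).1
      have h5 : k * (1 - cs Y.s z) ≤ 2 * k := by nlinarith
      exact mul_le_mul_of_nonneg_right h5 (Nat.cast_nonneg r)
  -- local boundedness
  have hloc : ∀ z ∈ Om c μ Y.s, ∃ r B : ℝ, 0 < r ∧
      ∀ N, ∀ z' ∈ Metric.ball z r ∩ Om c μ Y.s, ‖P N z'‖ ≤ B := by
    intro z hz
    rcases lt_or_ge (μ * ‖z‖) 1 with h | h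
    · have h1 : ‖z‖ < 1 / μ := by
        rw [lt_div_iff₀ hμ0, mul_comm]
        exact h
      obtain ⟨x, hx1, hx2⟩ := exists_between h1
      have hx0 : 0 ≤ x := (norm_nonneg z).trans hx1.le
      have hx3 : μ * x < 1 := by
        rw [lt_div_iff₀ hμ0, mul_comm] at hx2
        exact hx2
      refine ⟨x - ‖z‖, ∑' n, aa Y G n * x ^ n, by linarith, fun N z' hz' => ?_⟩
      refine hP2 N z' x hx0 (hS x hx0 hx3) ?_
      have h2 : dist z' z < x - ‖z‖ := hz'.1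
      rw [dist_eq_norm] at h2
      have h3 : ‖z'‖ ≤ ‖z' - z‖ + ‖z‖ := by
        have := norm_add_le (z' - z) z
        rwa [sub_add_cancel] at this
      linarith
    · have hz0 : z ≠ 0 := by
        rintro rfl
        simp at h
        linarith
      have hz1 : cs Y.s z < 1 := by
        have h1 : μ * ‖z‖ < 1 + c * (1 - cs Y.s z) := hz
        by_contra h2
        push Not at h2
        nlinarith
      set q : ℝ := (1 + cs Y.s z) / 2 with hq
      have hq1 : cs Y.s z < q := by rw [hq]; linarith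
      have hq2 : q < 1 := by rw [hq]; linarith
      have h1 : ∀ᶠ z' in 𝓝 z, cs Y.s z' < q := (hcsc z hz0).eventually_lt_const hq1
      obtain ⟨r', hr, hr1⟩ := Metric.eventually_nhds_iff.1 h1
      have hcz := abs_le.1 (hcs z)
      have hX0 : 0 ≤ (1 - c * (1 - q)) / μ := by
        refine div_nonneg ?_ hμ0.le
        have : c * (1 - q) ≤ 1 / 4 * 1 :=
          mul_le_mul hc4 (by rw [hq]; linarith [hcz.1]) (by linarith) (by norm_num)
        linarith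
      have hX1 : μ * ((1 - c * (1 - q)) / μ) < 1 := by
        rw [mul_div_cancel₀ _ hμ0.ne']
        nlinarith
      refine ⟨r', Q * (∑' n, aa Y G n * ((1 - c * (1 - q)) / μ) ^ n) + D, hr,
        fun N z' hz' => ?_⟩
      have hz'q : cs Y.s z' < q := hr1 hz'.1
      have h2 := hB N z' hz'.2 (hz'q.trans hq2)
      refine h2.trans (add_le_add (mul_le_mul_of_nonneg_left ?_ (by linarith)) le_rfl)
      refine (hxs z' hz'.2 (hz'q.trans hq2)).tsum_le_tsum (fun n => ?_) (hS _ hX0 hX1)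
      refine mul_le_mul_of_nonneg_left ?_ (haa n)
      refine pow_le_pow_left₀ (hangc c hc hcc1 z' hz'.2).1.le ?_ n
      unfold xx
      refine div_le_div_of_nonneg_right ?_ hμ0.le
      nlinarith
  -- convergence in the disc
  have hDsum : ∀ z : ℂ, μ * ‖z‖ < 1 →
      Summable (fun n => (aa Y F n : ℂ) * z ^ n) := by
    intro z hz
    refine Summable.of_norm_bounded (hS ‖z‖ (norm_nonneg z) hz) fun n => ?_
    rw [norm_mul, norm_pow, Complex.norm_real, Real.norm_eq_abs]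
    refine mul_le_mul_of_nonneg_right ?_ (by positivity)
    unfold aa
    refine (abs_sum_le_sum_abs _ _).trans (sum_le_sum fun w hw => ?_)
    rw [hGdef]
    unfold WG
    rw [Y.len_K n w hw]
    exact hF.size n w hw
  have hDlim : ∀ z : ℂ, μ * ‖z‖ < 1 →
      Tendsto (fun N => P N z) atTop (𝓝 (∑' n, (aa Y F n : ℂ) * z ^ n)) := by
    intro z hz
    have h1 := hS ‖z‖ (norm_nonneg z) hz
    have h2 : Tendsto (fun N : ℕ => ∑' n, aa Y G (n + (N + 1)) * ‖z‖ ^ (n + (N + 1)))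
        atTop (𝓝 0) :=
      (tendsto_sum_nat_add (fun n => aa Y G n * ‖z‖ ^ n)).comp (tendsto_add_atTop_nat 1)
    have h3 : Tendsto (fun N : ℕ => ∑ n ∈ range (N + 1), (aa Y F n : ℂ) * z ^ n) atTop
        (𝓝 (∑' n, (aa Y F n : ℂ) * z ^ n)) :=
      (hDsum z hz).hasSum.tendsto_sum_nat.comp (tendsto_add_atTop_nat 1)
    have h4 : Tendsto (fun N : ℕ => P N z - ∑ n ∈ range (N + 1), (aa Y F n : ℂ) * z ^ n) atTop
        (𝓝 0) :=
      squeeze_zero_norm (fun N => hP4 N z h1) h2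
    have h5 := h4.add h3
    simp only [sub_add_cancel, zero_add] at h5
    exact h5
  have hDopen : IsOpen {z : ℂ | μ * ‖z‖ < 1} := isOpen_lt (by fun_prop) continuous_const
  obtain ⟨f, hf1, hf2⟩ := hvit (Om c μ Y.s) {z : ℂ | μ * ‖z‖ < 1} hO1 hO2 hDopen
    ⟨0, by simp⟩ (fun z hz => hO3 z hz) P (fun N => (hP1 N).differentiableOn) hloc
    (fun z hz => ⟨_, hDlim z hz⟩)
  refine ⟨f, hf1, fun z hz => ?_, fun z hz hz1 => ?_⟩
  · have h1 := tendsto_nhds_unique (hf2 z (hO3 z hz)) (hDlim z hz)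
    rw [h1]
    exact (hDsum z hz).hasSum
  · refine ⟨(hangc c hc hcc1 z hz).1, ?_, hsum2, ?_⟩
    · have h1 := hxs z hz hz1
      rw [hGdef] at h1
      exact h1
    · have h1 := le_of_tendsto' (hf2 z hz).norm fun N => hB N z hz hz1
      rw [hGdef] at h1
      exact h1

end

end Pool.Agent.Helper99.AG
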