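import Pool.Agent.Helper99.AG.Edge
import Pool.Agent.R965.HP.Sq

/-!
# The cells enclosed by a closed walk of the square lattice
-/

set_option autoImplicit false
set_option linter.unusedVariables false

namespace Pool.Agent.Helper99.AG

open Finset Pool.Agent.N929.EG
open scoped Classical

noncomputable section

/-- the edge from `x` to `y` crosses the upward ray from the cell `c` (modulo `2`) -/
def ab (c x y : ℤ × ℤ) : ZMod 2 :=
  if ((x.1 = c.1 ∧ y.1 = c.1 + 1) ∨ (x.1 = c.1 + 1 ∧ y.1 = c.1)) ∧ c.2 < x.2 then 1 else 0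

/-- the cell of a move -/
def cell (q : List (ℤ × ℤ) × List (ℤ × ℤ)) : ℤ × ℤ :=
  match q.2 with
  | [p, _, w, _] => (min p.1 w.1, min p.2 w.2)
  | _ => 0

theorem sq_geo {p v w r : ℤ × ℤ} (h1 : Pool.Agent.R965.HP.Sq.A p r)
    (h2 : Pool.Agent.R965.HP.Sq.A p v) (h3 : Pool.Agent.R965.HP.Sq.A v w)
    (h4 : Pool.Agent.R965.HP.Sq.A w r) (h5 : p ≠ w) (h6 : v ≠ r) :
    p.1 + w.1 = 2 * min p.1 w.1 + 1 ∧ p.2 + w.2 = 2 * min p.2 w.2 + 1 ∧
    ((v.1 = p.1 ∧ v.2 = w.2 ∧ r.1 = w.1 ∧ r.2 = p.2) ∨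
      (v.1 = w.1 ∧ v.2 = p.2 ∧ r.1 = p.1 ∧ r.2 = w.2)) := by
  obtain ⟨p1, p2⟩ := p
  obtain ⟨v1, v2⟩ := v
  obtain ⟨w1, w2⟩ := w
  obtain ⟨r1, r2⟩ := r
  rw [Pool.Agent.R965.HP.Sq.A_iff] at h1 h2 h3 h4
  simp only [ne_eq, Prod.mk.injEq] at h1 h2 h3 h4 h5 h6
  simp only
  rcases h1 with h1 | h1 | h1 | h1 <;> rcases h2 with h2 | h2 | h2 | h2 <;>
    rcases h3 with h3 | h3 | h3 | h3 <;> omega

theorem es_two {V : Type} [AddCommGroup V] (g : ℤ × ℤ → ℤ × ℤ → V) (p r : ℤ × ℤ) :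
    es g [p, r] = g p r := by simp

theorem es_four {V : Type} [AddCommGroup V] (g : ℤ × ℤ → ℤ × ℤ → V) (p v w r : ℤ × ℤ) :
    es g [p, v, w, r] = g p v + (g v w + g w r) := by simp

theorem ab_vert {c x y : ℤ × ℤ} (h : x.1 = y.1) : ab c x y = 0 := by
  unfold ab
  exact if_neg (by omega)

theorem ab_hor {c x y : ℤ × ℤ} (h : x.1 + y.1 = 2 * min x.1 y.1 + 1) :
    ab c x y = if c.1 = min x.1 y.1 ∧ c.2 < x.2 then 1 else 0 := by
  unfold ab
  refine if_congr ?_ rfl rfl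
  omega

theorem two_z (x : ZMod 2) : x + x = 0 := by
  revert x
  decide

/-- the effect of a move on the crossing numbers -/
theorem D_cell {q : List (ℤ × ℤ) × List (ℤ × ℤ)} (h : Pool.Agent.R965.HP.Sq.T q.1 q.2)
    (c : ℤ × ℤ) : es (ab c) q.2 - es (ab c) q.1 = if c = cell q then 1 else 0 := by
  obtain ⟨U, U'⟩ := q
  obtain ⟨p, v, w, r, e1, e2, h1, h2, h3, h4, h5, h6⟩ := h
  simp only at e1 e2
  subst e1 e2
  obtain ⟨a1, a2, a3⟩ := sq_geo h1 h2 h3 h4 h5 h6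
  have e : cell ([p, r], [p, v, w, r]) = (min p.1 w.1, min p.2 w.2) := rfl
  rw [e]
  simp only
  rw [es_four, es_two]
  have key : (if c.1 = min p.1 w.1 ∧ c.2 < w.2 then (1 : ZMod 2) else 0) +
      (if c.1 = min p.1 w.1 ∧ c.2 < p.2 then 1 else 0) =
      if c = (min p.1 w.1, min p.2 w.2) then 1 else 0 := by
    have hc : c = (min p.1 w.1, min p.2 w.2) ↔ c.1 = min p.1 w.1 ∧ c.2 = min p.2 w.2 := by
      rw [Prod.ext_iff]
    simp only [hc]
    by_cases b1 : c.1 = min p.1 w.1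
    · by_cases b2 : c.2 < w.2 <;> by_cases b3 : c.2 < p.2
      · rw [if_pos ⟨b1, b2⟩, if_pos ⟨b1, b3⟩, if_neg (by omega)]
        decide
      · rw [if_pos ⟨b1, b2⟩, if_neg (fun h => b3 h.2), if_pos ⟨b1, by omega⟩]
        decide
      · rw [if_neg (fun h => b2 h.2), if_pos ⟨b1, b3⟩, if_pos ⟨b1, by omega⟩]
        decide
      · rw [if_neg (fun h => b2 h.2), if_neg (fun h => b3 h.2), if_neg (by omega)]
        decide
    · rw [if_neg (fun h => b1 h.1), if_neg (fun h => b1 h.1), if_neg (fun h => b1 h.1)]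
      decide
  rcases a3 with ⟨b1, b2, b3, b4⟩ | ⟨b1, b2, b3, b4⟩
  · rw [ab_vert (c := c) (x := p) (y := v) b1.symm, ab_vert (c := c) (x := w) (y := r) b3.symm,
      ab_hor (x := v) (y := w) (by rw [b1]; exact a1), ab_hor (x := p) (y := r)
        (by rw [b3]; exact a1), b1, b2, b3, ← key, add_zero, zero_add, sub_eq_add_neg,
      ZModModule.neg_eq_self]
  · rw [ab_vert (c := c) (x := v) (y := w) b1, ab_vert (c := c) (x := p) (y := r) b3.symm,
      ab_hor (x := p) (y := v) (by rw [b1]; exact a1),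
      ab_hor (x := w) (y := r) (by rw [b3, add_comm, min_comm]; exact a1), b1, b3,
      min_comm w.1 p.1, ← key, zero_add, sub_zero, add_comm]

/-- the crossing number of the closed walk, modulo 2 -/
def par (c : ℤ × ℤ) (w : List (ℤ × ℤ)) : ZMod 2 := es (ab c) w + ab c (w.getLast?.getD 0) 0

theorem idx {a b : ℤ × ℤ} {w : List (ℤ × ℤ)} (h : [a, b] <:+: w) (hn : w.Nodup) :
    w.idxOf b = w.idxOf a + 1 := by
  obtain ⟨L, R, rfl⟩ := h
  have h1 : a ∉ L := by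
    intro hc
    rw [List.append_assoc, List.nodup_append] at hn
    exact hn.2.2 a hc a (by simp) rfl
  have h2 : b ∉ L ++ [a] := by
    intro hc
    have e : L ++ [a, b] ++ R = (L ++ [a]) ++ (b :: R) := by simp
    rw [e, List.nodup_append] at hn
    exact hn.2.2 b hc b (by simp) rfl
  have e1 : L ++ [a, b] ++ R = L ++ (a :: b :: R) := by simp
  have e2 : L ++ [a, b] ++ R = (L ++ [a]) ++ (b :: R) := by simp
  have i1 : (L ++ [a, b] ++ R).idxOf a = L.length := by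
    rw [e1, List.idxOf_append_of_notMem h1, List.idxOf_cons_self, add_zero]
  have i2 : (L ++ [a, b] ++ R).idxOf b = L.length + 1 := by
    rw [e2, List.idxOf_append_of_notMem h2, List.idxOf_cons_self, add_zero, List.length_append,
      List.length_singleton]
  rw [i1, i2]

theorem corner {p v x r y : ℤ × ℤ}
    (h : (v.1 = p.1 ∧ v.2 = x.2 ∧ r.1 = x.1 ∧ r.2 = p.2) ∨
      (v.1 = x.1 ∧ v.2 = p.2 ∧ r.1 = p.1 ∧ r.2 = x.2))
    (h1 : y.1 = p.1 ∨ y.1 = x.1) (h2 : y.2 = p.2 ∨ y.2 = x.2) :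
    y = p ∨ y = v ∨ y = x ∨ y = r := by
  rcases h with ⟨c1, c2, c3, c4⟩ | ⟨c1, c2, c3, c4⟩ <;> rcases h1 with h1 | h1 <;>
    rcases h2 with h2 | h2
  · exact Or.inl (Prod.ext h1 h2)
  · exact Or.inr (Or.inl (Prod.ext (by rw [h1, c1]) (by rw [h2, c2])))
  · exact Or.inr (Or.inr (Or.inr (Prod.ext (by rw [h1, c3]) (by rw [h2, c4]))))
  · exact Or.inr (Or.inr (Or.inl (Prod.ext h1 h2)))
  · exact Or.inl (Prod.ext h1 h2)
  · exact Or.inr (Or.inr (Or.inr (Prod.ext (by rw [h1, c3]) (by rw [h2, c4]))))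
  · exact Or.inr (Or.inl (Prod.ext (by rw [h1, c1]) (by rw [h2, c2])))
  · exact Or.inr (Or.inr (Or.inl (Prod.ext h1 h2)))

theorem mm {a b c d : ℤ} (h : a + b = 2 * min a b + 1) (h' : c + d = 2 * min c d + 1)
    (e : min a b = min c d) : (c = a ∨ c = b) ∧ (d = a ∨ d = b) := by omega

theorem mm' {a b d : ℤ} (h : a + b = 2 * min a b + 1) (h' : a + d = 2 * min a d + 1)
    (e : min a b = min a d) : b = d := by omega

/-- two different free moves have different cells -/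
theorem cell_inj {w : List (ℤ × ℤ)} (hn : w.Nodup) {q q' : List (ℤ × ℤ) × List (ℤ × ℤ)}
    (h : Pool.Agent.R965.HP.Sq.T q.1 q.2) (h' : Pool.Agent.R965.HP.Sq.T q'.1 q'.2)
    (hf : Free q.1 q.2 w) (hf' : Free q'.1 q'.2 w) (he : cell q = cell q') : q = q' := by
  obtain ⟨U, U'⟩ := q
  obtain ⟨V, V'⟩ := q'
  obtain ⟨p, v, x, r, e1, e2, h1, h2, h3, h4, h5, h6⟩ := h
  obtain ⟨p', v', x', r', e1', e2', h1', h2', h3', h4', h5', h6'⟩ := h'
  simp only at e1 e2 e1' e2'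
  subst e1 e2 e1' e2'
  obtain ⟨a1, a2, a3⟩ := sq_geo h1 h2 h3 h4 h5 h6
  obtain ⟨b1, b2, b3⟩ := sq_geo h1' h2' h3' h4' h5' h6'
  have e : cell ([p, r], [p, v, x, r]) = (min p.1 x.1, min p.2 x.2) := rfl
  have e' : cell ([p', r'], [p', v', x', r']) = (min p'.1 x'.1, min p'.2 x'.2) := rfl
  rw [e, e', Prod.mk.injEq] at he
  obtain ⟨he1, he2⟩ := he
  obtain ⟨f1, f2⟩ := hf
  obtain ⟨g1, g2⟩ := hf'
  simp only at f1 f2 g1 g2
  have n1 := Pool.Agent.R965.HP.Sq.A_ne h1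
  have n2 := Pool.Agent.R965.HP.Sq.A_ne h2
  have n4 := Pool.Agent.R965.HP.Sq.A_ne h4
  have hv : v ∉ w := f2 v (by simp) (by simp [n2.symm, h6])
  have hx : x ∉ w := f2 x (by simp) (by simp [h5.symm, n4])
  have hp' : p' ∈ w := g1.subset (by simp)
  have hr' : r' ∈ w := g1.subset (by simp)
  obtain ⟨m1, m2⟩ := mm a1 b1 he1
  obtain ⟨m3, m4⟩ := mm a2 b2 he2
  have k1 : p' = p ∨ p' = v ∨ p' = x ∨ p' = r := corner a3 m1 m3
  have k2 : r' = p ∨ r' = v ∨ r' = x ∨ r' = r := by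
    refine corner a3 ?_ ?_
    · rcases b3 with ⟨c1, c2, c3, c4⟩ | ⟨c1, c2, c3, c4⟩
      · rw [c3]; exact m2
      · rw [c3]; exact m1
    · rcases b3 with ⟨c1, c2, c3, c4⟩ | ⟨c1, c2, c3, c4⟩
      · rw [c4]; exact m3
      · rw [c4]; exact m4
  have k1' : p' = p ∨ p' = r := by
    rcases k1 with rfl | rfl | rfl | rfl
    · exact Or.inl rfl
    · exact absurd hp' hv
    · exact absurd hp' hx
    · exact Or.inr rfl
  have k2' : r' = p ∨ r' = r := by
    rcases k2 with rfl | rfl | rfl | rfl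
    · exact Or.inl rfl
    · exact absurd hr' hv
    · exact absurd hr' hx
    · exact Or.inr rfl
  have n1' := Pool.Agent.R965.HP.Sq.A_ne h1'
  have i1 := idx f1 hn
  have i2 := idx g1 hn
  have hpp : p' = p := by
    rcases k1' with h | h
    · exact h
    · exfalso
      rcases k2' with h' | h'
      · rw [h, h'] at i2
        omega
      · exact n1' (h.trans h'.symm)
  have hrr : r' = r := by
    rcases k2' with h | h
    · exact absurd (hpp.trans h.symm) n1'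
    · exact h
  subst hpp hrr
  have x1 := mm' a1 b1 he1
  have x2 := mm' a2 b2 he2
  have hxx : x = x' := Prod.ext x1 x2
  subst hxx
  have hvv : v = v' := by
    rcases a3 with ⟨c1, c2, c3, c4⟩ | ⟨c1, c2, c3, c4⟩ <;>
      rcases b3 with ⟨d1, d2, d3, d4⟩ | ⟨d1, d2, d3, d4⟩
    · exact Prod.ext (by rw [c1, d1]) (by rw [c2, d2])
    · exact absurd (Prod.ext (by rw [← c3, d3]) (by rw [← d4, c4])) h5.symm
    · exact absurd (Prod.ext (by rw [← d3, c3]) (by rw [← c4, d4])) h5.symm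
    · exact Prod.ext (by rw [c1, d1]) (by rw [c2, d2])
  rw [hvv]

end

end Pool.Agent.Helper99.AG
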