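import Pool.Agent.Helper99.AG.AsmG

/-!
# Exponential decay of the continuations of functionals which vanish on small objects
-/

set_option autoImplicit false
set_option linter.unusedVariables false

namespace Pool.Agent.Helper99.AG

open Finset Filter Topology Pool.Agent.N929.EG Pool.Agent.N929.AC
open Pool.Agent.N738.AC (sum_pp grw)
open scoped Classical

noncomputable section

variable {α σ : Type}

/-- the majorant with a cut-off -/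
def gl (C₀ : ℝ) (p ℓ : ℕ) (n : ℕ) : ℝ := if ℓ ≤ n then C₀ * ((n : ℝ) + 1) ^ p else 0

theorem gl_nonneg {C₀ : ℝ} (hC₀ : 0 ≤ C₀) (p ℓ n : ℕ) : 0 ≤ gl C₀ p ℓ n := by
  unfold gl
  split_ifs
  · positivity
  · exact le_rfl

theorem gl_mono {C₀ : ℝ} (hC₀ : 0 ≤ C₀) (p ℓ : ℕ) : Monotone (gl C₀ p ℓ) := by
  intro n m h
  have h' : (n : ℝ) ≤ m := by exact_mod_cast h
  unfold gl
  split_ifs with h1 h2 h2
  · gcongr
  · omega
  · positivity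
  · exact le_rfl

theorem gl_le {C₀ : ℝ} (hC₀ : 0 ≤ C₀) (p ℓ n : ℕ) : gl C₀ p ℓ n ≤ C₀ * ((n : ℝ) + 1) ^ p := by
  unfold gl
  split_ifs
  · exact le_rfl
  · positivity

theorem decay (Y : TS α σ) (μ : ℝ) (φ : ℕ → ℝ) (hG : Gr Y μ φ) :
    ∃ c κ : ℝ, 0 < c ∧ 0 < κ ∧ ∀ (C₀ : ℝ) (p r : ℕ), 0 ≤ C₀ → ∃ K : ℝ → ℝ,
      ∀ (F : α → ℝ) (ℓ : ℕ), PolG Y F (gl C₀ p ℓ) r →
      ∃ f : ℂ → ℂ, DifferentiableOn ℂ f (Om c μ Y.s) ∧
        (∀ z : ℂ, μ * ‖z‖ < 1 → HasSum (fun n => (aa Y F n : ℂ) * z ^ n) (f z)) ∧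
        ∀ ε : ℝ, 0 < ε → ∀ z ∈ Om c μ Y.s, ε ≤ 1 - cs Y.s z →
          ‖f z‖ ≤ K ε * Real.exp (-(κ * (1 - cs Y.s z) * ℓ)) := by
  obtain ⟨c, k, C, θ₂, hc, hc4, hC, h20, h21, h⟩ := ac_polG Y μ φ hG
  have hμ := hG.one
  have hμ0 : 0 < μ := by linarith
  obtain ⟨-, -, -, hcs, -⟩ := s_omg c μ Y.s hc hμ Y.hs
  obtain ⟨κ₂, hκ₂⟩ : ∃ κ₂ : ℝ, κ₂ = (1 - θ₂) / 4 := ⟨_, rfl⟩
  have hκ20 : 0 < κ₂ := by rw [hκ₂]; linarith
  obtain ⟨θ₃, hθ₃⟩ : ∃ θ₃ : ℝ, θ₃ = θ₂ * Real.exp (2 * κ₂) := ⟨_, rfl⟩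
  have h30 : 0 ≤ θ₃ := by rw [hθ₃]; positivity
  have h31 : θ₃ < 1 := by
    have h1 : θ₂ ≤ Real.exp (-(1 - θ₂)) := by
      have := Real.add_one_le_exp (-(1 - θ₂))
      linarith
    have h2 : θ₃ ≤ Real.exp (-(1 - θ₂)) * Real.exp (2 * κ₂) := by
      rw [hθ₃]
      exact mul_le_mul_of_nonneg_right h1 (Real.exp_pos _).le
    rw [← Real.exp_add] at h2
    refine h2.trans_lt ?_
    rw [Real.exp_lt_one_iff, hκ₂]
    linarith
  refine ⟨c, min (c / 2) κ₂, hc, lt_min (by linarith) hκ20, fun C₀ p r hC₀ => ?_⟩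
  obtain ⟨B, hB⟩ : ∃ B : ℝ → ℝ, B = fun ε => ∑' n, aa Y (GG Y C₀ p) n *
    ((1 - c * min ε 2 / 2) / μ) ^ n := ⟨_, rfl⟩
  obtain ⟨B2, hB2⟩ : ∃ B2 : ℝ, B2 = ∑' m : ℕ, C * C₀ * (((m : ℝ) + 1) ^ p * θ₃ ^ m) := ⟨_, rfl⟩
  have hB20 : 0 ≤ B2 := by
    rw [hB2]
    exact tsum_nonneg fun m => by positivity
  refine ⟨fun ε => Real.exp (2 * k * r) * B ε + B2, fun F ℓ hF => ?_⟩
  obtain ⟨f, f1, f2, f3⟩ := h F (gl C₀ p ℓ) r C₀ p hC₀ (gl_le hC₀ p ℓ) hF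
  refine ⟨f, f1, f2, fun ε hε z hz hu => ?_⟩
  obtain ⟨u, hu'⟩ : ∃ u : ℝ, u = 1 - cs Y.s z := ⟨_, rfl⟩
  rw [← hu'] at hu ⊢
  have hu0 : 0 < u := hε.trans_le hu
  have hu2 : u ≤ 2 := by
    have := (abs_le.1 (hcs z)).1
    rw [hu']
    linarith
  have hmin : min ε 2 = ε := min_eq_left (hu.trans hu2)
  obtain ⟨g1, g2, g3, g4⟩ := f3 z hz (by linarith)
  have hxx : xx c μ Y.s z = (1 - c * u) / μ := by
    rw [hu']
    rfl
  rw [hxx] at g1 g2 g4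
  obtain ⟨x1, hx1⟩ : ∃ x1 : ℝ, x1 = (1 - c * ε / 2) / μ := ⟨_, rfl⟩
  have hcε : c * ε ≤ 1 / 2 := by
    have h1 : c * ε ≤ 1 / 4 * 2 := mul_le_mul hc4 (hu.trans hu2) hε.le (by norm_num)
    linarith
  have hcu : c * u ≤ 1 / 2 := by
    have h1 : c * u ≤ 1 / 4 * 2 := mul_le_mul hc4 hu2 hu0.le (by norm_num)
    linarith
  have hx10 : 0 ≤ x1 := by
    rw [hx1]
    exact div_nonneg (by linarith) hμ0.le
  have hx11 : μ * x1 < 1 := by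
    rw [hx1, mul_div_cancel₀ _ hμ0.ne']
    have := mul_pos hc hε
    linarith
  have hBs : Summable (fun n => aa Y (GG Y C₀ p) n * x1 ^ n) :=
    grw α σ Y μ φ hG (GG Y C₀ p) C₀ p hC₀ (fun n w hw => ⟨GG_nonneg Y hC₀ p w, le_of_eq (by
      unfold GG
      rw [Y.len_K n w hw])⟩) x1 hx10 hx11
  have hBε : B ε = ∑' n, aa Y (GG Y C₀ p) n * x1 ^ n := by
    rw [hB, hx1]
    simp only [hmin]
  have haa : ∀ n, 0 ≤ aa Y (GG Y C₀ p) n := fun n =>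
    sum_nonneg fun w _ => GG_nonneg Y hC₀ p w
  have hB0 : 0 ≤ B ε := by
    rw [hBε]
    exact tsum_nonneg fun n => mul_nonneg (haa n) (pow_nonneg hx10 n)
  obtain ⟨t, ht⟩ : ∃ t : ℝ, t = Real.exp (-(c / 2 * u)) := ⟨_, rfl⟩
  have ht0 : 0 ≤ t := by rw [ht]; exact (Real.exp_pos _).le
  have ht1 : t ≤ 1 := by
    rw [ht, Real.exp_le_one_iff]
    have := mul_pos hc hu0
    linarith
  have hxt : (1 - c * u) / μ ≤ x1 * t := by
    rw [hx1, div_mul_eq_mul_div]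
    refine div_le_div_of_nonneg_right ?_ hμ0.le
    have h1 : 1 - c / 2 * u ≤ t := by
      rw [ht]
      have := Real.add_one_le_exp (-(c / 2 * u))
      linarith
    have h2 : (1 - c * ε / 2) * (1 - c / 2 * u) ≤ (1 - c * ε / 2) * t :=
      mul_le_mul_of_nonneg_left h1 (by linarith)
    refine le_trans ?_ h2
    have h3 : (1 - c * u / 2) ≤ (1 - c * ε / 2) := by
      have := mul_le_mul_of_nonneg_left hu hc.le
      linarith
    have h4 : (1 - c * u / 2) * (1 - c / 2 * u) ≤ (1 - c * ε / 2) * (1 - c / 2 * u) :=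
      mul_le_mul_of_nonneg_right h3 (by linarith)
    refine le_trans ?_ h4
    nlinarith [sq_nonneg (c * u)]
  have hS1 : ∑' n, aa Y (WG Y (gl C₀ p ℓ)) n * ((1 - c * u) / μ) ^ n ≤ t ^ ℓ * B ε := by
    rw [hBε, ← tsum_mul_left]
    refine g2.tsum_le_tsum (fun n => ?_) (hBs.mul_left _)
    rcases lt_or_ge n ℓ with hn | hn
    · have e : aa Y (WG Y (gl C₀ p ℓ)) n = 0 := by
        unfold aa
        refine sum_eq_zero fun w hw => ?_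
        unfold WG gl
        rw [Y.len_K n w hw]
        exact if_neg (by omega)
      rw [e, zero_mul]
      exact mul_nonneg (pow_nonneg ht0 _) (mul_nonneg (haa n) (pow_nonneg hx10 n))
    · have e : aa Y (WG Y (gl C₀ p ℓ)) n = aa Y (GG Y C₀ p) n := by
        unfold aa
        refine sum_congr rfl fun w hw => ?_
        unfold WG gl GG
        rw [Y.len_K n w hw]
        exact if_pos hn
      rw [e]
      have e1 : ((1 - c * u) / μ) ^ n ≤ (x1 * t) ^ n := pow_le_pow_left₀ g1.le hxt n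
      have e2 : t ^ n ≤ t ^ ℓ := pow_le_pow_of_le_one ht0 ht1 hn
      calc aa Y (GG Y C₀ p) n * ((1 - c * u) / μ) ^ n
          ≤ aa Y (GG Y C₀ p) n * (x1 * t) ^ n := mul_le_mul_of_nonneg_left e1 (haa n)
        _ = aa Y (GG Y C₀ p) n * x1 ^ n * t ^ n := by rw [mul_pow]; ring
        _ ≤ aa Y (GG Y C₀ p) n * x1 ^ n * t ^ ℓ :=
            mul_le_mul_of_nonneg_left e2 (mul_nonneg (haa n) (pow_nonneg hx10 n))
        _ = _ := by ring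
  have hS2 : ∑' m : ℕ, C * (gl C₀ p ℓ m * θ₂ ^ m) ≤ Real.exp (-(2 * κ₂ * ℓ)) * B2 := by
    rw [hB2, ← tsum_mul_left]
    refine g3.tsum_le_tsum (fun m => ?_) (((sum_pp p θ₃ h30 h31).mul_left _).mul_left _)
    rcases lt_or_ge m ℓ with hm | hm
    · have e : gl C₀ p ℓ m = 0 := if_neg (by omega)
      rw [e, zero_mul, mul_zero]
      positivity
    · have e : gl C₀ p ℓ m = C₀ * ((m : ℝ) + 1) ^ p := if_pos hm
      rw [e]
      have e1 : θ₂ ^ m = θ₃ ^ m * Real.exp (-(2 * κ₂ * m)) := by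
        rw [hθ₃, mul_pow, ← Real.exp_nat_mul, mul_assoc, ← Real.exp_add]
        have : (m : ℝ) * (2 * κ₂) + -(2 * κ₂ * m) = 0 := by ring
        rw [this, Real.exp_zero, mul_one]
      have e2 : Real.exp (-(2 * κ₂ * m)) ≤ Real.exp (-(2 * κ₂ * ℓ)) := by
        refine Real.exp_le_exp.2 (neg_le_neg ?_)
        have : (ℓ : ℝ) ≤ m := by exact_mod_cast hm
        nlinarith
      rw [e1]
      calc C * (C₀ * ((m : ℝ) + 1) ^ p * (θ₃ ^ m * Real.exp (-(2 * κ₂ * m))))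
          = C * C₀ * (((m : ℝ) + 1) ^ p * θ₃ ^ m) * Real.exp (-(2 * κ₂ * m)) := by ring
        _ ≤ C * C₀ * (((m : ℝ) + 1) ^ p * θ₃ ^ m) * Real.exp (-(2 * κ₂ * ℓ)) :=
            mul_le_mul_of_nonneg_left e2 (by positivity)
        _ = _ := by ring
  have hl0 : (0 : ℝ) ≤ ℓ := Nat.cast_nonneg ℓ
  have hκ1 : min (c / 2) κ₂ ≤ c / 2 := min_le_left _ _
  have hκ2 : min (c / 2) κ₂ ≤ κ₂ := min_le_right _ _
  have ht' : t ^ ℓ ≤ Real.exp (-(min (c / 2) κ₂ * u * ℓ)) := by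
    rw [ht, ← Real.exp_nat_mul]
    refine Real.exp_le_exp.2 ?_
    have h1 : min (c / 2) κ₂ * (u * ℓ) ≤ c / 2 * (u * ℓ) :=
      mul_le_mul_of_nonneg_right hκ1 (mul_nonneg hu0.le hl0)
    calc (ℓ : ℝ) * -(c / 2 * u) = -(c / 2 * (u * ℓ)) := by ring
      _ ≤ -(min (c / 2) κ₂ * (u * ℓ)) := neg_le_neg h1
      _ = -(min (c / 2) κ₂ * u * ℓ) := by ring
  have hk' : Real.exp (-(2 * κ₂ * ℓ)) ≤ Real.exp (-(min (c / 2) κ₂ * u * ℓ)) := by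
    refine Real.exp_le_exp.2 (neg_le_neg ?_)
    calc min (c / 2) κ₂ * u * ℓ = min (c / 2) κ₂ * (u * ℓ) := by ring
      _ ≤ κ₂ * (u * ℓ) := mul_le_mul_of_nonneg_right hκ2 (mul_nonneg hu0.le hl0)
      _ ≤ κ₂ * (2 * ℓ) :=
          mul_le_mul_of_nonneg_left (mul_le_mul_of_nonneg_right hu2 hl0) hκ20.le
      _ = 2 * κ₂ * ℓ := by ring
  refine g4.trans ?_
  have hE := Real.exp_pos (2 * k * r)
  calc Real.exp (2 * k * r) * (∑' n, aa Y (WG Y (gl C₀ p ℓ)) n * ((1 - c * u) / μ) ^ n) +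
        ∑' m : ℕ, C * (gl C₀ p ℓ m * θ₂ ^ m)
      ≤ Real.exp (2 * k * r) * (t ^ ℓ * B ε) + Real.exp (-(2 * κ₂ * ℓ)) * B2 :=
        add_le_add (mul_le_mul_of_nonneg_left hS1 hE.le) hS2
    _ ≤ Real.exp (2 * k * r) * (Real.exp (-(min (c / 2) κ₂ * u * ℓ)) * B ε) +
        Real.exp (-(min (c / 2) κ₂ * u * ℓ)) * B2 := by
        refine add_le_add (mul_le_mul_of_nonneg_left (mul_le_mul_of_nonneg_right ht' hB0) hE.le)
          (mul_le_mul_of_nonneg_right hk' hB20)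
    _ = _ := by ring

end

end Pool.Agent.Helper99.AG
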