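import Pool.Agent.N929.EG.Fsm

/-!
# Sums over the edges of a walk are additive in the occupied slots
-/

set_option autoImplicit false
set_option linter.unusedVariables false

namespace Pool.Agent.Helper99.AG

open Finset Pool.Agent.N929.EG
open scoped Classical

noncomputable section

variable {Ver V : Type} [AddCommGroup V]

/-- the sum over the consecutive pairs -/
def es (g : Ver → Ver → V) : List Ver → V
  | [] => 0
  | [_] => 0
  | x :: y :: t => g x y + es g (y :: t)

@[simp] theorem es_nil (g : Ver → Ver → V) : es g [] = 0 := rfl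

@[simp] theorem es_one (g : Ver → Ver → V) (x : Ver) : es g [x] = 0 := rfl

@[simp] theorem es_cons (g : Ver → Ver → V) (x y : Ver) (t : List Ver) :
    es g (x :: y :: t) = g x y + es g (y :: t) := rfl

theorem es_mid (g : Ver → Ver → V) (p : Ver) (R : List Ver) : ∀ L : List Ver,
    es g (L ++ p :: R) = es g (L ++ [p]) + es g (p :: R)
  | [] => by simp
  | [x] => by simp
  | x :: y :: L => by
      have h := es_mid g p R (y :: L)
      simp only [List.cons_append, es_cons] at h ⊢
      rw [h, add_assoc]

theorem es_win (g : Ver → Ver → V) (L X R : List Ver) (p r : Ver) :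
    es g (L ++ (p :: (X ++ [r])) ++ R) =
      es g (L ++ [p]) + es g (p :: (X ++ [r])) + es g (r :: R) := by
  have e1 : L ++ (p :: (X ++ [r])) ++ R = L ++ p :: (X ++ r :: R) := by simp
  have e2 : p :: (X ++ r :: R) = (p :: X) ++ r :: R := by simp
  have e3 : (p :: X) ++ [r] = p :: (X ++ [r]) := by simp
  rw [e1, es_mid, e2, es_mid g r R (p :: X), e3, add_assoc]

theorem es_rep {o : Ver} {A : Ver → Ver → Prop} {U U' w : List Ver}
    (h : Pair A U U') (hw : Walk o A w) (hf : Free U U' w) (g : Ver → Ver → V) :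
    es g (rep w U U') = es g w + (es g U' - es g U) := by
  obtain ⟨L, R, h1, h2, -, -, -⟩ := rep_all h hw hf
  obtain ⟨⟨p, r, X, X', e1, e2, -, -⟩, -⟩ := h
  rw [h2, h1, e1, e2, es_win, es_win]
  abel

theorem es_fl {X : Geo Ver} {A : Ver → Ver → Prop} {Z : Rul X A}
    {Y : TS (List Ver) (List Ver × List Ver)} (hW : Win Z Y)
    {L : Finset (List Ver × List Ver)} {st : List Ver → List Ver}
    {fl : List Ver → Finset (List Ver × List Ver) → List Ver} (hF : Fill Y L st fl)
    (g : Ver → Ver → V) {w : List Ver} (hE : Em Y L w) {U : Finset (List Ver × List Ver)}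
    (hU : U ⊆ Sl Y L w) : es g (fl w U) = es g w + ∑ q ∈ U, (es g q.2 - es g q.1) := by
  refine fl_add hF (F := fun w => es g w) (D := fun q => es g q.2 - es g q.1)
    (fun n w hw q hq => ?_) hE U hU
  obtain ⟨h3, h4⟩ := (hW.S _ _).1 hq
  rw [hW.ins]
  exact es_rep (Z.pair _ _ h3) ((hW.K _ _).1 hw).2 h4 g

/-- telescoping -/
theorem es_tel (φ : Ver → V) (x : Ver) : ∀ t : List Ver,
    es (fun a b => φ b - φ a) (x :: t) = φ ((x :: t).getLast (List.cons_ne_nil _ _)) - φ x := by
  intro t
  induction t generalizing x with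
  | nil => simp
  | cons y t ih =>
    rw [es_cons, ih y, List.getLast_cons_cons]
    abel

/-- the sum depends on the values on the edges only -/
theorem es_congr {A : Ver → Ver → Prop} {g g' : Ver → Ver → V} : ∀ w : List Ver, w.IsChain A →
    (∀ x ∈ w, ∀ y ∈ w, A x y → g x y = g' x y) → es g w = es g' w
  | [], _, _ => rfl
  | [_], _, _ => rfl
  | x :: y :: t, h, hg => by
      rw [List.isChain_cons_cons] at h
      rw [es_cons, es_cons, hg x (by simp) y (by simp) h.1,
        es_congr (y :: t) h.2 fun a ha b hb => hg a (List.mem_cons_of_mem _ ha) b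
          (List.mem_cons_of_mem _ hb)]

theorem es_zero : ∀ w : List Ver, es (fun _ _ => (0 : V)) w = 0
  | [] => rfl
  | [_] => rfl
  | x :: y :: t => by rw [es_cons, es_zero (y :: t), add_zero]

theorem es_ofFn (g : Ver → Ver → V) : ∀ (n : ℕ) (f : Fin (n + 1) → Ver),
    es g (List.ofFn f) = ∑ j : Fin n, g (f j.castSucc) (f j.succ)
  | 0, f => by simp
  | n + 1, f => by
      rw [List.ofFn_succ]
      have h := es_ofFn g n (fun i => f i.succ)
      rw [List.ofFn_succ] at h ⊢
      rw [es_cons, h, Fin.sum_univ_succ]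
      rfl

end

end Pool.Agent.Helper99.AG
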