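import Pool.Agent.Helper99.AG.Decay
import Pool.Agent.Helper99.AG.Fin

/-!
# Exponential decay of the continued correlation functions
-/

set_option autoImplicit false
set_option linter.unusedVariables false

namespace Pool.Agent.Helper99.AG

open Finset Filter Topology Pool.Agent.N929.EG Pool.Agent.N929.AC
open Pool.Agent.R965.HP
open scoped Classical

noncomputable section

section gen

variable {α σ : Type} {Y : TS α σ} {f : α → ℝ} {C : ℝ} {p r : ℕ}

theorem Ba.inv' {α σ : Type} {Y : TS α σ} {f : α → ℝ} {C : ℝ} {p : ℕ} (hC : 0 ≤ C)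
    (hs : ∀ n, ∀ w ∈ Y.K n, |f w| ≤ C * ((n : ℝ) + 1) ^ p)
    (hi : ∀ n, ∀ w ∈ Y.K n, ∀ q ∈ Y.S w, f (Y.ins w q) = f w) : Ba Y f C p 0 where
  nonneg := hC
  size := hs
  rp := fun L hL st fl hfl w hw => ((Rp.const (E := Sl Y L w) (f w)).mono (hs _ w hw.1)).congr
    fun U hU => fl_inv hfl hi hw U hU
  dg := fun L hL st fl hfl w hw => (Dg.const (f w)).congr fun U hU => fl_inv hfl hi hw U hU

theorem Ba.polG (h : Ba Y f C p r) (ℓ : ℕ) (h1 : ∀ n, ∀ w ∈ Y.K n, n < ℓ → f w = 0)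
    (h2 : ∀ L, Fam Y L → ∀ st fl, Fill Y L st fl → ∀ w, Em Y L w → Y.len w < ℓ →
      ∀ U ⊆ Sl Y L w, f (fl w U) = 0) : PolG Y f (gl C p ℓ) r where
  nonneg := gl_nonneg h.nonneg p ℓ
  mono := gl_mono h.nonneg p ℓ
  size := by
    intro n w hw
    rcases lt_or_ge n ℓ with hn | hn
    · rw [h1 n w hw hn, abs_zero]
      exact gl_nonneg h.nonneg p ℓ n
    · have e : gl C p ℓ n = C * ((n : ℝ) + 1) ^ p := if_pos hn
      rw [e]
      exact h.size n w hw
  rep := by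
    intro L hL st fl hfl w hw
    rcases lt_or_ge (Y.len w) ℓ with hn | hn
    · refine ⟨fun _ => 0, fun _ _ => rfl, ?_, fun U hU => ?_⟩
      · simp only [abs_zero, sum_const_zero]
        exact gl_nonneg h.nonneg p ℓ _
      · show f (fl w U) = _
        rw [h2 L hL st fl hfl w hw hn U hU]
        simp
    · have e : gl C p ℓ (Y.len w) = C * ((Y.len w : ℝ) + 1) ^ p := if_pos hn
      rw [e]
      exact rr (h.rp L hL st fl hfl w hw) (h.dg L hL st fl hfl w hw)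

theorem Ba.prod {ι : Type} (s : Finset ι) {F : ι → α → ℝ} (h : ∀ i ∈ s, Ba Y (F i) C 1 1) :
    Ba Y (fun w => ∏ i ∈ s, F i w) (C ^ s.card) s.card s.card := by
  induction s using Finset.induction_on with
  | empty => simpa using (Ba.one (Y := Y))
  | @insert i s hi ih =>
    have h1 := (ih fun j hj => h j (mem_insert_of_mem hj)).mul (h i (mem_insert_self _ _))
    have e1 : (fun w => (∏ i ∈ s, F i w) * F i w) = fun w => ∏ j ∈ insert i s, F j w := by
      funext w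
      rw [prod_insert hi, mul_comm]
    rw [e1, ← pow_succ] at h1
    rwa [card_insert_of_notMem hi]

end gen

variable {A : ℤ × ℤ → ℤ × ℤ → Prop} {Z : TH966.AK.Rule A} {hs : 1 ≤ Z.s}
  {Y : TS (List (ℤ × ℤ)) (List (ℤ × ℤ) × List (ℤ × ℤ))}

/-- the maximum norm -/
def nrm (x : ℤ × ℤ) : ℕ := max x.1.natAbs x.2.natAbs

theorem nrm_le {x : ℤ × ℤ} {n : ℕ} : nrm x ≤ n ↔ |x.1| ≤ n ∧ |x.2| ≤ n := by
  unfold nrm
  rw [max_le_iff, abs_le, abs_le]
  omega

theorem near_chain' (hA : ∀ p q, A p q → |p.1 - q.1| ≤ 1 ∧ |p.2 - q.2| ≤ 1) :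
    ∀ (t : List (ℤ × ℤ)) (x : ℤ × ℤ), (x :: t).IsChain A →
    ∀ y ∈ x :: t, |y.1 - x.1| ≤ t.length ∧ |y.2 - x.2| ≤ t.length
  | [], x, _, y, hy => by
      rw [List.mem_singleton] at hy
      subst hy
      simp
  | z :: t, x, h, y, hy => by
      rw [List.isChain_cons_cons] at h
      rw [List.mem_cons] at hy
      rcases hy with rfl | hy
      · simp only [sub_self, abs_zero]
        exact ⟨Int.natCast_nonneg _, Int.natCast_nonneg _⟩
      · obtain ⟨h1, h2⟩ := near_chain' hA t z h.2 y hy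
        obtain ⟨h3, h4⟩ := hA _ _ h.1
        rw [List.length_cons]
        push_cast
        rw [abs_le] at h1 h2 h3 h4 ⊢
        rw [abs_le]
        omega

theorem K_nrm (W : Win (toRul Z hs) Y) {n : ℕ} {w : List (ℤ × ℤ)} (hw : w ∈ Y.K n)
    {y : ℤ × ℤ} (hy : y ∈ w) : nrm y ≤ n := by
  obtain ⟨h1, h2, -, h4⟩ := (W.K n w).1 hw
  rw [nrm_le]
  cases w with
  | nil => simp at h1
  | cons x t =>
    rw [List.head?_cons, Option.some.injEq] at h2
    rw [List.length_cons] at h1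
    have h := near_chain' Z.step t x h4 y hy
    have hx : x = 0 := h2
    rw [hx] at h
    have ht : t.length = n := by omega
    simpa [ht] using h

/-- the indicator function of a visit -/
def vis (y : ℤ × ℤ) (w : List (ℤ × ℤ)) : ℝ := if y ∈ w then 1 else 0

/-- the indicator function of a point -/
def pti (y v : ℤ × ℤ) : ℝ := if v = y then 1 else 0

theorem sm_count (y : ℤ × ℤ) (w : List (ℤ × ℤ)) : sm (pti y) w = (w.count y : ℝ) := by
  induction w with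
  | nil => simp [sm]
  | cons x w ih =>
    have e : sm (pti y) (x :: w) = pti y x + sm (pti y) w := by
      unfold sm
      rw [List.map_cons, List.sum_cons]
    rw [e, ih, List.count_cons]
    unfold pti
    by_cases h : x = y
    · subst h
      simp
      ring
    · simp [h]

theorem vis_eq {y : ℤ × ℤ} {w : List (ℤ × ℤ)} (hn : w.Nodup) : vis y w = sm (pti y) w := by
  rw [sm_count]
  unfold vis
  by_cases h : y ∈ w
  · rw [if_pos h, List.count_eq_one_of_mem hn h, Nat.cast_one]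
  · rw [if_neg h, List.count_eq_zero_of_not_mem h, Nat.cast_zero]

theorem vis_fl (W : Win (toRul Z hs) Y) {L : Finset (List (ℤ × ℤ) × List (ℤ × ℤ))}
    {st : List (ℤ × ℤ) → List (ℤ × ℤ)}
    {fl : List (ℤ × ℤ) → Finset (List (ℤ × ℤ) × List (ℤ × ℤ)) → List (ℤ × ℤ)}
    (hfl : Fill Y L st fl) {w : List (ℤ × ℤ)} (hw : Em Y L w) (y : ℤ × ℤ)
    {U : Finset (List (ℤ × ℤ) × List (ℤ × ℤ))} (hU : U ⊆ Sl Y L w) :
    vis y (fl w U) = vis y w + ∑ q ∈ U, (sm (pti y) q.2 - sm (pti y) q.1) := by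
  rw [vis_eq (nodup_K W (hfl.fl_K w U hw hU)), vis_eq (nodup_K W hw.1)]
  exact lib.fsm _ _ _ _ Y W L st fl hfl ℝ inferInstance (pti y) w hw U hU

theorem dlt_le (W : Win (toRul Z hs) Y) {q : List (ℤ × ℤ) × List (ℤ × ℤ)} (h : Z.T q.1 q.2)
    (y : ℤ × ℤ) : |sm (pti y) q.2 - sm (pti y) q.1| ≤ 1 := by
  obtain ⟨-, n1, n2, -, -⟩ := Z.pair _ _ h
  rw [← vis_eq n2, ← vis_eq n1]
  unfold vis
  split_ifs <;> norm_num

variable {pt : ℤ × ℤ → ℂ} {R δ : ℝ}

theorem ba_vis (W : Win (toRul Z hs) Y) (H : Lt X2 A (toRul Z hs).ρ pt R δ) :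
    ∃ C : ℝ, 1 ≤ C ∧ ∀ y : ℤ × ℤ, Ba Y (vis y) C 1 1 := by
  obtain ⟨C, M, K⟩ := cst lib.mul lib.nea H
  have hM := K.M0
  refine ⟨1 + 2 * M, by linarith, fun y => ⟨by linarith, fun n w hw => ?_, ?_, ?_⟩⟩
  · have hn0 : (0 : ℝ) ≤ n := Nat.cast_nonneg n
    have h1 : |vis y w| ≤ 1 := by
      unfold vis
      split_ifs <;> simp
    rw [pow_one]
    nlinarith
  · intro L hL st fl hfl w hw
    have h1 := (Rp.const (E := Sl Y L w) (vis y w)).add (Rp.lin (E := Sl Y L w)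
      (fun q => sm (pti y) q.2 - sm (pti y) q.1))
    refine (h1.mono ?_).congr fun U hU => vis_fl W hfl hw y hU
    have h2 : |vis y w| ≤ 1 := by
      unfold vis
      split_ifs <;> simp
    have h3 : ∑ q ∈ Sl Y L w, |sm (pti y) q.2 - sm (pti y) q.1| ≤ ((Sl Y L w).card : ℝ) := by
      calc ∑ q ∈ Sl Y L w, |sm (pti y) q.2 - sm (pti y) q.1| ≤ ∑ q ∈ Sl Y L w, (1 : ℝ) :=
            sum_le_sum fun q hq => dlt_le W (hd_Sl W hq).1 y
        _ = _ := by simp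
    have h4 := card_le K (nodup_K W hw.1) (Q := Sl Y L w) (fun q hq => hd_Sl W hq)
    have h5 := ((W.K _ w).1 hw.1).1
    have h6 : ((w.length : ℕ) : ℝ) = (Y.len w : ℝ) + 1 := by
      rw [h5]
      push_cast
      ring
    rw [h6] at h4
    rw [pow_one]
    have hn0 : (0 : ℝ) ≤ Y.len w := Nat.cast_nonneg _
    nlinarith
  · intro L hL st fl hfl w hw
    exact (Dg.aff (vis y w) (fun q => sm (pti y) q.2 - sm (pti y) q.1)).congr
      fun U hU => vis_fl W hfl hw y hU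

/-- the indicator function of the last point -/
def lsi (x : ℤ × ℤ) (w : List (ℤ × ℤ)) : ℝ := if en X2 w = x then 1 else 0

theorem ba_lsi (W : Win (toRul Z hs) Y) (x : ℤ × ℤ) : Ba Y (lsi x) 1 0 0 := by
  refine Ba.inv' zero_le_one (fun n w hw => ?_) (fun n w hw q hq => ?_)
  · unfold lsi
    split_ifs <;> simp
  · unfold lsi
    rw [en_inv W n w hw q hq]

/-- the functional of the correlation function -/
def kpf {k : ℕ} (y : Fin k → ℤ × ℤ) (x : ℤ × ℤ) (w : List (ℤ × ℤ)) : ℝ :=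
  lsi x w * ∏ j, vis (y j) w

theorem mem_fl (W : Win (toRul Z hs) Y) {L : Finset (List (ℤ × ℤ) × List (ℤ × ℤ))}
    {st : List (ℤ × ℤ) → List (ℤ × ℤ)}
    {fl : List (ℤ × ℤ) → Finset (List (ℤ × ℤ) × List (ℤ × ℤ)) → List (ℤ × ℤ)}
    (hfl : Fill Y L st fl) {w : List (ℤ × ℤ)} (hw : Em Y L w) {y : ℤ × ℤ}
    {U : Finset (List (ℤ × ℤ) × List (ℤ × ℤ))} (hU : U ⊆ Sl Y L w) (hy : y ∈ fl w U) :
    nrm y ≤ Y.len w + Z.ρ := by
  by_cases h : y ∈ w
  · exact (K_nrm W hw.1 h).trans (Nat.le_add_right _ _)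
  · by_cases h' : ∃ q ∈ U, y ∈ q.2
    · obtain ⟨q, hq, hyq⟩ := h'
      obtain ⟨hT, hh⟩ := hd_Sl W (hU hq)
      have h1 := K_nrm W hw.1 hh
      have h2 : hd X2 q ∈ q.1 := (hd_mem ((toRul Z hs).pair _ _ hT)).1
      obtain ⟨h3, h4⟩ := Z.loc _ _ hT (hd X2 q) (List.mem_append_left _ h2) y
        (List.mem_append_right _ hyq)
      rw [nrm_le] at h1 ⊢
      rw [abs_le] at h3 h4
      rw [abs_le, abs_le] at h1 ⊢
      push_cast
      omega
    · exfalso
      push Not at h'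
      have h1 := vis_fl W hfl hw y hU
      have h2 : vis y (fl w U) = 1 := if_pos hy
      have h3 : vis y w = 0 := if_neg h
      have h4 : ∑ q ∈ U, (sm (pti y) q.2 - sm (pti y) q.1) ≤ 0 := by
        refine sum_nonpos fun q hq => ?_
        rw [sm_count, sm_count, List.count_eq_zero_of_not_mem (h' q hq), Nat.cast_zero]
        have : (0 : ℝ) ≤ (q.1.count y : ℝ) := Nat.cast_nonneg _
        linarith
      rw [h2, h3] at h1
      linarith

theorem kpf_zero {k : ℕ} {y : Fin k → ℤ × ℤ} {x : ℤ × ℤ} {w : List (ℤ × ℤ)} {N : ℕ}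
    (h1 : en X2 w ∈ w) (h2 : ∀ v ∈ w, nrm v ≤ N) (h3 : N < nrm x ∨ ∃ j, N < nrm (y j)) :
    kpf y x w = 0 := by
  unfold kpf
  rcases h3 with h3 | ⟨j, hj⟩
  · have : lsi x w = 0 := by
      refine if_neg fun he => ?_
      have := h2 _ h1
      rw [he] at this
      omega
    rw [this, zero_mul]
  · have : vis (y j) w = 0 := by
      refine if_neg fun he => ?_
      have := h2 _ he
      omega
    rw [prod_eq_zero (mem_univ j) this, mul_zero]

theorem kp_dec (W : Win (toRul Z hs) Y) (H : Lt X2 A (toRul Z hs).ρ pt R δ) {μ : ℝ} {φ : ℕ → ℝ}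
    (G : Pool.Agent.N929.EG.Gr Y μ φ) :
    ∃ c κ : ℝ, 0 < c ∧ 0 < κ ∧ ∀ k : ℕ, ∃ K : ℝ → ℝ, ∀ (y : Fin k → ℤ × ℤ) (x : ℤ × ℤ),
      ∃ f : ℂ → ℂ, DifferentiableOn ℂ f (Om c μ Y.s) ∧
        (∀ z : ℂ, μ * ‖z‖ < 1 → HasSum (fun n => (aa Y (kpf y x) n : ℂ) * z ^ n) (f z)) ∧
        ∀ ε : ℝ, 0 < ε → ∀ z ∈ Om c μ Y.s, ε ≤ 1 - cs Y.s z → ∀ d : ℕ,
          (d ≤ nrm x ∨ ∃ j, d ≤ nrm (y j)) →
          ‖f z‖ ≤ K ε * Real.exp (-(κ * (1 - cs Y.s z) * d)) := by
  obtain ⟨c, κ, hc, hκ, h⟩ := decay Y μ φ G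
  have hμ := G.one
  obtain ⟨-, -, -, hcs, -⟩ := s_omg c μ Y.s hc hμ Y.hs
  obtain ⟨C, hC, hv⟩ := ba_vis W H
  refine ⟨c, κ, hc, hκ, fun k => ?_⟩
  obtain ⟨K, hK⟩ := h (1 * C ^ (univ : Finset (Fin k)).card) (0 + (univ : Finset (Fin k)).card)
    (0 + (univ : Finset (Fin k)).card) (by positivity)
  refine ⟨fun ε => |K ε| * Real.exp (2 * κ * Z.ρ), fun y x => ?_⟩
  have hba : Ba Y (kpf y x) (1 * C ^ (univ : Finset (Fin k)).card)
      (0 + (univ : Finset (Fin k)).card) (0 + (univ : Finset (Fin k)).card) :=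
    (ba_lsi W x).mul (Ba.prod univ fun j _ => hv (y j))
  -- the largest norm
  obtain ⟨D, hD⟩ : ∃ D : ℕ, D = max (nrm x) (univ.sup fun j => nrm (y j)) := ⟨_, rfl⟩
  have hDx : ∀ N : ℕ, N < D → N < nrm x ∨ ∃ j, N < nrm (y j) := by
    intro N hN
    rw [hD, lt_max_iff] at hN
    rcases hN with hN | hN
    · exact Or.inl hN
    · rw [Finset.lt_sup_iff] at hN
      obtain ⟨j, -, hj⟩ := hN
      exact Or.inr ⟨j, hj⟩
  obtain ⟨f, f1, f2, f3⟩ := hK (kpf y x) (D - Z.ρ) (hba.polG (D - Z.ρ)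
    (fun n w hw hn => kpf_zero (en_mem W hw) (fun v hv => K_nrm W hw hv)
      (hDx n (by omega)))
    (fun L hL st fl hfl w hw hn U hU =>
      kpf_zero (en_mem W (hfl.fl_K w U hw hU)) (fun v hv => mem_fl W hfl hw hU hv)
        (hDx _ (by omega))))
  refine ⟨f, f1, f2, fun ε hε z hz hu d hd => ?_⟩
  obtain ⟨u, hu'⟩ : ∃ u : ℝ, u = 1 - cs Y.s z := ⟨_, rfl⟩
  have hu0 : 0 < u := by rw [hu']; linarith
  have hu2 : u ≤ 2 := by
    have := (abs_le.1 (hcs z)).1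
    rw [hu']
    linarith
  have h3 := f3 ε hε z hz hu
  rw [← hu'] at h3 ⊢
  refine h3.trans ?_
  have h4 : K ε ≤ |K ε| := le_abs_self _
  have hdD : d ≤ D := by
    rw [hD]
    rcases hd with hd | ⟨j, hj⟩
    · exact hd.trans (le_max_left _ _)
    · exact (hj.trans (Finset.le_sup (f := fun j => nrm (y j)) (mem_univ j))).trans
        (le_max_right _ _)
  have h5 : (d : ℝ) - Z.ρ ≤ ((D - Z.ρ : ℕ) : ℝ) := by
    have : d ≤ (D - Z.ρ) + Z.ρ := by omega
    have h6 : (d : ℝ) ≤ ((D - Z.ρ : ℕ) : ℝ) + Z.ρ := by exact_mod_cast this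
    linarith
  have hρ : (0 : ℝ) ≤ Z.ρ := Nat.cast_nonneg _
  calc K ε * Real.exp (-(κ * u * ((D - Z.ρ : ℕ) : ℝ)))
      ≤ |K ε| * Real.exp (-(κ * u * ((D - Z.ρ : ℕ) : ℝ))) :=
        mul_le_mul_of_nonneg_right h4 (Real.exp_pos _).le
    _ ≤ |K ε| * (Real.exp (2 * κ * Z.ρ) * Real.exp (-(κ * u * d))) := by
        refine mul_le_mul_of_nonneg_left ?_ (abs_nonneg _)
        rw [← Real.exp_add]
        refine Real.exp_le_exp.2 ?_
        have h7 := mul_le_mul_of_nonneg_left h5 (mul_pos hκ hu0).le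
        have h8 : κ * u * Z.ρ ≤ 2 * κ * Z.ρ := by
          have := mul_le_mul_of_nonneg_left hu2 hκ.le
          have h9 := mul_le_mul_of_nonneg_right this hρ
          linarith
        linarith
    _ = _ := by ring

end

end Pool.Agent.Helper99.AG
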