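import Pool.Agent.Helper99.AG.AreaFin
import Pool.Agent.Helper99.AG.KPt

/-!
# Exponential decay for the generating functions of the polygons which enclose given cells
-/

set_option autoImplicit false
set_option linter.unusedVariables false

namespace Pool.Agent.Helper99.AG

open Finset Filter Topology Pool.Agent.N929.EG Pool.Agent.N929.AC
open Pool.Agent.R965.HP
open scoped Classical

noncomputable section

variable {Y : TS (List (ℤ × ℤ)) (List (ℤ × ℤ) × List (ℤ × ℤ))}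
  {L : Finset (List (ℤ × ℤ) × List (ℤ × ℤ))} {st : List (ℤ × ℤ) → List (ℤ × ℤ)}
  {fl : List (ℤ × ℤ) → Finset (List (ℤ × ℤ) × List (ℤ × ℤ)) → List (ℤ × ℤ)}

/-- the indicator function of the event that the cell is enclosed -/
def enc (c : ℤ × ℤ) (w : List (ℤ × ℤ)) : ℝ := if par c w = 1 then 1 else 0

theorem enc_abs (c : ℤ × ℤ) (w : List (ℤ × ℤ)) : |enc c w| ≤ 1 := by
  unfold enc
  split_ifs <;> simp

theorem par_fl (W : Win ZS Y) (hfl : Fill Y L st fl) {w : List (ℤ × ℤ)} (hw : Em Y L w)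
    {U : Finset (List (ℤ × ℤ) × List (ℤ × ℤ))} (hU : U ⊆ Sl Y L w) (c : ℤ × ℤ) :
    par c (fl w U) = par c w + if c ∈ U.image cell then 1 else 0 := by
  have hn := nodup_K W hw.1
  have hinj : ∀ q ∈ U, ∀ q' ∈ U, cell q = cell q' → q = q' := fun q hq q' hq' he =>
    cell_inj hn (Sl_S W hw (hU hq)).1 (Sl_S W hw (hU hq')).1 (Sl_S W hw (hU hq)).2
      (Sl_S W hw (hU hq')).2 he
  have hlst : lst (fl w U) = lst w := en_fl W hfl hw U hU
  have h1 := es_fl W hfl (ab c) hw hU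
  have e1 : par c (fl w U) = es (ab c) (fl w U) + ab c (lst (fl w U)) 0 := rfl
  have e2 : par c w = es (ab c) w + ab c (lst w) 0 := rfl
  have e3 : ∑ q ∈ U, (es (ab c) q.2 - es (ab c) q.1) = if c ∈ U.image cell then 1 else 0 := by
    rw [sum_congr rfl fun q hq => D_cell (Sl_S W hw (hU hq)).1 c]
    by_cases hcU : c ∈ U.image cell
    · rw [if_pos hcU]
      obtain ⟨q0, hq0, rfl⟩ := mem_image.1 hcU
      rw [sum_eq_single_of_mem q0 hq0 fun q hq hne =>
        if_neg fun he => hne (hinj q hq q0 hq0 he.symm), if_pos rfl]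
    · rw [if_neg hcU]
      refine sum_eq_zero fun q hq => if_neg fun he => hcU ?_
      rw [he]
      exact mem_image_of_mem _ hq
  rw [e1, e2, h1, hlst, e3]
  abel

/-- the effect of a slot -/
def encd (c : ℤ × ℤ) (w : List (ℤ × ℤ)) (q : List (ℤ × ℤ) × List (ℤ × ℤ)) : ℝ :=
  if cell q = c then 1 - 2 * enc c w else 0

theorem enc_fl (W : Win ZS Y) (hfl : Fill Y L st fl) {w : List (ℤ × ℤ)} (hw : Em Y L w)
    {U : Finset (List (ℤ × ℤ) × List (ℤ × ℤ))} (hU : U ⊆ Sl Y L w) (c : ℤ × ℤ) :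
    enc c (fl w U) = enc c w + ∑ q ∈ U, encd c w q := by
  have hn := nodup_K W hw.1
  have hinj : ∀ q ∈ U, ∀ q' ∈ U, cell q = cell q' → q = q' := fun q hq q' hq' he =>
    cell_inj hn (Sl_S W hw (hU hq)).1 (Sl_S W hw (hU hq')).1 (Sl_S W hw (hU hq)).2
      (Sl_S W hw (hU hq')).2 he
  have hx : par c w = 0 ∨ par c w = 1 := by
    by_cases h : par c w = 0
    · exact Or.inl h
    · exact Or.inr (z2.1 h)
  have d1 : (0 : ZMod 2) ≠ 1 := by decide
  have d2 : (1 : ZMod 2) + 1 = 0 := by decide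
  have e3 : ∑ q ∈ U, encd c w q = if c ∈ U.image cell then 1 - 2 * enc c w else 0 := by
    unfold encd
    by_cases hcU : c ∈ U.image cell
    · rw [if_pos hcU]
      obtain ⟨q0, hq0, rfl⟩ := mem_image.1 hcU
      rw [sum_eq_single_of_mem q0 hq0 fun q hq hne =>
        if_neg fun he => hne (hinj q hq q0 hq0 he), if_pos rfl]
    · rw [if_neg hcU]
      refine sum_eq_zero fun q hq => if_neg fun he => hcU ?_
      rw [← he]
      exact mem_image_of_mem _ hq
  rw [e3]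
  unfold enc
  rw [par_fl W hfl hw hU c]
  by_cases hcU : c ∈ U.image cell
  · rw [if_pos hcU, if_pos hcU]
    rcases hx with h | h
    · rw [h, zero_add, if_pos rfl, if_neg d1]
      norm_num
    · rw [h, d2, if_neg d1, if_pos rfl]
      norm_num
  · rw [if_neg hcU, if_neg hcU, add_zero, add_zero]

theorem encd_abs (c : ℤ × ℤ) (w : List (ℤ × ℤ)) (q : List (ℤ × ℤ) × List (ℤ × ℤ)) :
    |encd c w q| = if cell q = c then 1 else 0 := by
  unfold encd enc
  split_ifs <;> norm_num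

theorem ba_enc (W : Win ZS Y) (c : ℤ × ℤ) : Ba Y (enc c) 3 1 1 where
  nonneg := by norm_num
  size := by
    intro n w hw
    have hn0 : (0 : ℝ) ≤ n := Nat.cast_nonneg n
    have h1 := enc_abs c w
    rw [pow_one]
    linarith
  rp := by
    intro L hL st fl hfl w hw
    have h1 := (Rp.const (E := Sl Y L w) (enc c w)).add (Rp.lin (E := Sl Y L w) (encd c w))
    refine (h1.mono ?_).congr fun U hU => enc_fl W hfl hw hU c
    have h2 := enc_abs c w
    have h3 : ∑ q ∈ Sl Y L w, |encd c w q| ≤ 1 := by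
      rw [sum_congr rfl fun q _ => encd_abs c w q, ← sum_filter, sum_const, nsmul_eq_mul,
        mul_one]
      have h4 : ((Sl Y L w).filter (fun q => cell q = c)).card ≤ 1 := by
        rw [card_le_one]
        intro q hq q' hq'
        rw [mem_filter] at hq hq'
        exact cell_inj (nodup_K W hw.1) (Sl_S W hw hq.1).1 (Sl_S W hw hq'.1).1
          (Sl_S W hw hq.1).2 (Sl_S W hw hq'.1).2 (hq.2.trans hq'.2.symm)
      exact_mod_cast h4
    have hn0 : (0 : ℝ) ≤ Y.len w := Nat.cast_nonneg _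
    rw [pow_one]
    linarith
  dg := fun L hL st fl hfl w hw =>
    (Dg.aff (enc c w) (encd c w)).congr fun U hU => enc_fl W hfl hw hU c

/-- the functional of the polygons which enclose the cells -/
def kef {k : ℕ} (c : Fin k → ℤ × ℤ) (w : List (ℤ × ℤ)) : ℝ := gcl w * ∏ j, enc (c j) w

theorem cell_near (W : Win ZS Y) {w : List (ℤ × ℤ)} (hw : Em Y L w)
    {q : List (ℤ × ℤ) × List (ℤ × ℤ)} (hq : q ∈ Sl Y L w) : nrm (cell q) ≤ Y.len w + 2 := by
  obtain ⟨hT, hf⟩ := Sl_S W hw hq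
  obtain ⟨U, U'⟩ := q
  obtain ⟨p, v, x, r, e1, e2, h1, h2, h3, h4, h5, h6⟩ := hT
  simp only at e1 e2 hf
  subst e1 e2
  obtain ⟨a1, a2, a3⟩ := sq_geo h1 h2 h3 h4 h5 h6
  have e : cell ([p, r], [p, v, x, r]) = (min p.1 x.1, min p.2 x.2) := rfl
  have hp : p ∈ w := hf.1.subset (by simp)
  have h7 := nrm_le.1 (K_nrm W hw.1 hp)
  rw [e, nrm_le]
  rw [abs_le, abs_le] at h7 ⊢
  push_cast
  omega

theorem kef_zero {k : ℕ} {c : Fin k → ℤ × ℤ} {w : List (ℤ × ℤ)} {N : ℕ}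
    (h2 : Sq.A (lst w) 0 → ∀ c, par c w = 1 → nrm c ≤ N) (h3 : ∃ j, N < nrm (c j)) :
    kef c w = 0 := by
  obtain ⟨j, hj⟩ := h3
  unfold kef
  by_cases hc : Sq.A (lst w) 0
  · have : enc (c j) w = 0 := by
      refine if_neg fun he => ?_
      have := h2 hc _ he
      omega
    rw [prod_eq_zero (mem_univ j) this, mul_zero]
  · have : gcl w = 0 := if_neg hc
    rw [this, zero_mul]

theorem ke_dec (W : Win ZS Y) {μ : ℝ} {φ : ℕ → ℝ} (G : Pool.Agent.N929.EG.Gr Y μ φ) :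
    ∃ c κ : ℝ, 0 < c ∧ 0 < κ ∧ ∀ k : ℕ, ∃ K : ℝ → ℝ, ∀ (y : Fin k → ℤ × ℤ),
      ∃ f : ℂ → ℂ, DifferentiableOn ℂ f (Om c μ Y.s) ∧
        (∀ z : ℂ, μ * ‖z‖ < 1 → HasSum (fun n => (aa Y (kef y) n : ℂ) * z ^ n) (f z)) ∧
        ∀ ε : ℝ, 0 < ε → ∀ z ∈ Om c μ Y.s, ε ≤ 1 - cs Y.s z → ∀ j,
          ‖f z‖ ≤ K ε * Real.exp (-(κ * (1 - cs Y.s z) * nrm (y j))) := by
  obtain ⟨c, κ, hc, hκ, h⟩ := decay Y μ φ G
  have hμ := G.one
  obtain ⟨-, -, -, hcs, -⟩ := s_omg c μ Y.s hc hμ Y.hs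
  refine ⟨c, κ, hc, hκ, fun k => ?_⟩
  obtain ⟨K, hK⟩ := h (1 * 3 ^ (univ : Finset (Fin k)).card) (0 + (univ : Finset (Fin k)).card)
    (0 + (univ : Finset (Fin k)).card) (by positivity)
  refine ⟨fun ε => |K ε| * Real.exp (2 * κ * 2), fun y => ?_⟩
  have hba : Ba Y (kef y) (1 * 3 ^ (univ : Finset (Fin k)).card)
      (0 + (univ : Finset (Fin k)).card) (0 + (univ : Finset (Fin k)).card) :=
    (ba_gcl W).mul (Ba.prod univ fun j _ => ba_enc W (y j))
  obtain ⟨D, hD⟩ : ∃ D : ℕ, D = univ.sup fun j => nrm (y j) := ⟨_, rfl⟩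
  have hDx : ∀ N : ℕ, N < D → ∃ j, N < nrm (y j) := by
    intro N hN
    rw [hD, Finset.lt_sup_iff] at hN
    obtain ⟨j, -, hj⟩ := hN
    exact ⟨j, hj⟩
  obtain ⟨f, f1, f2, f3⟩ := hK (kef y) (D - 2) (hba.polG (D - 2)
    (fun n w hw hn => kef_zero (N := n) (fun hcl c hcc =>
      nrm_le.2 (par_out W hw hcl (z2.2 hcc))) (hDx n (by omega)))
    (fun L hL st fl hfl w hw hn U hU => kef_zero (N := Y.len w + 2) (fun hcl c hcc => by
      have hlst : lst (fl w U) = lst w := en_fl W hfl hw U hU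
      rw [hlst] at hcl
      rw [par_fl W hfl hw hU c] at hcc
      by_cases hcU : c ∈ U.image cell
      · obtain ⟨q, hq, rfl⟩ := mem_image.1 hcU
        exact cell_near W hw (hU hq)
      · rw [if_neg hcU, add_zero] at hcc
        exact (nrm_le.2 (par_out W hw.1 hcl (z2.2 hcc))).trans (Nat.le_add_right _ _))
      (hDx _ (by omega))))
  refine ⟨f, f1, f2, fun ε hε z hz hu j => ?_⟩
  obtain ⟨u, hu'⟩ : ∃ u : ℝ, u = 1 - cs Y.s z := ⟨_, rfl⟩
  have hu0 : 0 < u := by rw [hu']; linarith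
  have hu2 : u ≤ 2 := by
    have := (abs_le.1 (hcs z)).1
    rw [hu']
    linarith
  have h3 := f3 ε hε z hz hu
  rw [← hu'] at h3 ⊢
  refine h3.trans ?_
  have hdD : nrm (y j) ≤ D := by
    rw [hD]
    exact Finset.le_sup (f := fun j => nrm (y j)) (mem_univ j)
  have h5 : (nrm (y j) : ℝ) - 2 ≤ ((D - 2 : ℕ) : ℝ) := by
    have : nrm (y j) ≤ (D - 2) + 2 := by omega
    have h6 : (nrm (y j) : ℝ) ≤ ((D - 2 : ℕ) : ℝ) + 2 := by exact_mod_cast this
    linarith
  calc K ε * Real.exp (-(κ * u * ((D - 2 : ℕ) : ℝ)))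
      ≤ |K ε| * Real.exp (-(κ * u * ((D - 2 : ℕ) : ℝ))) :=
        mul_le_mul_of_nonneg_right (le_abs_self _) (Real.exp_pos _).le
    _ ≤ |K ε| * (Real.exp (2 * κ * 2) * Real.exp (-(κ * u * nrm (y j)))) := by
        refine mul_le_mul_of_nonneg_left ?_ (abs_nonneg _)
        rw [← Real.exp_add]
        refine Real.exp_le_exp.2 ?_
        have h7 := mul_le_mul_of_nonneg_left h5 (mul_pos hκ hu0).le
        have h8 := mul_le_mul_of_nonneg_left hu2 hκ.le
        linarith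
    _ = _ := by ring

end

end Pool.Agent.Helper99.AG
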