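import Pool.Agent.Helper99.AG.Enc

/-!
# Exponential decay for the generating functions of the polygons which enclose given cells:
polygons as closed loops
-/

set_option autoImplicit false
set_option linter.unusedVariables false

namespace Pool.Agent.Helper99.AG

open Finset Filter Topology Pool.Agent.N929.EG Pool.Agent.N929.AC
open TH966.AK Pool.Agent.R965.HP
open scoped Classical

noncomputable section

theorem kef_eq {k : ℕ} (c : Fin k → ℤ × ℤ) (w : List (ℤ × ℤ)) :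
    kef c w = if Sq.A (lst w) 0 ∧ ∀ j, par (c j) w = 1 then 1 else 0 := by
  unfold kef gcl enc
  by_cases h1 : Sq.A (lst w) 0
  · by_cases h2 : ∀ j, par (c j) w = 1
    · rw [if_pos h1, if_pos ⟨h1, h2⟩, one_mul]
      exact prod_eq_one fun j _ => if_pos (h2 j)
    · have hn : ¬ (Sq.A (lst w) 0 ∧ ∀ j, par (c j) w = 1) := fun h => h2 h.2
      rw [if_neg hn]
      push Not at h2
      obtain ⟨j, hj⟩ := h2
      rw [prod_eq_zero (mem_univ j) (if_neg hj), mul_zero]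
  · have hn : ¬ (Sq.A (lst w) 0 ∧ ∀ j, par (c j) w = 1) := fun h => h1 h.1
    rw [if_neg h1, if_neg hn, zero_mul]

theorem enc_iff {n : ℕ} (f : Fin (n + 1) → ℤ × ℤ) (h0 : f 0 = 0) (c : ℤ × ℤ) :
    Enc (n + 1) f c ↔ par c (List.ofFn f) = 1 := by
  rw [par_ofFn f h0 c, ZMod.natCast_eq_one_iff_odd]
  rfl

theorem ke_count {n k : ℕ} (c : Fin k → ℤ × ℤ) :
    (({f : ZMod (n + 1) → ℤ × ℤ | Lp (n + 1) f ∧ ∀ j, Enc (n + 1) f (c j)}.ncard : ℕ) : ℝ) =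
      ∑ w ∈ Kw Sq.A n, kef c w := by
  obtain ⟨S, hS⟩ : ∃ S : Set (Fin (n + 1) → ℤ × ℤ), S = {f | f ∈ wks Sq.A n ∧
    Sq.A (f (Fin.last n)) 0 ∧ ∀ j, par (c j) (List.ofFn f) = 1} := ⟨_, rfl⟩
  have e0 : {f : ZMod (n + 1) → ℤ × ℤ | Lp (n + 1) f ∧ ∀ j, Enc (n + 1) f (c j)} = S := by
    rw [hS]
    ext f
    constructor
    · rintro ⟨h1, h2⟩
      have h3 := (lp_iff (n := n) f).1 h1
      exact ⟨h3.1, h3.2, fun j => (enc_iff (n := n) f h3.1.1 (c j)).1 (h2 j)⟩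
    · rintro ⟨h1, h2, h3⟩
      exact ⟨(lp_iff (n := n) f).2 ⟨h1, h2⟩, fun j => (enc_iff (n := n) f h1.1 (c j)).2 (h3 j)⟩
  have e : List.ofFn '' S = (((Kw Sq.A n).filter (fun w => Sq.A (lst w) 0 ∧
      ∀ j, par (c j) w = 1) : Finset (List (ℤ × ℤ))) : Set (List (ℤ × ℤ))) := by
    ext w
    rw [Set.mem_image, mem_coe, mem_filter]
    constructor
    · rintro ⟨ω, hω, rfl⟩
      rw [hS] at hω
      obtain ⟨h1, h2, h3⟩ := hω
      have h4 : List.ofFn ω ∈ (Kw Sq.A n : Set (List (ℤ × ℤ))) := by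
        rw [← image_wks Sq.rule]
        exact ⟨ω, h1, rfl⟩
      refine ⟨mem_coe.1 h4, ?_, h3⟩
      have h5 : lst (List.ofFn ω) = ω (Fin.last n) := TH966.AK.lst_ofFn ω
      rw [h5]
      exact h2
    · rintro ⟨h1, h2, h3⟩
      have h4 : w ∈ (Kw Sq.A n : Set (List (ℤ × ℤ))) := mem_coe.2 h1
      rw [← image_wks Sq.rule] at h4
      obtain ⟨ω, hω, rfl⟩ := h4
      refine ⟨ω, ?_, rfl⟩
      rw [hS]
      have h5 : lst (List.ofFn ω) = ω (Fin.last n) := TH966.AK.lst_ofFn ω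
      rw [h5] at h2
      exact ⟨hω, h2, h3⟩
  have h1 : S.ncard = ((Kw Sq.A n).filter (fun w => Sq.A (lst w) 0 ∧
      ∀ j, par (c j) w = 1)).card := by
    rw [← Set.ncard_image_of_injective S List.ofFn_injective, e, Set.ncard_coe_finset]
  have h2 : ({f : ZMod (n + 1) → ℤ × ℤ | Lp (n + 1) f ∧ ∀ j, Enc (n + 1) f (c j)}.ncard) =
      S.ncard := congrArg Set.ncard e0
  rw [h2, h1, card_filter]
  push_cast
  exact sum_congr rfl fun w _ => (kef_eq c w).symm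

theorem ke_planar {μ K : ℝ}
    (G : Pool.Agent.R965.HP.Gr (ruleD Sq.rule (fun _ => True)).sys μ K 2) :
    ∃ δ κ : ℝ, 0 < δ ∧ 0 < κ ∧ ∀ k : ℕ, ∃ K : ℝ → ℝ, ∀ c : Fin k → ℤ × ℤ,
      ∃ f : ℂ → ℂ, DifferentiableOn ℂ f (Om δ μ 2) ∧
        (∀ z : ℂ, μ * ‖z‖ < 1 → HasSum (fun n : ℕ =>
          ((({f : ZMod (n + 1) → ℤ × ℤ | Lp (n + 1) f ∧
            ∀ j, Enc (n + 1) f (c j)}.ncard : ℕ) : ℝ) / 2 : ℂ) * z ^ (n + 1)) (f z)) ∧
        ∀ ε : ℝ, 0 < ε → ∀ z ∈ Om δ μ 2, ε ≤ 1 - cs 2 z → ∀ j,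
          ‖f z‖ ≤ K ε * Real.exp (-(κ * (1 - cs 2 z) * (|((c j).1 : ℝ)| + |((c j).2 : ℝ)|))) := by
  obtain ⟨Y, φ, W, y1, y2, hG⟩ := sysF Sq.rule (show 1 ≤ 2 by norm_num) G
  have W' : Win ZS Y := W
  have hs2 : Y.s = 2 := y1
  obtain ⟨δ, κ, hδ, hκ, h⟩ := ke_dec W' hG
  have hμ := hG.one
  have hμ0 : 0 < μ := by linarith
  obtain ⟨-, -, -, hcs, -⟩ := s_omg δ μ 2 hδ hμ (by norm_num)
  refine ⟨δ, κ / 2, hδ, by positivity, fun k => ?_⟩
  obtain ⟨K, hK⟩ := h k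
  refine ⟨fun ε => (1 + 2 * δ) * |K ε|, fun c => ?_⟩
  obtain ⟨f, f1, f2, f3⟩ := hK c
  rw [hs2] at f1 f3
  refine ⟨fun z => z / 2 * f z, ?_, fun z hz => ?_, fun ε hε z hz hu j => ?_⟩
  · refine DifferentiableOn.mul ?_ f1
    fun_prop
  · have h1 := (f2 z hz).mul_left (z / 2)
    refine h1.congr_fun fun n => ?_
    have e : aa Y (kef c) n = (({f : ZMod (n + 1) → ℤ × ℤ | Lp (n + 1) f ∧
        ∀ j, Enc (n + 1) f (c j)}.ncard : ℕ) : ℝ) := by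
      rw [ke_count]
      unfold aa
      rw [y2]
    rw [e]
    push_cast
    ring
  · obtain ⟨u, hu'⟩ : ∃ u : ℝ, u = 1 - cs 2 z := ⟨_, rfl⟩
    have hu0 : 0 < u := by rw [hu']; linarith
    have hu2 : u ≤ 2 := by
      have := (abs_le.1 (hcs z)).1
      rw [hu']
      linarith
    have h3 := f3 ε hε z hz hu j
    have hz' : μ * ‖z‖ < 1 + δ * u := by
      rw [hu']
      exact hz
    rw [← hu'] at h3 ⊢
    have hzn : ‖z‖ ≤ 1 + 2 * δ := by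
      have h4 : ‖z‖ ≤ μ * ‖z‖ := by nlinarith [norm_nonneg z]
      nlinarith
    have h5 : |((c j).1 : ℝ)| + |((c j).2 : ℝ)| ≤ 2 * (nrm (c j) : ℝ) := by
      obtain ⟨h6, h7⟩ := nrm_le.1 (le_refl (nrm (c j)))
      have h6' : |((c j).1 : ℝ)| ≤ (nrm (c j) : ℝ) := by exact_mod_cast h6
      have h7' : |((c j).2 : ℝ)| ≤ (nrm (c j) : ℝ) := by exact_mod_cast h7
      linarith
    have h8 : Real.exp (-(κ * u * nrm (c j))) ≤
        Real.exp (-(κ / 2 * u * (|((c j).1 : ℝ)| + |((c j).2 : ℝ)|))) := by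
      refine Real.exp_le_exp.2 ?_
      have := mul_le_mul_of_nonneg_left h5 (mul_pos hκ hu0).le
      linarith
    rw [norm_mul, norm_div]
    have h2 : ‖(2 : ℂ)‖ = 2 := by simp
    rw [h2]
    have h9 : ‖f z‖ ≤ |K ε| * Real.exp (-(κ / 2 * u * (|((c j).1 : ℝ)| + |((c j).2 : ℝ)|))) := by
      refine h3.trans ?_
      refine le_trans (mul_le_mul_of_nonneg_right (le_abs_self (K ε)) (Real.exp_pos _).le) ?_
      exact mul_le_mul_of_nonneg_left h8 (abs_nonneg _)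
    have h10 : ‖z‖ / 2 ≤ 1 + 2 * δ := by
      have := norm_nonneg z
      linarith
    calc ‖z‖ / 2 * ‖f z‖ ≤ (1 + 2 * δ) *
          (|K ε| * Real.exp (-(κ / 2 * u * (|((c j).1 : ℝ)| + |((c j).2 : ℝ)|)))) :=
          mul_le_mul h10 h9 (norm_nonneg _) (by positivity)
      _ = _ := by ring

end

end Pool.Agent.Helper99.AG
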