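import Pool.Agent.N929.EG.RpA

/-!
Functions of a set of slots which are polynomials of bounded degree in the indicator functions of the
slots, and their generating polynomials.
-/

set_option autoImplicit false
set_option linter.unusedVariables false

namespace Pool.Agent.Helper99.AG

open Finset Pool.Agent.N929.EG
open scoped Classical

noncomputable section

variable {σ : Type} {E : Finset σ}

/-- `Φ` is a polynomial of degree at most `r` in the indicator functions of the slots -/
def Dg (r : ℕ) (E : Finset σ) (Φ : Finset σ → ℝ) : Prop :=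
  ∃ v : Finset σ → ℝ, (∀ T, r < T.card → v T = 0) ∧
    ∀ U ⊆ E, Φ U = ∑ T ∈ E.powerset, if Disjoint T U then v T else 0

/-- the same, with sum of the absolute values of the coefficients at most `M` -/
def Rr (r : ℕ) (E : Finset σ) (Φ : Finset σ → ℝ) (M : ℝ) : Prop :=
  ∃ v : Finset σ → ℝ, (∀ T, r < T.card → v T = 0) ∧ (∑ T ∈ E.powerset, |v T|) ≤ M ∧
    ∀ U ⊆ E, Φ U = ∑ T ∈ E.powerset, if Disjoint T U then v T else 0

variable {Φ Ψ : Finset σ → ℝ} {r r' : ℕ}

theorem Dg.mono (h : Dg r E Φ) (hr : r ≤ r') : Dg r' E Φ := by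
  obtain ⟨v, h1, h2⟩ := h
  exact ⟨v, fun T hT => h1 T (lt_of_le_of_lt hr hT), h2⟩

theorem Dg.congr (h : Dg r E Φ) (h' : ∀ U ⊆ E, Ψ U = Φ U) : Dg r E Ψ := by
  obtain ⟨v, h1, h2⟩ := h
  exact ⟨v, h1, fun U hU => by rw [h' U hU, h2 U hU]⟩

theorem Dg.ind {T : Finset σ} (hT : T ⊆ E) :
    Dg T.card E (fun U => if Disjoint T U then 1 else 0) := by
  refine ⟨fun T' => if T' = T then 1 else 0, fun T' hT' => ?_, fun U hU => ?_⟩
  · refine if_neg ?_
    rintro rfl
    exact lt_irrefl _ hT'
  · have h1 : ∀ x ∈ E.powerset, (if Disjoint x U then (if x = T then (1 : ℝ) else 0) else 0) =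
        if x = T then (if Disjoint T U then 1 else 0) else 0 := by
      intro x _
      by_cases h : x = T
      · subst h
        simp
      · simp [h]
    rw [sum_congr rfl h1, sum_ite_eq' E.powerset T, if_pos (mem_powerset.2 hT)]

theorem Dg.smul (h : Dg r E Φ) (c : ℝ) : Dg r E (fun U => c * Φ U) := by
  obtain ⟨v, h1, h2⟩ := h
  refine ⟨fun T => c * v T, fun T hT => by simp only [h1 T hT, mul_zero], fun U hU => ?_⟩
  show c * Φ U = _
  rw [h2 U hU, mul_sum]
  refine sum_congr rfl (fun T _ => ?_)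
  split_ifs
  · rfl
  · rw [mul_zero]

theorem Dg.add (h : Dg r E Φ) (h' : Dg r E Ψ) : Dg r E (fun U => Φ U + Ψ U) := by
  obtain ⟨v, h1, h2⟩ := h
  obtain ⟨v', h1', h2'⟩ := h'
  refine ⟨fun T => v T + v' T, fun T hT => by simp only [h1 T hT, h1' T hT, add_zero],
    fun U hU => ?_⟩
  show Φ U + Ψ U = _
  rw [h2 U hU, h2' U hU, ← sum_add_distrib]
  refine sum_congr rfl (fun T _ => ?_)
  split_ifs
  · rfl
  · rw [add_zero]

theorem Dg.zero : Dg r E (fun _ => 0) := by
  refine ⟨fun _ => 0, fun _ _ => rfl, fun U hU => ?_⟩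
  simp

theorem Dg.sum {ι : Type*} (s : Finset ι) {Φ : ι → Finset σ → ℝ}
    (h : ∀ i ∈ s, Dg r E (Φ i)) : Dg r E (fun U => ∑ i ∈ s, Φ i U) := by
  induction s using Finset.induction_on with
  | empty => simpa using Dg.zero (E := E)
  | @insert i s hi ih =>
    refine ((h i (mem_insert_self _ _)).add (ih (fun j hj => h j (mem_insert_of_mem hj)))).congr
      (fun U _ => ?_)
    rw [sum_insert hi]

theorem Dg.mul (h : Dg r E Φ) (h' : Dg r' E Ψ) : Dg (r + r') E (fun U => Φ U * Ψ U) := by
  obtain ⟨v, h1, h2⟩ := h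
  obtain ⟨v', h1', h2'⟩ := h'
  have h3 : ∀ x ∈ E.powerset ×ˢ E.powerset, Dg (r + r') E (fun U => v x.1 * v' x.2 *
      (if Disjoint (x.1 ∪ x.2) U then 1 else 0)) := by
    intro x hx
    rw [mem_product, mem_powerset, mem_powerset] at hx
    by_cases hz : v x.1 * v' x.2 = 0
    · refine Dg.zero.congr fun U _ => ?_
      rw [hz, zero_mul]
    · refine ((Dg.ind (E := E) (union_subset hx.1 hx.2)).smul (v x.1 * v' x.2)).mono ?_
      have a1 : x.1.card ≤ r := by
        by_contra hc
        exact hz (by rw [h1 x.1 (by omega), zero_mul])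
      have a2 : x.2.card ≤ r' := by
        by_contra hc
        exact hz (by rw [h1' x.2 (by omega), mul_zero])
      exact (card_union_le _ _).trans (add_le_add a1 a2)
  refine (Dg.sum _ h3).congr (fun U hU => ?_)
  rw [h2 U hU, h2' U hU, sum_mul_sum, ← sum_product']
  refine sum_congr rfl (fun x _ => ?_)
  by_cases a1 : Disjoint x.1 U <;> by_cases a2 : Disjoint x.2 U <;>
    simp [disjoint_union_left, a1, a2]

theorem Dg.const (a : ℝ) : Dg 0 E (fun _ => a) := by
  refine (((Dg.ind (E := E) (empty_subset E)).smul a).mono (le_of_eq card_empty)).congr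
    fun U _ => ?_
  simp

theorem Dg.pow (h : Dg r E Φ) (k : ℕ) : Dg (k * r) E (fun U => Φ U ^ k) := by
  induction k with
  | zero => simpa using Dg.const (E := E) 1
  | succ k ih =>
    refine ((ih.mul h).mono (le_of_eq (by ring))).congr (fun U _ => ?_)
    rw [pow_succ]

theorem Dg.mem {q : σ} (hq : q ∈ E) : Dg 1 E (fun U => if q ∈ U then 1 else 0) := by
  have h := ((Dg.const (E := E) 1).mono (Nat.zero_le _)).add
    (((Dg.ind (E := E) (T := {q}) (singleton_subset_iff.2 hq)).smul (-1)).mono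
      (le_of_eq (card_singleton q)))
  refine h.congr (fun U _ => ?_)
  by_cases h : q ∈ U <;> simp [disjoint_singleton_left, h]

theorem Dg.lin (δ : σ → ℝ) : Dg 1 E (fun U => ∑ q ∈ U, δ q) := by
  have h := Dg.sum E (fun q hq => (Dg.mem (E := E) hq).smul (δ q))
  refine h.congr (fun U hU => ?_)
  simp only [mul_ite, mul_one, mul_zero]
  rw [← sum_filter]
  refine sum_congr ?_ (fun _ _ => rfl)
  ext x
  rw [mem_filter]
  exact ⟨fun hx => ⟨hU hx, hx⟩, fun hx => hx.2⟩

theorem Dg.aff (a : ℝ) (δ : σ → ℝ) : Dg 1 E (fun U => a + ∑ q ∈ U, δ q) :=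
  ((Dg.const a).mono (Nat.zero_le _)).add (Dg.lin δ)

/-- the coefficients are unique -/
theorem uniq {d : Finset σ → ℝ}
    (h : ∀ U ⊆ E, ∑ T ∈ E.powerset, (if Disjoint T U then d T else 0) = 0) :
    ∀ S : Finset σ, S ⊆ E → d S = 0 := by
  intro S
  induction S using Finset.strongInduction with
  | _ S ih =>
    intro hS
    have h1 := h (E \ S) sdiff_subset
    rw [← sum_filter] at h1
    have e : E.powerset.filter (fun T => Disjoint T (E \ S)) = S.powerset := by
      ext T
      rw [mem_filter, mem_powerset, mem_powerset]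
      constructor
      · rintro ⟨h2, h3⟩ x hx
        by_contra hc
        exact disjoint_left.1 h3 hx (mem_sdiff.2 ⟨h2 hx, hc⟩)
      · intro h2
        refine ⟨h2.trans hS, disjoint_left.2 fun x hx hx' => ?_⟩
        exact (mem_sdiff.1 hx').2 (h2 hx)
    rw [e] at h1
    have h2 : ∑ T ∈ S.powerset, d T = d S := by
      refine sum_eq_single_of_mem S (mem_powerset_self S) fun T hT hne => ?_
      rw [mem_powerset] at hT
      exact ih T (hT.ssubset_of_ne hne) (hT.trans hS)
    rw [h2] at h1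
    exact h1

/-- a representation and a bound for the degree -/
theorem rr {M : ℝ} (h : Rp E Φ M) (h' : Dg r E Φ) : Rr r E Φ M := by
  obtain ⟨v, h1, h2⟩ := h
  obtain ⟨v', h3, h4⟩ := h'
  have h5 : ∀ T, T ⊆ E → v T - v' T = 0 := by
    refine uniq (d := fun T => v T - v' T) fun U hU => ?_
    have h6 := h2 U hU
    rw [h4 U hU] at h6
    rw [← sub_eq_zero, ← sum_sub_distrib] at h6
    rw [← neg_eq_zero, ← sum_neg_distrib]
    refine (sum_congr rfl fun T _ => ?_).trans h6
    split_ifs <;> ring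
  refine ⟨v', h3, le_trans (le_of_eq (sum_congr rfl fun T hT => ?_)) h1, h4⟩
  rw [mem_powerset] at hT
  rw [sub_eq_zero.1 (h5 T hT)]

/-- the generating polynomial -/
theorem gsum {v : Finset σ → ℝ}
    (hv : ∀ U ⊆ E, Φ U = ∑ T ∈ E.powerset, if Disjoint T U then v T else 0) (y : ℂ) :
    ∑ U ∈ E.powerset, (Φ U : ℂ) * y ^ U.card =
      ∑ T ∈ E.powerset, (v T : ℂ) * (1 + y) ^ (E \ T).card := by
  calc ∑ U ∈ E.powerset, (Φ U : ℂ) * y ^ U.card
      = ∑ U ∈ E.powerset, ∑ T ∈ E.powerset,
          (if Disjoint T U then (v T : ℂ) * y ^ U.card else 0) := by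
        refine sum_congr rfl fun U hU => ?_
        rw [hv U (mem_powerset.1 hU)]
        push_cast
        rw [sum_mul]
        refine sum_congr rfl fun T _ => ?_
        split_ifs <;> simp
    _ = ∑ T ∈ E.powerset, ∑ U ∈ E.powerset,
          (if Disjoint T U then (v T : ℂ) * y ^ U.card else 0) := sum_comm
    _ = _ := by
        refine sum_congr rfl fun T _ => ?_
        rw [← sum_filter, ← mul_sum]
        have e : E.powerset.filter (fun U => Disjoint T U) = (E \ T).powerset := by
          ext U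
          rw [mem_filter, mem_powerset, mem_powerset, subset_sdiff, disjoint_comm]
        rw [e]
        congr 1
        have := Finset.sum_pow_mul_eq_add_pow y 1 (E \ T)
        simp only [one_pow, mul_one] at this
        rw [this, add_comm]

theorem gbound {M : ℝ} (h : Rr r E Φ M) (y : ℂ) {b δ : ℝ} (hb : 1 ≤ b) (hδ : 0 ≤ δ)
    (hy : ‖1 + y‖ ≤ b * Real.exp (-δ)) :
    ‖∑ U ∈ E.powerset, (Φ U : ℂ) * y ^ U.card‖ ≤
      M * (b ^ E.card * Real.exp (-δ) ^ E.card * Real.exp (δ * r)) := by
  obtain ⟨v, h1, h2, h3⟩ := h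
  rw [gsum h3]
  refine (norm_sum_le _ _).trans ?_
  have key : ∀ T ∈ E.powerset, ‖(v T : ℂ) * (1 + y) ^ (E \ T).card‖ ≤
      |v T| * (b ^ E.card * Real.exp (-δ) ^ E.card * Real.exp (δ * r)) := by
    intro T hT
    rw [mem_powerset] at hT
    rw [norm_mul, norm_pow, Complex.norm_real, Real.norm_eq_abs]
    by_cases hz : v T = 0
    · rw [hz, abs_zero, zero_mul, zero_mul]
    · have hTr : T.card ≤ r := by
        by_contra hc
        exact hz (h1 T (by omega))
      refine mul_le_mul_of_nonneg_left ?_ (abs_nonneg _)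
      have hc : (E \ T).card = E.card - T.card := card_sdiff_of_subset hT
      have hle : T.card ≤ E.card := card_le_card hT
      obtain ⟨m, hm⟩ : ∃ m, E.card = m + T.card := ⟨E.card - T.card, by omega⟩
      have hm' : (E \ T).card = m := by omega
      rw [hm', hm]
      have e1 : ‖1 + y‖ ^ m ≤ (b * Real.exp (-δ)) ^ m := pow_le_pow_left₀ (norm_nonneg _) hy m
      refine e1.trans ?_
      rw [mul_pow, pow_add, pow_add]
      have e2 : 1 ≤ b ^ T.card := one_le_pow₀ hb
      have e3 : 1 ≤ Real.exp (-δ) ^ T.card * Real.exp (δ * r) := by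
        rw [← Real.exp_nat_mul, ← Real.exp_add]
        apply Real.one_le_exp
        have : (T.card : ℝ) ≤ r := by exact_mod_cast hTr
        nlinarith
      have e4 : 0 < b ^ m := by positivity
      have e5 : 0 < Real.exp (-δ) ^ m := by positivity
      calc b ^ m * Real.exp (-δ) ^ m = b ^ m * Real.exp (-δ) ^ m * 1 * 1 := by ring
        _ ≤ b ^ m * Real.exp (-δ) ^ m * b ^ T.card * (Real.exp (-δ) ^ T.card * Real.exp (δ * r)) := by
            gcongr
        _ = _ := by ring
  refine (sum_le_sum key).trans ?_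
  rw [← sum_mul]
  exact mul_le_mul_of_nonneg_right h2 (by positivity)

end

end Pool.Agent.Helper99.AG
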