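import Pool.Agent.N929.AC.Ac
import Pool.Agent.Helper99.AG.Rank

/-!
# Analytic continuation for functionals which are polynomials in the slots

The generating function `∑ a n z ^ n` of the sums of a functional over the objects of a system of local
moves with a pattern theorem extends analytically across every point of its circle of convergence at
which `z ^ s` is not real and positive, if on every class of objects (which differ by the occupation of
a family of slots without conflicts) the functional is a polynomial of bounded degree in the occupation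
numbers, with coefficients of polynomial growth.
-/

set_option autoImplicit false
set_option linter.unusedVariables false

namespace Pool.Agent.Helper99.AG

open Finset Filter Topology Pool.Agent.N929.EG Pool.Agent.N929.AC
open scoped Classical

noncomputable section

variable {α σ : Type} {Y : TS α σ} {L : Finset σ} {st : α → α} {fl : α → Finset σ → α}

/-- the objects of the classes of `Co` -/
def Sat (Y : TS α σ) (L : Finset σ) (fl : α → Finset σ → α) (N : ℕ) : Finset α :=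
  ((Co Y L N).sigma (fun w => (Sl Y L w).powerset)).image (fun x => fl x.1 x.2)

theorem len_fl (h : Fill Y L st fl) {w : α} {U : Finset σ} (hw : Em Y L w) (hU : U ⊆ Sl Y L w) :
    Y.len (fl w U) = Y.len w + Y.s * U.card := Y.len_K _ _ (h.fl_K w U hw hU)

theorem sat_mem (h : Fill Y L st fl) (N : ℕ) : ∀ v ∈ Sat Y L fl N, v ∈ Y.K (Y.len v) := by
  intro v hv
  unfold Sat at hv
  rw [mem_image] at hv
  obtain ⟨⟨w, U⟩, hx, rfl⟩ := hv
  rw [mem_sigma, mem_powerset] at hx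
  simp only at hx ⊢
  have hw := (Pool.Agent.N562.AC.mem_Co.1 hx.1).1
  rw [len_fl h hw hx.2]
  exact h.fl_K w U hw hx.2

theorem sat_sub (h : Fill Y L st fl) (N : ℕ) : ∀ n ≤ N, Y.K n ⊆ Sat Y L fl N := by
  intro n hn v hv
  have h0 := Y.len_K n v hv
  have hv' : v ∈ Y.K (Y.len v) := by rw [h0]; exact hv
  unfold Sat
  rw [mem_image]
  refine ⟨⟨st v, Oc Y L v⟩, ?_, h.fl_st v hv'⟩
  rw [mem_sigma, mem_powerset]
  simp only
  refine ⟨Pool.Agent.N562.AC.mem_Co.2 ⟨h.st_em v hv', ?_⟩, ?_⟩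
  · have := h.st_len v hv'
    omega
  · rw [h.st_sl v hv']
    intro q hq
    unfold Oc at hq
    unfold Sl
    rw [mem_filter] at hq ⊢
    exact ⟨hq.1, Or.inr hq.2⟩

theorem sat_sum {β : Type} [AddCommMonoid β] (h : Fill Y L st fl) (N : ℕ) (g : α → β) :
    ∑ v ∈ Sat Y L fl N, g v = ∑ w ∈ Co Y L N, ∑ U ∈ (Sl Y L w).powerset, g (fl w U) := by
  unfold Sat
  rw [sum_image]
  · rw [sum_sigma]
  · rintro ⟨w, U⟩ hx ⟨w', U'⟩ hx' hxx
    rw [mem_coe, mem_sigma, mem_powerset] at hx hx'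
    simp only at hx hx' hxx
    have hw := (Pool.Agent.N562.AC.mem_Co.1 hx.1).1
    have hw' := (Pool.Agent.N562.AC.mem_Co.1 hx'.1).1
    have e1 : w = w' := by
      rw [← h.st_fl w U hw hx.2, ← h.st_fl w' U' hw' hx'.2, hxx]
    have e2 : U = U' := by
      rw [← h.fl_oc w U hw hx.2, ← h.fl_oc w' U' hw' hx'.2, hxx]
    subst e1
    subst e2
    rfl

/-- the weight of comparison -/
def GG (Y : TS α σ) (C₀ : ℝ) (p : ℕ) (w : α) : ℝ := C₀ * ((Y.len w : ℝ) + 1) ^ p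

theorem GG_nonneg (Y : TS α σ) {C₀ : ℝ} (hC₀ : 0 ≤ C₀) (p : ℕ) (w : α) : 0 ≤ GG Y C₀ p w := by
  unfold GG
  positivity

theorem GG_mono (Y : TS α σ) {C₀ : ℝ} (hC₀ : 0 ≤ C₀) (p : ℕ) {v w : α} (h : Y.len v ≤ Y.len w) :
    GG Y C₀ p v ≤ GG Y C₀ p w := by
  unfold GG
  have : (Y.len v : ℝ) ≤ Y.len w := by exact_mod_cast h
  gcongr

/-- the polynomial of one family -/
def PP (Y : TS α σ) (L : Finset σ) (fl : α → Finset σ → α) (F : α → ℝ) (N : ℕ) (z : ℂ) : ℂ :=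
  ∑ v ∈ Sat Y L fl N, (F v : ℂ) * z ^ Y.len v

theorem PP_eq (h : Fill Y L st fl) (F : α → ℝ) (N : ℕ) (z : ℂ) :
    PP Y L fl F N z = ∑ w ∈ Co Y L N, z ^ Y.len w *
      ∑ U ∈ (Sl Y L w).powerset, (F (fl w U) : ℂ) * (z ^ Y.s) ^ U.card := by
  unfold PP
  rw [sat_sum h]
  refine sum_congr rfl fun w hw => ?_
  have hw' := (Pool.Agent.N562.AC.mem_Co.1 hw).1
  rw [mul_sum]
  refine sum_congr rfl fun U hU => ?_
  rw [mem_powerset] at hU
  rw [len_fl h hw' hU, pow_add, pow_mul]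
  ring

theorem bnd1 (h : Fill Y L st fl) {F : α → ℝ} {C₀ : ℝ} (hC₀ : 0 ≤ C₀) {p : ℕ}
    (hF : ∀ n, ∀ w ∈ Y.K n, |F w| ≤ C₀ * ((n : ℝ) + 1) ^ p) (N : ℕ) (z : ℂ) (x : ℝ)
    (hx : 0 ≤ x) (hsum : Summable (fun n => aa Y (GG Y C₀ p) n * x ^ n)) (hz : ‖z‖ ≤ x) :
    ‖PP Y L fl F N z‖ ≤ ∑' n, aa Y (GG Y C₀ p) n * x ^ n := by
  have hG : ∀ n, ∀ w ∈ Y.K n, 0 ≤ GG Y C₀ p w := fun n w _ => GG_nonneg Y hC₀ p w
  have h1 := Pool.Agent.N186.AC.grp Y (GG Y C₀ p) hG (Sat Y L fl N) 0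
    (fun w hw => ⟨sat_mem h N w hw, Nat.zero_le _⟩) x hx hsum
  simp only [Nat.add_zero] at h1
  refine le_trans ?_ h1
  unfold PP
  refine (norm_sum_le _ _).trans (sum_le_sum fun v hv => ?_)
  rw [norm_mul, norm_pow, Complex.norm_real, Real.norm_eq_abs]
  have h2 : |F v| ≤ GG Y C₀ p v := hF _ v (sat_mem h N v hv)
  exact mul_le_mul h2 (pow_le_pow_left₀ (norm_nonneg _) hz _) (by positivity)
    (GG_nonneg Y hC₀ p v)

theorem cnv1 (h : Fill Y L st fl) {F : α → ℝ} {C₀ : ℝ} (hC₀ : 0 ≤ C₀) {p : ℕ}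
    (hF : ∀ n, ∀ w ∈ Y.K n, |F w| ≤ C₀ * ((n : ℝ) + 1) ^ p) (N : ℕ) (z : ℂ)
    (hsum : Summable (fun n => aa Y (GG Y C₀ p) n * ‖z‖ ^ n)) :
    ‖PP Y L fl F N z - ∑ n ∈ range (N + 1), (aa Y F n : ℂ) * z ^ n‖ ≤
      ∑' n, aa Y (GG Y C₀ p) (n + (N + 1)) * ‖z‖ ^ (n + (N + 1)) := by
  have hG : ∀ n, ∀ w ∈ Y.K n, 0 ≤ GG Y C₀ p w := fun n w _ => GG_nonneg Y hC₀ p w
  have hT1 := sat_mem h N
  have hT2 := sat_sub h N
  have hlow : ∑ n ∈ range (N + 1), (aa Y F n : ℂ) * z ^ n =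
      ∑ w ∈ (Sat Y L fl N).filter (fun w => Y.len w ≤ N), (F w : ℂ) * z ^ Y.len w := by
    have hset : (Sat Y L fl N).filter (fun w => Y.len w ≤ N) =
        (range (N + 1)).biUnion Y.K := by
      ext w
      rw [Finset.mem_filter, Finset.mem_biUnion]
      constructor
      · rintro ⟨h1, h2⟩
        exact ⟨Y.len w, Finset.mem_range.2 (by omega), hT1 w h1⟩
      · rintro ⟨m, hm, hw⟩
        rw [Finset.mem_range] at hm
        rw [Y.len_K m w hw]
        exact ⟨hT2 m (by omega) hw, by omega⟩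
    have hdisj : Set.PairwiseDisjoint (↑(range (N + 1)) : Set ℕ) Y.K := by
      intro m _ m' _ hne
      rw [Function.onFun, Finset.disjoint_left]
      intro w hw hw'
      exact hne ((Y.len_K m w hw).symm.trans (Y.len_K m' w hw'))
    rw [hset, Finset.sum_biUnion hdisj]
    refine Finset.sum_congr rfl (fun m _ => ?_)
    unfold aa
    push_cast
    rw [Finset.sum_mul]
    refine Finset.sum_congr rfl (fun w hw => ?_)
    rw [Y.len_K m w hw]
  unfold PP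
  rw [hlow, ← Finset.sum_filter_add_sum_filter_not (Sat Y L fl N) (fun w => Y.len w ≤ N),
    add_sub_cancel_left]
  refine (norm_sum_le _ _).trans ?_
  have h1 := Pool.Agent.N186.AC.grp Y (GG Y C₀ p) hG
    ((Sat Y L fl N).filter (fun w => ¬ Y.len w ≤ N)) (N + 1)
    (fun w hw => by
      rw [Finset.mem_filter] at hw
      exact ⟨hT1 w hw.1, by omega⟩) ‖z‖ (norm_nonneg z) hsum
  refine le_trans (sum_le_sum fun v hv => ?_) h1
  rw [norm_mul, norm_pow, Complex.norm_real, Real.norm_eq_abs]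
  exact mul_le_mul_of_nonneg_right (hF _ v (hT1 v (Finset.mem_filter.1 hv).1)) (by positivity)

theorem bnd2 (h : Fill Y L st fl) {F : α → ℝ} {C₀ : ℝ} (hC₀ : 0 ≤ C₀) {p r : ℕ}
    (hR : ∀ w, Em Y L w → Rr r (Sl Y L w) (fun U => F (fl w U)) (C₀ * ((Y.len w : ℝ) + 1) ^ p))
    (N : ℕ) (z : ℂ) (x : ℝ) (hx : 0 ≤ x)
    (hsum : Summable (fun n => aa Y (GG Y C₀ p) n * x ^ n)) (c₀ δ : ℝ) (hc₀ : 0 < c₀)
    (hδ : 0 ≤ δ) (h1 : ‖z‖ ≤ x * Real.exp (c₀ * δ))
    (h2 : ‖1 + z ^ Y.s‖ ≤ (1 + x ^ Y.s) * Real.exp (-δ)) :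
    ‖PP Y L fl F N z‖ ≤ Real.exp (δ * r) * (∑' n, aa Y (GG Y C₀ p) n * x ^ n) +
      ∑ m ∈ range (N + 1), ∑ w ∈ (Y.K m).filter
        (fun w => ((Sl Y L w).card : ℝ) < c₀ * m),
          GG Y C₀ p w * (‖z‖ * (1 + ‖z‖ ^ Y.s) ^ c₀) ^ m := by
  have hG : ∀ n, ∀ w ∈ Y.K n, 0 ≤ GG Y C₀ p w := fun n w _ => GG_nonneg Y hC₀ p w
  have hCo : ∀ w ∈ Co Y L N, Em Y L w ∧ w ∈ Y.K (Y.len w) ∧ Y.len w ≤ N := by
    intro w hw
    obtain ⟨h3, h4⟩ := Pool.Agent.N562.AC.mem_Co.1 hw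
    exact ⟨h3, h3.1, h4⟩
  set B : ℝ := ‖z‖ * (1 + ‖z‖ ^ Y.s) ^ c₀ with hB
  have hB0 : 0 ≤ B := by positivity
  have hxs : 1 ≤ 1 + x ^ Y.s := by
    have : 0 ≤ x ^ Y.s := by positivity
    linarith
  have hterm : ∀ w ∈ Co Y L N, ‖z ^ Y.len w *
      ∑ U ∈ (Sl Y L w).powerset, (F (fl w U) : ℂ) * (z ^ Y.s) ^ U.card‖ ≤
      Real.exp (δ * r) * (GG Y C₀ p w * x ^ Y.len w * (1 + x ^ Y.s) ^ (Sl Y L w).card) +
      (if ((Sl Y L w).card : ℝ) < c₀ * Y.len w then GG Y C₀ p w * B ^ Y.len w else 0) := by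
    intro w hw
    have hEm := (hCo w hw).1
    have hGw : 0 ≤ GG Y C₀ p w := GG_nonneg Y hC₀ p w
    have hRw : Rr r (Sl Y L w) (fun U => F (fl w U)) (GG Y C₀ p w) := hR w hEm
    rw [norm_mul, norm_pow]
    have hx1 : 0 ≤ GG Y C₀ p w * x ^ Y.len w * (1 + x ^ Y.s) ^ (Sl Y L w).card := by positivity
    set l := Y.len w with hl
    set k := (Sl Y L w).card with hk
    split_ifs with hlt
    · have hbase : 1 ≤ 1 + ‖z‖ ^ Y.s := by
        have : 0 ≤ ‖z‖ ^ Y.s := by positivity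
        linarith
      have e1 : ‖1 + z ^ Y.s‖ ≤ (1 + ‖z‖ ^ Y.s) * Real.exp (-0) := by
        rw [neg_zero, Real.exp_zero, mul_one]
        refine (norm_add_le _ _).trans ?_
        rw [norm_one, norm_pow]
      have e0 := gbound hRw (z ^ Y.s) hbase le_rfl e1
      rw [neg_zero, Real.exp_zero, one_pow, zero_mul, Real.exp_zero, mul_one, mul_one] at e0
      have e2 : (1 + ‖z‖ ^ Y.s) ^ k ≤ ((1 + ‖z‖ ^ Y.s) ^ c₀) ^ l := by
        calc (1 + ‖z‖ ^ Y.s) ^ k = (1 + ‖z‖ ^ Y.s) ^ (k : ℝ) := (Real.rpow_natCast _ _).symm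
          _ ≤ (1 + ‖z‖ ^ Y.s) ^ (c₀ * l) := Real.rpow_le_rpow_of_exponent_le hbase hlt.le
          _ = ((1 + ‖z‖ ^ Y.s) ^ c₀) ^ l := by
              rw [Real.rpow_mul (by linarith), Real.rpow_natCast]
      have e3 : ‖z‖ ^ l * (GG Y C₀ p w * (1 + ‖z‖ ^ Y.s) ^ k) ≤ GG Y C₀ p w * B ^ l := by
        rw [hB, mul_pow]
        calc ‖z‖ ^ l * (GG Y C₀ p w * (1 + ‖z‖ ^ Y.s) ^ k) =
              GG Y C₀ p w * (‖z‖ ^ l * (1 + ‖z‖ ^ Y.s) ^ k) := by ring
          _ ≤ _ := by gcongr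
      have e4 : 0 ≤ Real.exp (δ * r) *
          (GG Y C₀ p w * x ^ l * (1 + x ^ Y.s) ^ k) := mul_nonneg (Real.exp_pos _).le hx1
      have e5 := mul_le_mul_of_nonneg_left e0 (pow_nonneg (norm_nonneg z) l)
      linarith
    · have hge : c₀ * l ≤ k := not_lt.1 hlt
      rw [add_zero]
      have e0 := gbound hRw (z ^ Y.s) hxs hδ h2
      have e1 : ‖z‖ ^ l ≤ (x * Real.exp (c₀ * δ)) ^ l := pow_le_pow_left₀ (norm_nonneg _) h1 _
      have e4 : Real.exp (c₀ * δ) ^ l * Real.exp (-δ) ^ k ≤ 1 := by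
        rw [← Real.exp_nat_mul, ← Real.exp_nat_mul, ← Real.exp_add]
        rw [Real.exp_le_one_iff]
        have : c₀ * l * δ ≤ k * δ := mul_le_mul_of_nonneg_right hge hδ
        linarith
      calc ‖z‖ ^ l * ‖∑ U ∈ (Sl Y L w).powerset, (F (fl w U) : ℂ) * (z ^ Y.s) ^ U.card‖
          ≤ (x * Real.exp (c₀ * δ)) ^ l *
            (GG Y C₀ p w * ((1 + x ^ Y.s) ^ k * Real.exp (-δ) ^ k * Real.exp (δ * r))) := by
            refine mul_le_mul e1 e0 (norm_nonneg _) (by positivity)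
        _ = Real.exp (δ * r) * (GG Y C₀ p w * x ^ l * (1 + x ^ Y.s) ^ k) *
            (Real.exp (c₀ * δ) ^ l * Real.exp (-δ) ^ k) := by
            rw [mul_pow]; ring
        _ ≤ Real.exp (δ * r) * (GG Y C₀ p w * x ^ l * (1 + x ^ Y.s) ^ k) * 1 :=
            mul_le_mul_of_nonneg_left e4 (mul_nonneg (Real.exp_pos _).le hx1)
        _ = _ := mul_one _
  have hfirst : ∑ w ∈ Co Y L N, GG Y C₀ p w * x ^ Y.len w * (1 + x ^ Y.s) ^ (Sl Y L w).card ≤
      ∑' n, aa Y (GG Y C₀ p) n * x ^ n := by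
    have g1 := Pool.Agent.N186.AC.grp Y (GG Y C₀ p) hG (Sat Y L fl N) 0
      (fun w hw => ⟨sat_mem h N w hw, Nat.zero_le _⟩) x hx hsum
    simp only [Nat.add_zero] at g1
    refine le_trans ?_ g1
    rw [sat_sum h]
    refine sum_le_sum fun w hw => ?_
    have hEm := (hCo w hw).1
    have e3 : (1 + x ^ Y.s) ^ (Sl Y L w).card =
        ∑ U ∈ (Sl Y L w).powerset, (x ^ Y.s) ^ U.card := by
      have := Finset.sum_pow_mul_eq_add_pow (x ^ Y.s) 1 (Sl Y L w)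
      simp only [one_pow, mul_one] at this
      rw [this, add_comm]
    rw [e3, mul_sum]
    refine sum_le_sum fun U hU => ?_
    rw [mem_powerset] at hU
    have e4 := len_fl h hEm hU
    have e5 : GG Y C₀ p w ≤ GG Y C₀ p (fl w U) := GG_mono Y hC₀ p (by rw [e4]; omega)
    calc GG Y C₀ p w * x ^ Y.len w * (x ^ Y.s) ^ U.card =
          GG Y C₀ p w * x ^ Y.len (fl w U) := by rw [e4, pow_add, pow_mul]; ring
      _ ≤ _ := mul_le_mul_of_nonneg_right e5 (by positivity)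
  have hsec : ∑ w ∈ Co Y L N,
      (if ((Sl Y L w).card : ℝ) < c₀ * Y.len w then GG Y C₀ p w * B ^ Y.len w else 0) ≤
      ∑ m ∈ range (N + 1), ∑ w ∈ (Y.K m).filter
        (fun w => ((Sl Y L w).card : ℝ) < c₀ * m), GG Y C₀ p w * B ^ m := by
    rw [← Finset.sum_filter]
    have hdisj : Set.PairwiseDisjoint (↑(range (N + 1)) : Set ℕ) (fun m => (Y.K m).filter
        (fun w => ((Sl Y L w).card : ℝ) < c₀ * m)) := by
      intro m _ m' _ hne
      rw [Function.onFun, Finset.disjoint_left]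
      intro w hw hw'
      rw [Finset.mem_filter] at hw hw'
      exact hne ((Y.len_K m w hw.1).symm.trans (Y.len_K m' w hw'.1))
    have hinner : ∑ m ∈ range (N + 1), ∑ w ∈ (Y.K m).filter
        (fun w => ((Sl Y L w).card : ℝ) < c₀ * m), GG Y C₀ p w * B ^ m =
        ∑ w ∈ (range (N + 1)).biUnion (fun m => (Y.K m).filter
        (fun w => ((Sl Y L w).card : ℝ) < c₀ * m)), GG Y C₀ p w * B ^ Y.len w := by
      rw [Finset.sum_biUnion hdisj]
      refine Finset.sum_congr rfl (fun m _ => Finset.sum_congr rfl (fun w hw => ?_))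
      rw [Y.len_K m w (Finset.mem_filter.1 hw).1]
    rw [hinner]
    refine Finset.sum_le_sum_of_subset_of_nonneg ?_ ?_
    · intro w hw
      rw [Finset.mem_filter] at hw
      obtain ⟨-, hw1, hw2⟩ := hCo w hw.1
      rw [Finset.mem_biUnion]
      exact ⟨Y.len w, Finset.mem_range.2 (by omega), Finset.mem_filter.2 ⟨hw1, hw.2⟩⟩
    · intro w hw _
      exact mul_nonneg (GG_nonneg Y hC₀ p w) (by positivity)
  rw [PP_eq h]
  calc ‖∑ w ∈ Co Y L N, z ^ Y.len w *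
        ∑ U ∈ (Sl Y L w).powerset, (F (fl w U) : ℂ) * (z ^ Y.s) ^ U.card‖
      ≤ ∑ w ∈ Co Y L N, ‖z ^ Y.len w *
        ∑ U ∈ (Sl Y L w).powerset, (F (fl w U) : ℂ) * (z ^ Y.s) ^ U.card‖ := norm_sum_le _ _
    _ ≤ ∑ w ∈ Co Y L N, (Real.exp (δ * r) *
          (GG Y C₀ p w * x ^ Y.len w * (1 + x ^ Y.s) ^ (Sl Y L w).card) +
        (if ((Sl Y L w).card : ℝ) < c₀ * Y.len w then GG Y C₀ p w * B ^ Y.len w else 0)) :=
        Finset.sum_le_sum hterm
    _ = Real.exp (δ * r) *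
          (∑ w ∈ Co Y L N, GG Y C₀ p w * x ^ Y.len w * (1 + x ^ Y.s) ^ (Sl Y L w).card) +
        ∑ w ∈ Co Y L N,
          (if ((Sl Y L w).card : ℝ) < c₀ * Y.len w then GG Y C₀ p w * B ^ Y.len w else 0) := by
        rw [Finset.sum_add_distrib, mul_sum]
    _ ≤ _ := add_le_add (mul_le_mul_of_nonneg_left hfirst (Real.exp_pos _).le) hsec

end

end Pool.Agent.Helper99.AG
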